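import Pool.Agent.K1H81.TT.Stm

set_option autoImplicit false

/-! Project TT, piece INV: `w` times the two Möbius functions is locally constant. -/

namespace Pool.Agent.K1H81.TT

namespace INV

open Finset

/-- no large squares, no large powers -/
structure Nice (y K N : ℕ) : Prop where
  ne : N ≠ 0
  big : ∀ p : ℕ, p.Prime → y < p → ¬ p ^ 2 ∣ N
  small : ∀ p : ℕ, p.Prime → p ≤ y → ¬ p ^ K ∣ N

theorem prime_le {y K p : ℕ} (hp : p.Prime) (h : p ∣ QQ y K) : p ≤ y :=
  hp.dvd_factorial.1 (hp.dvd_of_dvd_pow h)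

theorem pow_dvd_QQ {y K p : ℕ} (hp : p.Prime) (h : p ≤ y) : p ^ K ∣ QQ y K :=
  pow_dvd_pow_of_dvd (hp.dvd_factorial.2 h) K

theorem cof_prime {y K N p : ℕ} (hN : Nice y K N) (hp : p.Prime)
    (h : p ∣ N / Nat.gcd N (QQ y K)) : y < p := by
  by_contra hle
  push Not at hle
  have hg : Nat.gcd N (QQ y K) ∣ N := Nat.gcd_dvd_left _ _
  obtain ⟨e, n', hn', hNe⟩ := Nat.exists_eq_pow_mul_and_not_dvd hN.ne p hp.ne_one
  have he : e < K := by
    by_contra hK
    push Not at hK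
    exact hN.small p hp hle ((pow_dvd_pow p hK).trans ⟨n', hNe⟩)
  have h1 : p ^ e ∣ Nat.gcd N (QQ y K) :=
    Nat.dvd_gcd ⟨n', hNe⟩ ((pow_dvd_pow p he.le).trans (pow_dvd_QQ hp hle))
  have h2 : p ^ e * p ∣ N := by
    have := mul_dvd_mul h1 h
    rwa [Nat.mul_div_cancel' hg] at this
  have h3 : p ^ e * p ∣ p ^ e * n' := hNe ▸ h2
  exact hn' (Nat.dvd_of_mul_dvd_mul_left (pow_pos hp.pos e) h3)

theorem cof_sqfree {y K N : ℕ} (hN : Nice y K N) : Squarefree (N / Nat.gcd N (QQ y K)) := by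
  rw [Nat.squarefree_iff_prime_squarefree]
  intro p hp h
  have h1 : p ∣ N / Nat.gcd N (QQ y K) := (dvd_mul_right p p).trans h
  have h2 := cof_prime hN hp h1
  apply hN.big p hp h2
  rw [pow_two]
  exact h.trans (Nat.div_dvd_of_dvd (Nat.gcd_dvd_left _ _))

theorem cof_coprime {y K N : ℕ} (hN : Nice y K N) :
    Nat.Coprime (Nat.gcd N (QQ y K)) (N / Nat.gcd N (QQ y K)) := by
  refine Nat.coprime_of_dvd fun p hp h1 h2 => ?_
  have h3 := cof_prime hN hp h2
  have h4 := prime_le hp (h1.trans (Nat.gcd_dvd_right _ _))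
  omega

theorem mu_prod {m : ℕ} (hm : Squarefree m) (f : ℕ → ℤ) :
    ∏ p ∈ m.primeFactors, (-f p) =
      ArithmeticFunction.moebius m * ∏ p ∈ m.primeFactors, f p := by
  have h : ArithmeticFunction.moebius m = ∏ p ∈ m.primeFactors, (-1 : ℤ) := by
    conv_lhs => rw [← Nat.prod_primeFactors_of_squarefree hm]
    rw [ArithmeticFunction.isMultiplicative_moebius.map_prod_of_prime _
      (fun p hp => Nat.prime_of_mem_primeFactors hp)]
    exact prod_congr rfl fun p hp =>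
      ArithmeticFunction.moebius_apply_prime (Nat.prime_of_mem_primeFactors hp)
  rw [h, ← prod_mul_distrib]
  exact prod_congr rfl fun p _ => by ring

theorem jac_left (b : ℕ) (s : Finset ℕ) :
    jacobiSym ((∏ p ∈ s, p : ℕ) : ℤ) b = ∏ p ∈ s, jacobiSym (p : ℤ) b := by
  classical
  induction s using Finset.induction_on with
  | empty => simp [jacobiSym.one_left]
  | insert a s ha ih => rw [prod_insert ha, Nat.cast_mul, jacobiSym.mul_left, ih, prod_insert ha]

theorem jac_right (a : ℤ) (s : Finset ℕ) (hs : ∀ p ∈ s, p ≠ 0) :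
    jacobiSym a (∏ p ∈ s, p) = ∏ p ∈ s, jacobiSym a p := by
  classical
  induction s using Finset.induction_on with
  | empty => simp
  | insert b s hb ih =>
    rw [prod_insert hb, prod_insert hb,
      jacobiSym.mul_right' _ (hs b (mem_insert_self _ _))
        (prod_ne_zero_iff.2 fun p hp => hs p (mem_insert_of_mem hp)),
      ih fun p hp => hs p (mem_insert_of_mem hp)]

theorem recip {A : ℤ} (hA : A % 4 = 1) {b : ℕ} (hb : Odd b) :
    jacobiSym A b = jacobiSym b A.natAbs := by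
  rcases le_total 0 A with h | h
  · obtain ⟨a, ha⟩ : ∃ a : ℕ, A = (a : ℤ) := ⟨A.natAbs, by omega⟩
    subst ha
    have h4 : a % 4 = 1 := by omega
    rw [Int.natAbs_natCast]
    exact jacobiSym.quadratic_reciprocity_one_mod_four h4 hb
  · obtain ⟨a, ha⟩ : ∃ a : ℕ, A = -(a : ℤ) := ⟨A.natAbs, by omega⟩
    subst ha
    have h4 : a % 4 = 3 := by omega
    have ho : Odd a := by rw [Nat.odd_iff]; omega
    rw [Int.natAbs_neg, Int.natAbs_natCast, jacobiSym.neg _ hb]
    have hb4 : b % 4 = 1 ∨ b % 4 = 3 := by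
      have := Nat.odd_iff.1 hb
      omega
    rcases hb4 with h1 | h3
    · rw [ZMod.χ₄_nat_one_mod_four h1, one_mul]
      exact (jacobiSym.quadratic_reciprocity_one_mod_four h1 ho).symm
    · rw [ZMod.χ₄_nat_three_mod_four h3, jacobiSym.quadratic_reciprocity_three_mod_four h4 h3]
      ring

theorem chi_eq {A : ℤ} (hA : A % 4 = 1) {p : ℕ} (hp : p.Prime) :
    chi A p = jacobiSym p A.natAbs := by
  by_cases h2 : p = 2
  · subst h2
    have ho : Odd A.natAbs := by rw [Nat.odd_iff]; omega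
    unfold chi
    rw [if_pos rfl]
    rw [Nat.cast_ofNat, jacobiSym.at_two ho, ZMod.χ₈_nat_eq_if_mod_eight]
    have h3 : ¬ A.natAbs % 2 = 0 := by omega
    rw [if_neg h3]
    by_cases h8 : A % 8 = 1
    · rw [if_pos h8, if_pos (by omega)]
    · rw [if_neg h8, if_neg (by omega)]
  · unfold chi
    rw [if_neg h2]
    exact recip hA (hp.odd_of_ne_two h2)

theorem jac_congr {A A' : ℤ} (hA : A % 4 = 1) (hA' : A' % 4 = 1) (g : ℕ) : g ≠ 0 →
    (∀ p : ℕ, p.Prime → p ∣ g → chi A p = chi A' p) →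
    jacobiSym g A.natAbs = jacobiSym g A'.natAbs := by
  refine Nat.recOnMul (motive := fun g => g ≠ 0 →
    (∀ p : ℕ, p.Prime → p ∣ g → chi A p = chi A' p) →
    jacobiSym g A.natAbs = jacobiSym g A'.natAbs) ?_ ?_ ?_ ?_ g
  · intro h _; exact absurd rfl h
  · intro _ _; rw [Nat.cast_one, jacobiSym.one_left, jacobiSym.one_left]
  · intro p hp _ h
    rw [← chi_eq hA hp, ← chi_eq hA' hp]
    exact h p hp (dvd_refl _)
  · intro a b ha hb h0 h
    have ha0 : a ≠ 0 := fun h' => h0 (by rw [h', zero_mul])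
    have hb0 : b ≠ 0 := fun h' => h0 (by rw [h', mul_zero])
    rw [Nat.cast_mul, jacobiSym.mul_left, jacobiSym.mul_left,
      ha ha0 fun p hp hpa => h p hp (hpa.trans (dvd_mul_right _ _)),
      hb hb0 fun p hp hpb => h p hp (hpb.trans (dvd_mul_left _ _))]

theorem cast_pow_dvd {p k : ℕ} {n : ℤ} : ((p : ℤ) ^ k ∣ n) ↔ p ^ k ∣ n.natAbs := by
  rw [← Int.natCast_dvd]
  push_cast
  exact Iff.rfl

theorem nice_D {y K : ℕ} {A D : ℤ} (hA : Adm A D) (hB : ¬ Bad y K A D) :
    Nice y K D.natAbs := by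
  refine ⟨Int.natAbs_ne_zero.2 hA.2.1, fun p hp h h' => hB ⟨p, hp, Or.inl ⟨h, Or.inl ?_⟩⟩,
    fun p hp h h' => hB ⟨p, hp, Or.inr ⟨h, Or.inl ?_⟩⟩⟩
  · exact cast_pow_dvd.2 h'
  · exact cast_pow_dvd.2 h'

theorem nice_E {y K : ℕ} {A D : ℤ} (hA : Adm A D) (hB : ¬ Bad y K A D) :
    Nice y K (EE A D).natAbs := by
  refine ⟨Int.natAbs_ne_zero.2 hA.2.2.1,
    fun p hp h h' => hB ⟨p, hp, Or.inl ⟨h, Or.inr (Or.inl ?_)⟩⟩,
    fun p hp h h' => hB ⟨p, hp, Or.inr ⟨h, Or.inr ?_⟩⟩⟩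
  · exact cast_pow_dvd.2 h'
  · exact cast_pow_dvd.2 h'

theorem cop_AE {A D : ℤ} (hA : Adm A D) : IsCoprime (-2 * A) (EE A D) := by
  obtain ⟨h4, _, _, hc⟩ := hA
  have h2 : IsCoprime A 2 := ⟨1, -((A - 1) / 2), by omega⟩
  have h64 : IsCoprime A (-64) := by
    have h : IsCoprime A ((2 : ℤ) ^ 6) := h2.pow_right
    have e : (-64 : ℤ) = -((2 : ℤ) ^ 6) := by norm_num
    rw [e]
    exact h.neg_right
  have h1 : IsCoprime A (EE A D) := by
    have h := (h64.mul_right hc).add_mul_left_right A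
    unfold EE
    have e : -64 * D + A * A = A ^ 2 - 64 * D := by ring
    rwa [e] at h
  have h3 : IsCoprime (-2) (EE A D) := by
    refine ⟨(EE A D - 1) / 2, 1, ?_⟩
    have h5 : (EE A D) % 2 = 1 := by
      unfold EE
      have : A ^ 2 % 2 = 1 := by
        rw [pow_two, Int.mul_emod]
        have : A % 2 = 1 := by omega
        rw [this]
        norm_num
      omega
    omega
  exact h3.mul_left h1

theorem gcd_eq {y K : ℕ} {n n' : ℤ} (h : n ≡ n' [ZMOD (24 * QQ y K : ℕ)]) :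
    gg y K n = gg y K n' := by
  have key : ∀ a b : ℤ, a ≡ b [ZMOD (24 * QQ y K : ℕ)] → gg y K a ∣ gg y K b := by
    intro a b hab
    unfold gg
    refine Nat.dvd_gcd ?_ (Nat.gcd_dvd_right _ _)
    rw [← Int.natCast_dvd]
    have h1 : ((Nat.gcd a.natAbs (QQ y K) : ℕ) : ℤ) ∣ a :=
      Int.natCast_dvd.2 (Nat.gcd_dvd_left _ _)
    have h2 : ((Nat.gcd a.natAbs (QQ y K) : ℕ) : ℤ) ∣ ((24 * QQ y K : ℕ) : ℤ) :=
      Int.natCast_dvd_natCast.2 ((Nat.gcd_dvd_right _ _).trans (dvd_mul_left _ _))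
    have h3 := h2.trans hab.dvd
    have h4 := dvd_add h3 h1
    rwa [sub_add_cancel] at h4
  exact Nat.dvd_antisymm (key _ _ h) (key _ _ h.symm)

theorem formula (hR : S_REC) {y K : ℕ} {A D : ℤ} (hA : Adm A D) (hB : ¬ Bad y K A D) :
    w A D * mm y K D * mm y K (EE A D) =
      -((∏ p ∈ (gg y K D).primeFactors, (-chi A p)) *
        (∏ p ∈ (gg y K (EE A D)).primeFactors, (-jacobiSym (-2 * A) p)) *
        jacobiSym (gg y K D : ℤ) A.natAbs * jacobiSym (-2 * A) (gg y K (EE A D)) *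
        (if 0 < EE A D then (if 0 < D then (if 0 < A then 1 else -1) else 1) else -1)) := by
  have hD := nice_D hA hB
  have hE := nice_E hA hB
  obtain ⟨g, hg⟩ : ∃ g, g = gg y K D := ⟨_, rfl⟩
  obtain ⟨h, hh⟩ : ∃ h, h = gg y K (EE A D) := ⟨_, rfl⟩
  obtain ⟨m, hm⟩ : ∃ m, m = D.natAbs / g := ⟨_, rfl⟩
  obtain ⟨n, hn⟩ : ∃ n, n = (EE A D).natAbs / h := ⟨_, rfl⟩
  have hgD : g ∣ D.natAbs := by rw [hg]; exact Nat.gcd_dvd_left _ _
  have hhE : h ∣ (EE A D).natAbs := by rw [hh]; exact Nat.gcd_dvd_left _ _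
  have e1 : D.natAbs = g * m := by rw [hm, Nat.mul_div_cancel' hgD]
  have e2 : (EE A D).natAbs = h * n := by rw [hn, Nat.mul_div_cancel' hhE]
  have hg0 : g ≠ 0 := by
    intro h0
    exact hD.ne (by rw [e1, h0, zero_mul])
  have hm0 : m ≠ 0 := by
    intro h0
    exact hD.ne (by rw [e1, h0, mul_zero])
  have hh0 : h ≠ 0 := by
    intro h0
    exact hE.ne (by rw [e2, h0, zero_mul])
  have hn0 : n ≠ 0 := by
    intro h0
    exact hE.ne (by rw [e2, h0, mul_zero])
  have sm : Squarefree m := by rw [hm, hg]; exact cof_sqfree hD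
  have sn : Squarefree n := by rw [hn, hh]; exact cof_sqfree hE
  have cgm : Nat.Coprime g m := by rw [hm, hg]; exact cof_coprime hD
  have chn : Nat.Coprime h n := by rw [hn, hh]; exact cof_coprime hE
  have mum : mm y K D = ArithmeticFunction.moebius m := by
    unfold mm
    rw [← hg, ← hm]
  have mun : mm y K (EE A D) = ArithmeticFunction.moebius n := by
    unfold mm
    rw [← hh, ← hn]
  have sq1 : ArithmeticFunction.moebius m ^ 2 = 1 :=
    ArithmeticFunction.moebius_sq_eq_one_of_squarefree sm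
  have sq2 : ArithmeticFunction.moebius n ^ 2 = 1 :=
    ArithmeticFunction.moebius_sq_eq_one_of_squarefree sn
  -- the products
  have p1 : ∏ p ∈ D.natAbs.primeFactors, (-chi A p) =
      (∏ p ∈ g.primeFactors, (-chi A p)) *
        (ArithmeticFunction.moebius m * jacobiSym (m : ℤ) A.natAbs) := by
    rw [e1, cgm.primeFactors_mul, prod_union cgm.disjoint_primeFactors, mu_prod sm]
    congr 2
    conv_rhs => rw [← Nat.prod_primeFactors_of_squarefree sm]
    rw [jac_left]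
    exact prod_congr rfl fun p hp => chi_eq hA.1 (Nat.prime_of_mem_primeFactors hp)
  have p2 : ∏ p ∈ (EE A D).natAbs.primeFactors, (-jacobiSym (-2 * A) p) =
      (∏ p ∈ h.primeFactors, (-jacobiSym (-2 * A) p)) *
        (ArithmeticFunction.moebius n * jacobiSym (-2 * A) n) := by
    rw [e2, chn.primeFactors_mul, prod_union chn.disjoint_primeFactors,
      mu_prod sn (fun p => jacobiSym (-2 * A) p)]
    congr 2
    conv_rhs => rw [← Nat.prod_primeFactors_of_squarefree sn]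
    rw [jac_right _ _ fun p hp => (Nat.prime_of_mem_primeFactors hp).ne_zero]
  -- the symbols
  have q1 : jacobiSym (g : ℤ) A.natAbs ^ 2 = 1 := by
    apply jacobiSym.sq_one
    rw [Int.gcd_natCast_natCast]
    have h1 : Nat.Coprime D.natAbs A.natAbs :=
      (Int.isCoprime_iff_gcd_eq_one.1 hA.2.2.2.symm)
    exact h1.coprime_dvd_left hgD
  have q2 : jacobiSym (-2 * A) h ^ 2 = 1 := by
    apply jacobiSym.sq_one
    have h1 : Nat.Coprime (-2 * A).natAbs (EE A D).natAbs :=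
      (Int.isCoprime_iff_gcd_eq_one.1 (cop_AE hA))
    have h2 := h1.coprime_dvd_right hhE
    rw [Int.gcd_def, Int.natAbs_natCast]
    exact h2
  have r1 : jacobiSym (D.natAbs : ℤ) A.natAbs =
      jacobiSym (g : ℤ) A.natAbs * jacobiSym (m : ℤ) A.natAbs := by
    rw [e1, Nat.cast_mul, jacobiSym.mul_left]
  have r2 : jacobiSym (-2 * A) (EE A D).natAbs =
      jacobiSym (-2 * A) h * jacobiSym (-2 * A) n := by
    rw [e2, jacobiSym.mul_right' _ hh0 hn0]
  have hrec := hR A D hA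
  rw [r1, r2] at hrec
  rw [← hrec, ← hg, ← hh, mum, mun]
  unfold w
  rw [p1, p2]
  generalize (∏ p ∈ g.primeFactors, (-chi A p)) = G1
  generalize (∏ p ∈ h.primeFactors, (-jacobiSym (-2 * A) p)) = G2
  generalize jacobiSym (g : ℤ) A.natAbs = a at *
  generalize jacobiSym (m : ℤ) A.natAbs = b at *
  generalize jacobiSym (-2 * A) h = c at *
  generalize jacobiSym (-2 * A) n = d at *
  generalize ArithmeticFunction.moebius m = u at *
  generalize ArithmeticFunction.moebius n = v at *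
  have s1 : u ^ 2 * v ^ 2 = 1 := by rw [sq1, sq2, one_mul]
  have s2 : a ^ 2 * c ^ 2 = 1 := by rw [q1, q2, one_mul]
  calc -(G1 * (u * b) * (G2 * (v * d))) * u * v = -(G1 * G2 * b * d) * (u ^ 2 * v ^ 2) := by ring
    _ = -(G1 * G2 * b * d) * (a ^ 2 * c ^ 2) := by rw [s1, s2]
    _ = _ := by ring

theorem chi_congr {y K : ℕ} {A A' : ℤ} (h : A ≡ A' [ZMOD (24 * QQ y K : ℕ)]) {p : ℕ}
    (hp : p ∣ QQ y K) : chi A p = chi A' p := by
  unfold chi
  split_ifs with h2 h8 h8' h8' 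
  all_goals first
    | rfl
    | (exfalso
       have h1 : ((8 : ℕ) : ℤ) ∣ ((24 * QQ y K : ℕ) : ℤ) :=
         Int.natCast_dvd_natCast.2 ⟨3 * QQ y K, by ring⟩
       have h3 := h1.trans h.dvd
       omega)
    | (apply jacobiSym.mod_left'
       have h1 : ((p : ℕ) : ℤ) ∣ ((24 * QQ y K : ℕ) : ℤ) :=
         Int.natCast_dvd_natCast.2 (hp.trans (dvd_mul_left _ _))
       exact h.of_dvd h1)

theorem jac_congr2 {y K : ℕ} {A A' : ℤ} (h : A ≡ A' [ZMOD (24 * QQ y K : ℕ)]) {b : ℕ}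
    (hb : b ∣ QQ y K) : jacobiSym (-2 * A) b = jacobiSym (-2 * A') b := by
  apply jacobiSym.mod_left'
  have h1 : ((b : ℕ) : ℤ) ∣ ((24 * QQ y K : ℕ) : ℤ) :=
    Int.natCast_dvd_natCast.2 (hb.trans (dvd_mul_left _ _))
  exact (h.of_dvd h1).mul_left (-2)

end INV

open INV in
theorem t_INV (hR : S_REC) : S_INV := by
  intro y K _
  refine ⟨?_, ?_⟩
  · intro A D hA hB
    exact ⟨ArithmeticFunction.moebius_sq_eq_one_of_squarefree (cof_sqfree (nice_D hA hB)),
      ArithmeticFunction.moebius_sq_eq_one_of_squarefree (cof_sqfree (nice_E hA hB))⟩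
  · intro A D A' D' hA hA' hB hB' hAA hDD s1 s2 s3
    have hEE : EE A D ≡ EE A' D' [ZMOD (24 * QQ y K : ℕ)] := by
      unfold EE
      exact (hAA.pow 2).sub (hDD.mul_left 64)
    rw [formula hR hA hB, formula hR hA' hB']
    have g1 := gcd_eq hDD
    have g2 := gcd_eq hEE
    have d1 : gg y K D' ∣ QQ y K := Nat.gcd_dvd_right _ _
    have d2 : gg y K (EE A' D') ∣ QQ y K := Nat.gcd_dvd_right _ _
    have n1 : gg y K D' ≠ 0 := by
      intro h0
      exact hA'.2.1 (Int.natAbs_eq_zero.1 (Nat.eq_zero_of_gcd_eq_zero_left h0))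
    rw [g1, g2]
    have c1 : ∏ p ∈ (gg y K D').primeFactors, (-chi A p) =
        ∏ p ∈ (gg y K D').primeFactors, (-chi A' p) :=
      Finset.prod_congr rfl fun p hp => by
        rw [chi_congr hAA ((Nat.dvd_of_mem_primeFactors hp).trans d1)]
    have c2 : ∏ p ∈ (gg y K (EE A' D')).primeFactors, (-jacobiSym (-2 * A) p) =
        ∏ p ∈ (gg y K (EE A' D')).primeFactors, (-jacobiSym (-2 * A') p) :=
      Finset.prod_congr rfl fun p hp => by
        rw [jac_congr2 hAA ((Nat.dvd_of_mem_primeFactors hp).trans d2)]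
    have c3 := jac_congr hA.1 hA'.1 (gg y K D') n1
      (fun p _ hp => chi_congr hAA (hp.trans d1))
    have c4 := jac_congr2 hAA d2
    rw [c1, c2, c3, c4]
    simp only [s1, s2, s3]

end Pool.Agent.K1H81.TT
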