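import Pool.Agent.K1H81.TT.Stm

/-!
# Project TT, piece WRT: the root number in terms of `A`, `D`
-/

set_option autoImplicit false

namespace Pool.Agent.K1H81.TT

open Finset

namespace WRT

theorem gcd_one {p : ℕ} (hp : p.Prime) {n : ℤ} (h : ¬ (p : ℤ) ∣ n) : n.gcd p = 1 := by
  have h1 : Nat.Coprime p n.natAbs :=
    (Nat.Prime.coprime_iff_not_dvd hp).2 fun h' => h (Int.natCast_dvd.2 h')
  have h2 : n.gcd p = Nat.gcd n.natAbs p := rfl
  rw [h2]
  exact h1.symm

theorem js_sq {p : ℕ} (hp : p.Prime) {n : ℤ} (h : ¬ (p : ℤ) ∣ n) : jacobiSym (n ^ 2) p = 1 :=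
  jacobiSym.sq_one' (gcd_one hp h)

theorem js_mod {p : ℕ} {a b : ℤ} (h : (p : ℤ) ∣ a - b) : jacobiSym a p = jacobiSym b p :=
  jacobiSym.mod_left' (Int.emod_eq_emod_iff_emod_sub_eq_zero.2 (Int.emod_eq_zero_of_dvd h))

theorem js_cube (a : ℤ) (p : ℕ) : jacobiSym (a ^ 3) p = jacobiSym a p := by
  rw [jacobiSym.pow_left]
  rcases jacobiSym.trichotomy a p with h | h | h <;> rw [h] <;> norm_num

theorem disc (t : Bool) (A D : ℤ) : F4 t A D ^ 3 - F6 t A D ^ 2 = 1728 * DD t A D := by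
  unfold F4 F6 DD EE
  cases t
  · simp only [Bool.false_eq_true, if_false]
    ring
  · simp only [if_true]
    ring

theorem pf (t : Bool) (A D : ℤ) (hD : D ≠ 0) (hE : EE A D ≠ 0) :
    (DD t A D).natAbs.primeFactors = D.natAbs.primeFactors ∪ (EE A D).natAbs.primeFactors := by
  have h1 : D.natAbs ≠ 0 := Int.natAbs_ne_zero.2 hD
  have h2 : (EE A D).natAbs ≠ 0 := Int.natAbs_ne_zero.2 hE
  unfold DD
  cases t
  · simp only [Bool.false_eq_true, if_false]
    rw [Int.natAbs_mul, Int.natAbs_pow, Nat.primeFactors_mul h1 (pow_ne_zero _ h2),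
      Nat.primeFactors_pow _ (by norm_num)]
  · simp only [if_true]
    rw [Int.natAbs_mul, Int.natAbs_pow, Nat.primeFactors_mul (pow_ne_zero _ h1) h2,
      Nat.primeFactors_pow _ (by norm_num)]

theorem cop (A D : ℤ) (h : IsCoprime A D) : IsCoprime D (EE A D) := by
  have h1 : IsCoprime D (A ^ 2) := (h.symm).pow_right
  have h2 := h1.add_mul_left_right (-64)
  have h3 : A ^ 2 + D * -64 = EE A D := by
    unfold EE
    ring
  rwa [h3] at h2

theorem disj (A D : ℤ) (h : IsCoprime A D) :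
    Disjoint D.natAbs.primeFactors (EE A D).natAbs.primeFactors :=
  Nat.Coprime.disjoint_primeFactors (Int.isCoprime_iff_gcd_eq_one.1 (cop A D h))

theorem chi_D (t : Bool) (A D : ℤ) (hA : A % 4 = 1) (p : ℕ) (hpD : (p : ℤ) ∣ D) :
    chi (-F6 t A D) p = chi A p := by
  unfold chi
  by_cases h2 : p = 2
  · rw [if_pos h2, if_pos h2]
    subst h2
    have h3 : (-F6 t A D) % 8 = A % 8 := by
      have h4 : ∃ k : ℤ, -F6 t A D = A ^ 3 + 8 * k := by
        unfold F6
        cases t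
        · exact ⟨-(72 * A * D), by simp only [Bool.false_eq_true, if_false]; ring⟩
        · exact ⟨-(9 * A * D), by simp only [if_true]; ring⟩
      obtain ⟨k, hk⟩ := h4
      have h5 : A % 8 = 1 ∨ A % 8 = 5 := by omega
      have h6 : A ^ 3 % 8 = A % 8 := by
        rcases h5 with h5 | h5
        · rw [pow_succ, pow_two, Int.mul_emod, Int.mul_emod A A, h5]
          norm_num
        · rw [pow_succ, pow_two, Int.mul_emod, Int.mul_emod A A, h5]
          norm_num
      rw [hk]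
      omega
    rw [h3]
  · rw [if_neg h2, if_neg h2]
    have h3 : (p : ℤ) ∣ -F6 t A D - A ^ 3 := by
      obtain ⟨k, hk⟩ := hpD
      unfold F6
      cases t
      · exact ⟨-(576 * A * k), by simp only [Bool.false_eq_true, if_false]; rw [hk]; ring⟩
      · exact ⟨-(72 * A * k), by simp only [if_true]; rw [hk]; ring⟩
    rw [js_mod h3, js_cube]

theorem chi_E (t : Bool) (A D : ℤ) (hA : A % 4 = 1) (h : IsCoprime A D) (p : ℕ) (hp : p.Prime)
    (hpE : (p : ℤ) ∣ EE A D) : chi (-F6 t A D) p = jacobiSym (-2 * A) p := by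
  have hpI : Prime (p : ℤ) := Nat.prime_iff_prime_int.1 hp
  have h2 : p ≠ 2 := by
    rintro rfl
    have h3 : ((2 : ℕ) : ℤ) ∣ A * A := by
      have h4 : A * A = EE A D + ((2 : ℕ) : ℤ) * (32 * D) := by
        unfold EE
        push_cast
        ring
      rw [h4]
      exact dvd_add hpE (dvd_mul_right _ _)
    have h5 : ((2 : ℕ) : ℤ) ∣ A := (hpI.dvd_or_dvd h3).elim id id
    push_cast at h5
    omega
  have hp2 : ¬ (p : ℤ) ∣ 2 := by
    intro h3
    have h4 : p ∣ 2 := by exact_mod_cast h3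
    exact h2 ((Nat.prime_dvd_prime_iff_eq hp Nat.prime_two).1 h4)
  have hpA : ¬ (p : ℤ) ∣ A := by
    intro h3
    have h4 : (p : ℤ) ∣ 2 ^ 6 * D := by
      have h5 : 2 ^ 6 * D = A * A - EE A D := by
        unfold EE
        ring
      rw [h5]
      exact dvd_sub (Dvd.dvd.mul_right h3 A) hpE
    rcases hpI.dvd_or_dvd h4 with h5 | h5
    · exact hp2 (hpI.dvd_of_dvd_pow h5)
    · exact hpI.not_isUnit (h.isUnit_of_dvd' h3 h5)
  have hn : ∀ k : ℕ, ¬ (p : ℤ) ∣ 2 ^ k * A := by
    intro k h3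
    rcases hpI.dvd_or_dvd h3 with h5 | h5
    · exact hp2 (hpI.dvd_of_dvd_pow h5)
    · exact hpA h5
  have h8 : ¬ (p : ℤ) ∣ 2 ^ 3 := fun h5 => hp2 (hpI.dvd_of_dvd_pow h5)
  unfold chi
  rw [if_neg h2]
  have key : jacobiSym (-F6 t A D) p = jacobiSym ((2 ^ 3) ^ 2 * -F6 t A D) p := by
    rw [jacobiSym.mul_left, js_sq hp h8, one_mul]
  rw [key]
  obtain ⟨k, hk⟩ := hpE
  have hD : 64 * D = A ^ 2 - p * k := by
    unfold EE at hk
    linarith
  cases t
  · have h3 : (p : ℤ) ∣ (2 ^ 3) ^ 2 * -F6 false A D - (-2 * A) * (2 ^ 4 * A) ^ 2 := by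
      refine ⟨576 * A * k, ?_⟩
      unfold F6
      simp only [Bool.false_eq_true, if_false]
      linear_combination (-576 * A) * hD
    rw [js_mod h3, jacobiSym.mul_left, js_sq hp (hn 4), mul_one]
  · have h3 : (p : ℤ) ∣ (2 ^ 3) ^ 2 * -F6 true A D - (-2 * A) * (2 ^ 1 * A) ^ 2 := by
      refine ⟨72 * A * k, ?_⟩
      unfold F6
      simp only [if_true]
      linear_combination (-72 * A) * hD
    rw [js_mod h3, jacobiSym.mul_left, js_sq hp (hn 1), mul_one]

end WRT

theorem t_WRT (hAP : S_AP) : S_WRT := by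
  rintro W t A D hW ⟨hA, hD, hE, hc⟩ h4 h6
  have hΔ : W.Δ = DD t A D := by
    have h1 := W.c_relation
    rw [h4, h6, WRT.disc t A D] at h1
    linarith
  refine ⟨hΔ, ?_⟩
  have hap : ∀ p : ℕ, p.Prime → (p : ℤ) ∣ DD t A D → ap W p = chi (-F6 t A D) p := by
    intro p hp hd
    rw [← hΔ] at hd
    rw [hAP W p hp hd (hW.2 p hp hd), h6]
  have hdD : ∀ p ∈ D.natAbs.primeFactors, ap W p = chi A p := by
    intro p hp
    have hp1 : p.Prime := Nat.prime_of_mem_primeFactors hp
    have hp2 : (p : ℤ) ∣ D := Int.natCast_dvd.2 (Nat.dvd_of_mem_primeFactors hp)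
    have hp3 : (p : ℤ) ∣ DD t A D := by
      unfold DD
      cases t
      · simp only [Bool.false_eq_true, if_false]
        exact Dvd.dvd.mul_right hp2 _
      · simp only [if_true]
        exact Dvd.dvd.mul_right (dvd_pow hp2 (by norm_num)) _
    rw [hap p hp1 hp3, WRT.chi_D t A D hA p hp2]
  have hdE : ∀ p ∈ (EE A D).natAbs.primeFactors, ap W p = jacobiSym (-2 * A) p := by
    intro p hp
    have hp1 : p.Prime := Nat.prime_of_mem_primeFactors hp
    have hp2 : (p : ℤ) ∣ EE A D := Int.natCast_dvd.2 (Nat.dvd_of_mem_primeFactors hp)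
    have hp3 : (p : ℤ) ∣ DD t A D := by
      unfold DD
      cases t
      · simp only [Bool.false_eq_true, if_false]
        exact Dvd.dvd.mul_left (dvd_pow hp2 (by norm_num)) _
      · simp only [if_true]
        exact Dvd.dvd.mul_left hp2 _
    rw [hap p hp1 hp3, WRT.chi_E t A D hA hc p hp1 hp2]
  unfold rootNumber w
  rw [hΔ, WRT.pf t A D hD hE, prod_union (WRT.disj A D hc)]
  congr 2
  · exact prod_congr rfl fun p hp => by rw [hdD p hp]
  · exact prod_congr rfl fun p hp => by rw [hdE p hp]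

end Pool.Agent.K1H81.TT
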