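import Pool.Agent.K1H81.TT.Stm

/-! Piece BAD of project TT (helper81): few exceptional pairs. -/

namespace Pool.Agent.K1H81.TT

open Finset

namespace BAD

/-- Integers of an interval in a residue class. -/
theorem cnt_mod (B q : ℕ) (hq : 1 ≤ q) (v : ℤ) [DecidablePred fun D : ℤ => (q : ℤ) ∣ D - v] :
    (((Icc (-(B : ℤ)) B).filter (fun D => (q : ℤ) ∣ D - v)).card : ℝ) ≤ 2 * B / q + 2 := by
  have h1 : ((Icc (-(B : ℤ)) B).filter (fun D => (q : ℤ) ∣ D - v)).card ≤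
      (range (2 * B / q + 1)).card := by
    apply Finset.card_le_card_of_injOn (fun D : ℤ => ((D + (B : ℤ)) / (q : ℤ)).toNat)
    · intro D hD
      simp only [Finset.coe_filter, Finset.mem_Icc, Set.mem_ofPred_eq] at hD
      rw [Finset.mem_coe, Finset.mem_range]
      have e1 : (D + B) / (q : ℤ) ≤ (2 * B : ℤ) / q :=
        Int.ediv_le_ediv (by exact_mod_cast hq) (by omega)
      have e2 : ((2 * B : ℤ)) / q = ((2 * B / q : ℕ) : ℤ) := by push_cast; rfl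
      rw [e2] at e1
      obtain ⟨m, hm⟩ : ∃ m : ℕ, m = 2 * B / q := ⟨_, rfl⟩
      rw [← hm] at e1 ⊢
      simp only
      omega
    · intro D hD D' hD' h
      simp only [Finset.coe_filter, Finset.mem_Icc, Set.mem_ofPred_eq] at hD hD'
      have hq0 : (0 : ℤ) < q := by exact_mod_cast hq
      have p1 : 0 ≤ (D + B) / (q : ℤ) := Int.ediv_nonneg (by omega) hq0.le
      have p2 : 0 ≤ (D' + B) / (q : ℤ) := Int.ediv_nonneg (by omega) hq0.le
      have h2 : (D + B) / (q : ℤ) = (D' + B) / (q : ℤ) := by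
        have h3 : ((D + B) / (q : ℤ)).toNat = ((D' + B) / (q : ℤ)).toNat := h
        omega
      have h4 : (D + B) % (q : ℤ) = (D' + B) % (q : ℤ) := by
        rw [Int.emod_eq_emod_iff_emod_sub_eq_zero]
        apply Int.emod_eq_zero_of_dvd
        have h5 : D + B - (D' + B) = (D - v) - (D' - v) := by ring
        rw [h5]
        exact dvd_sub hD.2 hD'.2
      have e1 := Int.mul_ediv_add_emod (D + B) q
      have e2 := Int.mul_ediv_add_emod (D' + B) q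
      rw [h2, h4] at e1
      omega
  rw [Finset.card_range] at h1
  have h2 : (((Icc (-(B : ℤ)) B).filter (fun D => (q : ℤ) ∣ D - v)).card : ℝ) ≤
      ((2 * B / q + 1 : ℕ) : ℝ) := by exact_mod_cast h1
  have h3 : ((2 * B / q : ℕ) : ℝ) ≤ ((2 * B : ℕ) : ℝ) / (q : ℝ) := Nat.cast_div_le
  push_cast at h2 h3
  linarith

theorem prod_card {α β : Type} (s : Finset α) (t : Finset β) (P : α × β → Prop)
    [DecidablePred P] [∀ a, DecidablePred fun b => P (a, b)] :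
    ((s ×ˢ t).filter P).card = ∑ a ∈ s, (t.filter fun b => P (a, b)).card := by
  simp only [Finset.card_filter, Finset.sum_product]

theorem card_A (N : ℕ) : ((Icc (-(2 * (N : ℤ))) (2 * N)).card : ℝ) = 4 * N + 1 := by
  rw [Int.card_Icc]
  have : (2 * (N : ℤ) + 1 - -(2 * (N : ℤ))).toNat = 4 * N + 1 := by omega
  rw [this]
  push_cast
  ring

/-- Fibrewise bound. -/
theorem fib (N : ℕ) (P : ℤ × ℤ → Prop) [DecidablePred P] (c : ℝ)
    (h : ∀ A : ℤ, ∀ [DecidablePred fun D => P (A, D)],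
      (((Icc (-(N : ℤ) ^ 2) ((N : ℤ) ^ 2)).filter fun D => P (A, D)).card : ℝ) ≤ c) :
    (((Bx N).filter P).card : ℝ) ≤ (4 * N + 1) * c := by
  classical
  have e : ((Bx N).filter P).card = ∑ A ∈ Icc (-(2 * (N : ℤ))) (2 * N),
      ((Icc (-(N : ℤ) ^ 2) ((N : ℤ) ^ 2)).filter fun D => P (A, D)).card := prod_card _ _ P
  rw [e]
  push_cast
  calc ∑ A ∈ Icc (-(2 * (N : ℤ))) (2 * N),
        (((Icc (-(N : ℤ) ^ 2) ((N : ℤ) ^ 2)).filter fun D => P (A, D)).card : ℝ)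
      ≤ ∑ _A ∈ Icc (-(2 * (N : ℤ))) (2 * N), c := Finset.sum_le_sum fun A _ => h A
    _ = (4 * N + 1) * c := by rw [Finset.sum_const, nsmul_eq_mul, card_A]

theorem Icc_sq (N : ℕ) : Icc (-(N : ℤ) ^ 2) ((N : ℤ) ^ 2) =
    Icc (-((N ^ 2 : ℕ) : ℤ)) ((N ^ 2 : ℕ) : ℤ) := by
  push_cast
  rfl

open Classical in
theorem card_D (N q : ℕ) (hq : 1 ≤ q) :
    (((Bx N).filter fun z => (q : ℤ) ∣ z.2).card : ℝ) ≤
      (4 * N + 1) * (2 * (N : ℝ) ^ 2 / q + 2) := by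
  apply fib
  intro A _
  rw [Icc_sq]
  have h := cnt_mod (N ^ 2) q hq 0
  simp only [sub_zero] at h
  push_cast at h ⊢
  convert h using 2

open Classical in
theorem card_E (N q : ℕ) (hq : 1 ≤ q) (ho : Odd q) :
    (((Bx N).filter fun z => (q : ℤ) ∣ EE z.1 z.2).card : ℝ) ≤
      (4 * N + 1) * (2 * (N : ℝ) ^ 2 / q + 2) := by
  apply fib
  intro A _
  rw [Icc_sq]
  by_cases he : ∃ D0 : ℤ, (q : ℤ) ∣ EE A D0
  · obtain ⟨D0, hD0⟩ := he
    have h := cnt_mod (N ^ 2) q hq D0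
    push_cast at h ⊢
    refine le_trans ?_ h
    have h2 : ((Icc (-(N : ℤ) ^ 2) ((N : ℤ) ^ 2)).filter fun D => (q : ℤ) ∣ EE A D).card ≤
        ((Icc (-(N : ℤ) ^ 2) ((N : ℤ) ^ 2)).filter fun D => (q : ℤ) ∣ D - D0).card := by
      apply Finset.card_le_card
      intro D hD
      rw [Finset.mem_filter] at hD ⊢
      refine ⟨hD.1, ?_⟩
      have h3 : (q : ℤ) ∣ 64 * (D - D0) := by
        have h4 := dvd_sub hD0 hD.2
        have h5 : EE A D0 - EE A D = 64 * (D - D0) := by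
          unfold EE
          ring
        rwa [h5] at h4
      have h6 : IsCoprime (q : ℤ) 64 := by
        have h7 : Nat.Coprime q 64 := by
          have : Nat.Coprime q (2 ^ 6) := Nat.Coprime.pow_right 6 (Nat.coprime_two_right.2 ho)
          simpa using this
        exact_mod_cast Nat.isCoprime_iff_coprime.2 h7
      exact h6.dvd_of_dvd_mul_left h3
    exact_mod_cast h2
  · push Not at he
    rw [Finset.filter_false_of_mem (fun D _ => he D), Finset.card_empty,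
      Nat.cast_zero]
    positivity

open Classical in
theorem card_AD (N q : ℕ) (hq : 1 ≤ q) :
    (((Bx N).filter fun z => (q : ℤ) ∣ z.1 ∧ (q : ℤ) ∣ z.2).card : ℝ) ≤
      (2 * (2 * (N : ℝ)) / q + 2) * (2 * (N : ℝ) ^ 2 / q + 2) := by
  unfold Bx
  have h1 := Finset.filter_product (s := Icc (-(2 * (N : ℤ))) (2 * N))
    (t := Icc (-(N : ℤ) ^ 2) ((N : ℤ) ^ 2)) (fun a => (q : ℤ) ∣ a) (fun a => (q : ℤ) ∣ a)
  have h2 : ((Icc (-(2 * (N : ℤ))) (2 * N) ×ˢ Icc (-(N : ℤ) ^ 2) ((N : ℤ) ^ 2)).filter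
      fun z => (q : ℤ) ∣ z.1 ∧ (q : ℤ) ∣ z.2).card =
      ((Icc (-(2 * (N : ℤ))) (2 * N)).filter fun a => (q : ℤ) ∣ a).card *
      ((Icc (-(N : ℤ) ^ 2) ((N : ℤ) ^ 2)).filter fun a => (q : ℤ) ∣ a).card := by
    rw [← Finset.card_product, ← h1]
  rw [h2]
  push_cast
  have h3 := cnt_mod (2 * N) q hq 0
  have h4 := cnt_mod (N ^ 2) q hq 0
  simp only [sub_zero] at h3 h4
  push_cast at h3 h4
  exact mul_le_mul h3 h4 (by positivity) (by positivity)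

theorem sum_sq_le (y M : ℕ) (hy : 1 ≤ y) :
    ∑ p ∈ Ioc y M, (((p : ℝ)) ^ 2)⁻¹ ≤ (y : ℝ)⁻¹ := by
  by_cases h : y ≤ M
  · have h1 := sum_Ioc_inv_sq_le_sub (α := ℝ) (k := y) (n := M) (by omega) h
    have h2 : (0 : ℝ) ≤ ((M : ℝ))⁻¹ := by positivity
    linarith
  · rw [Finset.Ioc_eq_empty (by omega), Finset.sum_empty]
    positivity

theorem odd_EE {A D : ℤ} (hA : A % 4 = 1) {p : ℕ} (hp : p.Prime) (h : (p : ℤ) ∣ EE A D) : Odd p := by
  rcases hp.eq_two_or_odd' with rfl | h2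
  · exfalso
    unfold EE at h
    obtain ⟨a, ha⟩ : ∃ a, A = 2 * a + 1 := ⟨A / 2, by omega⟩
    obtain ⟨c, hc⟩ := h
    have h3 : A ^ 2 = 2 * (2 * a ^ 2 + 2 * a) + 1 := by rw [ha]; ring
    push_cast at hc
    omega
  · exact h2

theorem le_of_sq_le {p M : ℕ} {D : ℤ} (hD : D ≠ 0) (h : (p : ℤ) ^ 2 ∣ D) (hb : |D| ≤ (M : ℤ) ^ 2) :
    p ≤ M := by
  have h1 := Int.le_of_dvd (abs_pos.2 hD) ((dvd_abs _ _).2 h)
  have h2 : (p : ℤ) ^ 2 ≤ (M : ℤ) ^ 2 := h1.trans hb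
  have h3 := abs_le_of_sq_le_sq' h2 (Int.natCast_nonneg M)
  have h4 := h3.2
  exact_mod_cast h4

end BAD

open BAD in
theorem t_BAD : S_BAD := by
  classical
  intro ε hε
  obtain ⟨y, hy⟩ := exists_nat_ge (max 1 (136 * 4 / ε))
  have hy1 : 1 ≤ y := by exact_mod_cast (le_max_left _ _).trans hy
  have hyr : (1 : ℝ) ≤ y := by exact_mod_cast hy1
  have hy2 : 136 * (y : ℝ)⁻¹ ≤ ε / 4 := by
    have h1 := (le_max_right (1 : ℝ) (136 * 4 / ε)).trans hy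
    rw [div_le_iff₀ hε] at h1
    rw [← div_eq_mul_inv, div_le_iff₀ (by linarith)]
    linarith
  obtain ⟨K, hK⟩ := exists_nat_ge (max 1 (20 * 4 * y / ε))
  have hK1 : 1 ≤ K := by exact_mod_cast (le_max_left _ _).trans hK
  have hK2 : 20 * (y : ℝ) / 2 ^ K ≤ ε / 4 := by
    have h1 := (le_max_right (1 : ℝ) (20 * 4 * y / ε)).trans hK
    have h2 : (K : ℝ) ≤ 2 ^ K := by exact_mod_cast (Nat.lt_two_pow_self (n := K)).le
    have h3 := h1.trans h2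
    rw [div_le_iff₀ hε] at h3
    rw [div_le_iff₀ (by positivity)]
    linarith
  obtain ⟨N0, hN0⟩ := exists_nat_ge (max 1 ((216 + 20 * y) * 2 / ε))
  refine ⟨y, K, hK1, N0, fun N hN => ?_⟩
  have hNr : (N0 : ℝ) ≤ N := by exact_mod_cast hN
  have hN1 : (1 : ℝ) ≤ N := ((le_max_left _ _).trans hN0).trans hNr
  have hN1' : 1 ≤ N := by exact_mod_cast hN1
  have hN2 : (216 + 20 * (y : ℝ)) ≤ ε / 2 * N := by
    have h1 := ((le_max_right (1 : ℝ) ((216 + 20 * y) * 2 / ε)).trans hN0).trans hNr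
    rw [div_le_iff₀ hε] at h1
    linarith
  -- the covering
  obtain ⟨Sa, hSa⟩ : ∃ Sa : ℕ → Finset (ℤ × ℤ), ∀ p, Sa p =
    (Bx N).filter fun z => ((p ^ 2 : ℕ) : ℤ) ∣ z.2 := ⟨_, fun _ => rfl⟩
  obtain ⟨Sb, hSb⟩ : ∃ Sb : ℕ → Finset (ℤ × ℤ), ∀ p, Sb p = if Odd p then
    (Bx N).filter fun z => ((p ^ 2 : ℕ) : ℤ) ∣ EE z.1 z.2 else ∅ := ⟨_, fun _ => rfl⟩
  obtain ⟨Sc, hSc⟩ : ∃ Sc : ℕ → Finset (ℤ × ℤ), ∀ p, Sc p =
    (Bx N).filter fun z => (p : ℤ) ∣ z.1 ∧ (p : ℤ) ∣ z.2 := ⟨_, fun _ => rfl⟩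
  obtain ⟨Sd, hSd⟩ : ∃ Sd : ℕ → Finset (ℤ × ℤ), ∀ p, Sd p =
    (Bx N).filter fun z => ((p ^ K : ℕ) : ℤ) ∣ z.2 := ⟨_, fun _ => rfl⟩
  obtain ⟨Se, hSe⟩ : ∃ Se : ℕ → Finset (ℤ × ℤ), ∀ p, Se p = if Odd p then
    (Bx N).filter fun z => ((p ^ K : ℕ) : ℤ) ∣ EE z.1 z.2 else ∅ := ⟨_, fun _ => rfl⟩
  have hcov : ((Bx N).filter fun z => z.1 % 4 = 1 ∧ z.2 ≠ 0 ∧ EE z.1 z.2 ≠ 0 ∧
      Bad y K z.1 z.2) ⊆ ((Ioc y (9 * N)).biUnion fun p => (Sa p ∪ Sb p) ∪ Sc p) ∪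
      ((Icc 2 y).biUnion fun p => Sd p ∪ Se p) := by
    rintro ⟨A, D⟩ hz
    rw [Finset.mem_filter] at hz
    obtain ⟨hB, hA4, hD0, hE0, p, hp, hbad⟩ := hz
    simp only at hA4 hD0 hE0 hbad
    have hB' := hB
    unfold Bx at hB'
    rw [Finset.mem_product, Finset.mem_Icc, Finset.mem_Icc] at hB'
    simp only at hB'
    have hDa : |D| ≤ (N : ℤ) ^ 2 := abs_le.2 ⟨by linarith [hB'.2.1], hB'.2.2⟩
    have hAa : |A| ≤ 2 * (N : ℤ) := abs_le.2 ⟨by linarith [hB'.1.1], hB'.1.2⟩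
    rw [Finset.mem_union, Finset.mem_biUnion, Finset.mem_biUnion]
    rcases hbad with ⟨hyp, h | h | h⟩ | ⟨hyp, h | h⟩
    · left
      refine ⟨p, ?_, ?_⟩
      · have := le_of_sq_le hD0 h hDa
        rw [Finset.mem_Ioc]
        omega
      · rw [Finset.mem_union, Finset.mem_union]
        left; left
        rw [hSa, Finset.mem_filter]
        refine ⟨hB, ?_⟩
        push_cast
        exact h
    · left
      have hpo : Odd p := odd_EE hA4 hp ((dvd_pow_self _ (by norm_num)).trans h)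
      refine ⟨p, ?_, ?_⟩
      · have hEa : |EE A D| ≤ ((9 * N : ℕ) : ℤ) ^ 2 := by
          unfold EE
          have e1 : |A ^ 2 - 64 * D| ≤ |A| ^ 2 + 64 * |D| := by
            have := abs_sub (A ^ 2) (64 * D)
            rw [abs_pow, abs_mul] at this
            simpa using this
          have e2 : |A| ^ 2 ≤ (2 * (N : ℤ)) ^ 2 := pow_le_pow_left₀ (abs_nonneg _) hAa 2
          push_cast
          nlinarith
        have := le_of_sq_le hE0 h hEa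
        rw [Finset.mem_Ioc]
        omega
      · rw [Finset.mem_union, Finset.mem_union]
        left; right
        rw [hSb, if_pos hpo, Finset.mem_filter]
        refine ⟨hB, ?_⟩
        push_cast
        exact h
    · left
      refine ⟨p, ?_, ?_⟩
      · have hA0 : A ≠ 0 := by
          intro h0
          rw [h0] at hA4
          omega
        have h1 := Int.le_of_dvd (abs_pos.2 hA0) ((dvd_abs _ _).2 h.1)
        rw [Finset.mem_Ioc]
        omega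
      · rw [Finset.mem_union]
        right
        rw [hSc, Finset.mem_filter]
        exact ⟨hB, h⟩
    · right
      refine ⟨p, ?_, ?_⟩
      · rw [Finset.mem_Icc]
        exact ⟨hp.two_le, hyp⟩
      · rw [Finset.mem_union]
        left
        rw [hSd, Finset.mem_filter]
        refine ⟨hB, ?_⟩
        push_cast
        exact h
    · right
      have hpo : Odd p := odd_EE hA4 hp ((dvd_pow_self _ (by omega)).trans h)
      refine ⟨p, ?_, ?_⟩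
      · rw [Finset.mem_Icc]
        exact ⟨hp.two_le, hyp⟩
      · rw [Finset.mem_union]
        right
        rw [hSe, if_pos hpo, Finset.mem_filter]
        refine ⟨hB, ?_⟩
        push_cast
        exact h
  -- bounds for the pieces
  have hN0' : (0 : ℝ) ≤ N := by linarith
  have b1 : ∀ p ∈ Ioc y (9 * N), ((((Sa p ∪ Sb p) ∪ Sc p).card : ℕ) : ℝ) ≤
      28 * (N : ℝ) ^ 3 * (((p : ℝ)) ^ 2)⁻¹ + (24 * N + 12 * (N : ℝ) ^ 2 * (y : ℝ)⁻¹) := by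
    intro p hp
    rw [Finset.mem_Ioc] at hp
    have hp1 : 1 ≤ p := by omega
    have hpr : (1 : ℝ) ≤ p := by exact_mod_cast hp1
    have hyp : (y : ℝ) ≤ p := by exact_mod_cast hp.1.le
    have c1 : ((Sa p).card : ℝ) ≤ (4 * N + 1) * (2 * (N : ℝ) ^ 2 / (p : ℝ) ^ 2 + 2) := by
      rw [hSa]
      have := card_D N (p ^ 2) (Nat.one_le_pow _ _ hp1)
      push_cast at this ⊢
      exact this
    have c2 : ((Sb p).card : ℝ) ≤ (4 * N + 1) * (2 * (N : ℝ) ^ 2 / (p : ℝ) ^ 2 + 2) := by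
      rw [hSb]
      split_ifs with ho
      · have := card_E N (p ^ 2) (Nat.one_le_pow _ _ hp1) ho.pow
        push_cast at this ⊢
        exact this
      · rw [Finset.card_empty, Nat.cast_zero]
        positivity
    have c3 : ((Sc p).card : ℝ) ≤ (2 * (2 * (N : ℝ)) / p + 2) * (2 * (N : ℝ) ^ 2 / p + 2) := by
      rw [hSc]
      exact card_AD N p hp1
    have c4 : ((((Sa p ∪ Sb p) ∪ Sc p).card : ℕ) : ℝ) ≤
        (Sa p).card + (Sb p).card + (Sc p).card := by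
      have d1 := Finset.card_union_le (Sa p ∪ Sb p) (Sc p)
      have d2 := Finset.card_union_le (Sa p) (Sb p)
      have d3 : ((Sa p ∪ Sb p) ∪ Sc p).card ≤ (Sa p).card + (Sb p).card + (Sc p).card := by omega
      exact_mod_cast d3
    have q1 : ((p : ℝ))⁻¹ ≤ (y : ℝ)⁻¹ := inv_anti₀ (by linarith) hyp
    have q2 : (0 : ℝ) ≤ ((p : ℝ) ^ 2)⁻¹ := by positivity
    have q3 : (0 : ℝ) ≤ (p : ℝ)⁻¹ := by positivity
    have e1 : (4 * (N : ℝ) + 1) * (2 * (N : ℝ) ^ 2 / (p : ℝ) ^ 2 + 2) ≤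
        10 * (N : ℝ) ^ 3 * ((p : ℝ) ^ 2)⁻¹ + 10 * N := by
      rw [div_eq_mul_inv]
      have : (4 * (N : ℝ) + 1) * (2 * (N : ℝ) ^ 2 * ((p : ℝ) ^ 2)⁻¹ + 2) ≤
          (5 * (N : ℝ)) * (2 * (N : ℝ) ^ 2 * ((p : ℝ) ^ 2)⁻¹ + 2) :=
        mul_le_mul_of_nonneg_right (by linarith) (by positivity)
      refine this.trans (le_of_eq ?_)
      ring
    have e2 : (2 * (2 * (N : ℝ)) / p + 2) * (2 * (N : ℝ) ^ 2 / p + 2) ≤
        8 * (N : ℝ) ^ 3 * ((p : ℝ) ^ 2)⁻¹ + 12 * (N : ℝ) ^ 2 * (y : ℝ)⁻¹ + 4 * N := by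
      have f1 : (2 * (2 * (N : ℝ)) / p + 2) * (2 * (N : ℝ) ^ 2 / p + 2) =
          8 * (N : ℝ) ^ 3 * ((p : ℝ) ^ 2)⁻¹ + (8 * N + 4 * (N : ℝ) ^ 2) * (p : ℝ)⁻¹ + 4 := by
        field_simp
        ring
      have f2 : (8 * (N : ℝ) + 4 * (N : ℝ) ^ 2) * (p : ℝ)⁻¹ ≤ (12 * (N : ℝ) ^ 2) * (y : ℝ)⁻¹ := by
        apply mul_le_mul _ q1 q3 (by positivity)
        nlinarith
      rw [f1]
      linarith
    linarith
  have b2 : ∀ p ∈ Icc 2 y, (((Sd p ∪ Se p).card : ℕ) : ℝ) ≤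
      20 * (N : ℝ) ^ 3 / 2 ^ K + 20 * N := by
    intro p hp
    rw [Finset.mem_Icc] at hp
    have hp1 : 1 ≤ p := by omega
    have hpr : (2 : ℝ) ≤ p := by exact_mod_cast hp.1
    have hpK : (2 : ℝ) ^ K ≤ (p : ℝ) ^ K := pow_le_pow_left₀ (by norm_num) hpr K
    have hdiv : 2 * (N : ℝ) ^ 2 / (p : ℝ) ^ K ≤ 2 * (N : ℝ) ^ 2 / 2 ^ K :=
      div_le_div_of_nonneg_left (by positivity) (by positivity) hpK
    have e0 : (4 * (N : ℝ) + 1) * (2 * (N : ℝ) ^ 2 / (p : ℝ) ^ K + 2) ≤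
        10 * (N : ℝ) ^ 3 / 2 ^ K + 10 * N := by
      calc (4 * (N : ℝ) + 1) * (2 * (N : ℝ) ^ 2 / (p : ℝ) ^ K + 2)
          ≤ (5 * (N : ℝ)) * (2 * (N : ℝ) ^ 2 / 2 ^ K + 2) :=
            mul_le_mul (by linarith) (by linarith) (by positivity) (by positivity)
        _ = 10 * (N : ℝ) ^ 3 / 2 ^ K + 10 * N := by ring
    have c1 : ((Sd p).card : ℝ) ≤ (4 * N + 1) * (2 * (N : ℝ) ^ 2 / (p : ℝ) ^ K + 2) := by
      rw [hSd]
      have := card_D N (p ^ K) (Nat.one_le_pow _ _ hp1)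
      push_cast at this ⊢
      exact this
    have c2 : ((Se p).card : ℝ) ≤ (4 * N + 1) * (2 * (N : ℝ) ^ 2 / (p : ℝ) ^ K + 2) := by
      rw [hSe]
      split_ifs with ho
      · have := card_E N (p ^ K) (Nat.one_le_pow _ _ hp1) ho.pow
        push_cast at this ⊢
        exact this
      · rw [Finset.card_empty, Nat.cast_zero]
        positivity
    have c4 : (((Sd p ∪ Se p).card : ℕ) : ℝ) ≤ (Sd p).card + (Se p).card := by
      exact_mod_cast Finset.card_union_le (Sd p) (Se p)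
    have e5 : 20 * (N : ℝ) ^ 3 / 2 ^ K + 20 * N = 2 * (10 * (N : ℝ) ^ 3 / 2 ^ K + 10 * N) := by
      ring
    rw [e5]
    linarith
  have t1 : ((((Bx N).filter fun z => z.1 % 4 = 1 ∧ z.2 ≠ 0 ∧ EE z.1 z.2 ≠ 0 ∧
      Bad y K z.1 z.2).card : ℕ) : ℝ) ≤
      ∑ p ∈ Ioc y (9 * N), ((((Sa p ∪ Sb p) ∪ Sc p).card : ℕ) : ℝ) +
      ∑ p ∈ Icc 2 y, (((Sd p ∪ Se p).card : ℕ) : ℝ) := by
    have d1 := Finset.card_le_card hcov
    have d2 := d1.trans (Finset.card_union_le _ _)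
    have d3 := Finset.card_biUnion_le (s := Ioc y (9 * N)) (t := fun p => (Sa p ∪ Sb p) ∪ Sc p)
    have d4 := Finset.card_biUnion_le (s := Icc 2 y) (t := fun p => Sd p ∪ Se p)
    have d5 := d2.trans (Nat.add_le_add d3 d4)
    exact_mod_cast d5
  have t2 : ∑ p ∈ Ioc y (9 * N), ((((Sa p ∪ Sb p) ∪ Sc p).card : ℕ) : ℝ) ≤
      136 * (N : ℝ) ^ 3 * (y : ℝ)⁻¹ + 216 * (N : ℝ) ^ 2 := by
    refine (Finset.sum_le_sum b1).trans ?_
    rw [Finset.sum_add_distrib, ← Finset.mul_sum, Finset.sum_const, nsmul_eq_mul, Nat.card_Ioc]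
    have s1 := sum_sq_le y (9 * N) hy1
    have s2 : ((9 * N - y : ℕ) : ℝ) ≤ 9 * N := by
      have : 9 * N - y ≤ 9 * N := Nat.sub_le _ _
      exact_mod_cast this
    have s3 : 28 * (N : ℝ) ^ 3 * ∑ p ∈ Ioc y (9 * N), (((p : ℝ)) ^ 2)⁻¹ ≤
        28 * (N : ℝ) ^ 3 * (y : ℝ)⁻¹ := mul_le_mul_of_nonneg_left s1 (by positivity)
    have s4 : ((9 * N - y : ℕ) : ℝ) * (24 * N + 12 * (N : ℝ) ^ 2 * (y : ℝ)⁻¹) ≤
        9 * N * (24 * N + 12 * (N : ℝ) ^ 2 * (y : ℝ)⁻¹) :=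
      mul_le_mul_of_nonneg_right s2 (by positivity)
    have s5 : 9 * (N : ℝ) * (24 * N + 12 * (N : ℝ) ^ 2 * (y : ℝ)⁻¹) =
        108 * (N : ℝ) ^ 3 * (y : ℝ)⁻¹ + 216 * (N : ℝ) ^ 2 := by ring
    rw [s5] at s4
    linarith
  have t3 : ∑ p ∈ Icc 2 y, (((Sd p ∪ Se p).card : ℕ) : ℝ) ≤
      y * (20 * (N : ℝ) ^ 3 / 2 ^ K + 20 * N) := by
    refine (Finset.sum_le_sum b2).trans ?_
    rw [Finset.sum_const, nsmul_eq_mul, Nat.card_Icc]
    apply mul_le_mul_of_nonneg_right _ (by positivity)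
    have : y + 1 - 2 ≤ y := by omega
    exact_mod_cast this
  have u1 : 136 * (N : ℝ) ^ 3 * (y : ℝ)⁻¹ ≤ ε / 4 * (N : ℝ) ^ 3 := by
    have := mul_le_mul_of_nonneg_right hy2 (by positivity : (0 : ℝ) ≤ (N : ℝ) ^ 3)
    linarith
  have u2 : (y : ℝ) * (20 * (N : ℝ) ^ 3 / 2 ^ K + 20 * N) ≤
      ε / 4 * (N : ℝ) ^ 3 + 20 * y * (N : ℝ) ^ 2 := by
    have h1 := mul_le_mul_of_nonneg_right hK2 (by positivity : (0 : ℝ) ≤ (N : ℝ) ^ 3)
    have h2 : (y : ℝ) * (20 * (N : ℝ) ^ 3 / 2 ^ K + 20 * N) =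
        20 * (y : ℝ) / 2 ^ K * (N : ℝ) ^ 3 + 20 * y * N := by ring
    have h3 : (N : ℝ) ≤ (N : ℝ) ^ 2 := by nlinarith
    have h4 : 20 * (y : ℝ) * N ≤ 20 * y * (N : ℝ) ^ 2 :=
      mul_le_mul_of_nonneg_left h3 (by positivity)
    rw [h2]
    linarith
  have u3 : (216 + 20 * (y : ℝ)) * (N : ℝ) ^ 2 ≤ ε / 2 * (N : ℝ) ^ 3 := by
    have := mul_le_mul_of_nonneg_right hN2 (by positivity : (0 : ℝ) ≤ (N : ℝ) ^ 2)
    calc (216 + 20 * (y : ℝ)) * (N : ℝ) ^ 2 ≤ ε / 2 * N * (N : ℝ) ^ 2 := this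
      _ = ε / 2 * (N : ℝ) ^ 3 := by ring
  linarith

end Pool.Agent.K1H81.TT
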