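import Pool.Agent.K1H81.TT.Stm

/-!
Project TT, piece COR2: correlation sums below a function of bounded variation.
-/

set_option autoImplicit false

namespace Pool.Agent.K1H81.TT

open Finset

namespace COR2

theorem split (F : ℤ → ℝ) (a c b : ℤ) (h1 : a ≤ c) (h2 : c ≤ b) :
    ∑ x ∈ Ico a b, F x = ∑ x ∈ Ico a c, F x + ∑ x ∈ Ico c b, F x := by
  rw [← sum_union (Ico_disjoint_Ico_consecutive a c b), Ico_union_Ico_eq_Ico h1 h2]

theorem splitc (F : ℤ → ℝ) (a c b : ℤ) (h1 : a ≤ c) (h2 : c ≤ b) :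
    ∑ x ∈ Ioc a b, F x = ∑ x ∈ Ioc a c, F x + ∑ x ∈ Ioc c b, F x := by
  rw [← sum_union (Ioc_disjoint_Ioc_of_le le_rfl), Ioc_union_Ioc_eq_Ioc h1 h2]

theorem inner (F : ℤ → ℝ) (hF : ∀ x, |F x| ≤ 1) (s u v : ℤ) (hu : s ≤ u) (huv : u ≤ v) :
    |∑ x ∈ Ioc s v, F x - ∑ x ∈ Ioc s u, F x| ≤ ((v - u : ℤ) : ℝ) := by
  rw [splitc F s u v hu huv, add_sub_cancel_left]
  calc |∑ x ∈ Ioc u v, F x| ≤ ∑ x ∈ Ioc u v, |F x| := abs_sum_le_sum_abs _ _
    _ ≤ ∑ x ∈ Ioc u v, (1 : ℝ) := sum_le_sum fun x _ => hF x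
    _ = ((v - u : ℤ) : ℝ) := by
        rw [sum_const, Int.card_Ioc, nsmul_eq_mul, mul_one]
        have : ((v - u).toNat : ℤ) = v - u := Int.toNat_of_nonneg (by omega)
        exact_mod_cast congrArg (Int.cast : ℤ → ℝ) this

theorem inner' (F : ℤ → ℝ) (hF : ∀ x, |F x| ≤ 1) (s u v : ℤ) (hu : s ≤ u) (hv : s ≤ v) :
    |∑ x ∈ Ioc s v, F x - ∑ x ∈ Ioc s u, F x| ≤ |((v - u : ℤ) : ℝ)| := by
  rcases le_total u v with h | h
  · refine (inner F hF s u v hu h).trans (le_abs_self _)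
  · rw [abs_sub_comm]
    refine (inner F hF s v u hv h).trans ?_
    rw [← abs_neg]
    refine le_trans (le_of_eq ?_) (le_abs_self _)
    push_cast
    ring

theorem tel (U : ℤ → ℤ) (a : ℤ) (A : ℤ) (hA : a ≤ A) :
    |((U A - U a : ℤ) : ℝ)| ≤ ∑ x ∈ Ico a A, |((U (x + 1) - U x : ℤ) : ℝ)| := by
  induction A, hA using Int.le_induction with
  | base => simp
  | succ A hA ih =>
    rw [split _ a A (A + 1) hA (by omega)]
    have h1 : Ico A (A + 1) = {A} := by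
      ext x
      simp only [mem_Ico, mem_singleton]
      omega
    rw [h1, sum_singleton]
    calc |((U (A + 1) - U a : ℤ) : ℝ)|
        = |((U A - U a : ℤ) : ℝ) + ((U (A + 1) - U A : ℤ) : ℝ)| := by
          congr 1; push_cast; ring
      _ ≤ |((U A - U a : ℤ) : ℝ)| + |((U (A + 1) - U A : ℤ) : ℝ)| := abs_add_le _ _
      _ ≤ _ := by gcongr

/-- one block -/
theorem one (f : ℤ → ℤ → ℝ) (hf : ∀ A D, |f A D| ≤ 1) (lo : ℤ) (E : ℝ) (B : ℕ) (U : ℤ → ℤ)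
    (hU : ∀ A, lo ≤ U A) (a b : ℤ) (hab : b ≤ a + B)
    (hE : |∑ A ∈ Ico a b, ∑ D ∈ Ioc lo (U a), f A D| ≤ E) :
    |∑ A ∈ Ico a b, ∑ D ∈ Ioc lo (U A), f A D| ≤
      E + B * ∑ A ∈ Ico a b, |((U (A + 1) - U A : ℤ) : ℝ)| := by
  have h1 : |∑ A ∈ Ico a b, ∑ D ∈ Ioc lo (U A), f A D -
      ∑ A ∈ Ico a b, ∑ D ∈ Ioc lo (U a), f A D| ≤
      B * ∑ A ∈ Ico a b, |((U (A + 1) - U A : ℤ) : ℝ)| := by
    rw [← sum_sub_distrib]
    calc |∑ A ∈ Ico a b, (∑ D ∈ Ioc lo (U A), f A D - ∑ D ∈ Ioc lo (U a), f A D)|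
        ≤ ∑ A ∈ Ico a b, |∑ D ∈ Ioc lo (U A), f A D - ∑ D ∈ Ioc lo (U a), f A D| :=
          abs_sum_le_sum_abs _ _
      _ ≤ ∑ A ∈ Ico a b, ∑ x ∈ Ico a b, |((U (x + 1) - U x : ℤ) : ℝ)| := by
          refine sum_le_sum fun A hA => ?_
          simp only [mem_Ico] at hA
          refine (inner' (f A) (hf A) lo (U a) (U A) (hU a) (hU A)).trans ?_
          refine (tel U a A hA.1).trans ?_
          refine sum_le_sum_of_subset_of_nonneg ?_ (fun _ _ _ => abs_nonneg _)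
          intro x hx
          simp only [mem_Ico] at hx ⊢
          omega
      _ ≤ B * ∑ A ∈ Ico a b, |((U (A + 1) - U A : ℤ) : ℝ)| := by
          rw [sum_const, Int.card_Ico, nsmul_eq_mul]
          have h2 : (((b - a).toNat : ℕ) : ℝ) ≤ B := by
            have : (b - a).toNat ≤ B := by omega
            exact_mod_cast this
          have h3 : 0 ≤ ∑ A ∈ Ico a b, |((U (A + 1) - U A : ℤ) : ℝ)| :=
            sum_nonneg fun _ _ => abs_nonneg _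
          gcongr
  have h2 := abs_sub_abs_le_abs_sub (∑ A ∈ Ico a b, ∑ D ∈ Ioc lo (U A), f A D)
    (∑ A ∈ Ico a b, ∑ D ∈ Ioc lo (U a), f A D)
  linarith

theorem blocks (f : ℤ → ℤ → ℝ) (hf : ∀ A D, |f A D| ≤ 1) (lo hi L R : ℤ) (E : ℝ) (hE0 : 0 ≤ E)
    (B : ℕ) (U : ℤ → ℤ) (hU : ∀ A, lo ≤ U A ∧ U A ≤ hi)
    (hE : ∀ a b t : ℤ, L ≤ a → b ≤ R → t ≤ hi →
      |∑ A ∈ Ico a b, ∑ D ∈ Ioc lo t, f A D| ≤ E) (k : ℕ) :
    ∀ a b : ℤ, L ≤ a → b ≤ R → b ≤ a + k * B →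
      |∑ A ∈ Ico a b, ∑ D ∈ Ioc lo (U A), f A D| ≤
        k * E + B * ∑ A ∈ Ico a b, |((U (A + 1) - U A : ℤ) : ℝ)| := by
  induction k with
  | zero =>
    intro a b _ _ h
    have h1 : Ico a b = ∅ := Ico_eq_empty_of_le (by push_cast at h; linarith)
    rw [h1]
    simp
  | succ k ih =>
    intro a b hLa hbR hb
    by_cases hc : b ≤ a + B
    · refine (one f hf lo E B U (fun A => (hU A).1) a b hc (hE a b (U a) hLa hbR (hU a).2)).trans ?_
      have : E ≤ ((k + 1 : ℕ) : ℝ) * E := by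
        push_cast
        nlinarith [(Nat.cast_nonneg k : (0 : ℝ) ≤ k)]
      linarith
    · push Not at hc
      have hB0 : (0 : ℤ) ≤ B := Int.natCast_nonneg B
      rw [split (fun A => ∑ D ∈ Ioc lo (U A), f A D) a (a + B) b (by omega) hc.le,
        split (fun A => |((U (A + 1) - U A : ℤ) : ℝ)|) a (a + B) b (by omega) hc.le]
      have h1 := one f hf lo E B U (fun A => (hU A).1) a (a + B) le_rfl
        (hE a (a + B) (U a) hLa (by omega) (hU a).2)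
      have h2 := ih (a + B) b (by omega) hbR (by push_cast at hb ⊢; linarith)
      refine (abs_add_le _ _).trans ((add_le_add h1 h2).trans (le_of_eq ?_))
      push_cast
      ring

theorem cor_le (M g h : ℕ) (α δ A D : ℤ) : |((cor M g h α δ A D : ℤ) : ℝ)| ≤ 1 := by
  unfold cor
  split_ifs
  · have h1 : ∀ n : ℕ, |((ArithmeticFunction.moebius n : ℤ) : ℝ)| ≤ 1 := by
      intro n
      have := ArithmeticFunction.abs_moebius_le_one (n := n)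
      exact_mod_cast this
    push_cast
    rw [abs_mul]
    have h2 := h1 (D.natAbs / g)
    have h3 := h1 ((EE A D).natAbs / h)
    calc _ ≤ (1 : ℝ) * 1 := by gcongr
      _ = 1 := one_mul 1
  · simp

end COR2

open COR2 in
theorem t_COR2 (h1 : S_COR1) : S_COR2 := by
  intro M g h hM hg hh hgM hhM α δ hgδ hhE V ε hV hε
  obtain ⟨k, hk⟩ := exists_nat_ge (16 * V / ε + 1)
  have hk0 : (0 : ℝ) < k := by
    have : 0 < 16 * V / ε + 1 := by positivity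
    linarith
  have hkN : 0 < k := by exact_mod_cast hk0
  obtain ⟨N1, hN1⟩ := h1 M g h hM hg hh hgM hhM α δ hgδ hhE (ε / (2 * k)) (by positivity)
  obtain ⟨N2, hN2⟩ := exists_nat_ge (4 * V / ε)
  refine ⟨max N1 N2, fun N hN a b ha hb U hU hvar => ?_⟩
  have hNN1 : N1 ≤ N := (le_max_left _ _).trans hN
  have hNN2 : (4 * V / ε : ℝ) ≤ N := by
    refine hN2.trans ?_
    exact_mod_cast (le_max_right _ _).trans hN
  set B : ℕ := 4 * N / k + 1 with hB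
  have hBle : (B : ℝ) ≤ 4 * N / k + 1 := by
    rw [hB]
    push_cast
    gcongr
    calc ((4 * N / k : ℕ) : ℝ) ≤ ((4 * N : ℕ) : ℝ) / k := Nat.cast_div_le
      _ = 4 * N / k := by push_cast; ring
  have hkB : 4 * N ≤ k * B := by
    have := Nat.lt_mul_div_succ (4 * N) hkN
    rw [hB]
    exact this.le
  have hcast : ∀ (s : Finset ℤ) (T : ℤ → Finset ℤ),
      ((∑ A ∈ s, ∑ D ∈ T A, cor M g h α δ A D : ℤ) : ℝ) =
      ∑ A ∈ s, ∑ D ∈ T A, ((cor M g h α δ A D : ℤ) : ℝ) := by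
    intro s T
    push_cast
    rfl
  have h2 := blocks (fun A D => ((cor M g h α δ A D : ℤ) : ℝ)) (cor_le M g h α δ)
    (-(N : ℤ) ^ 2) ((N : ℤ) ^ 2) (-(2 * (N : ℤ))) (2 * N) (ε / (2 * k) * (N : ℝ) ^ 3)
    (by positivity) B U hU (fun a' b' t ha' hb' ht => by
      have := hN1 N hNN1 a' b' t ha' hb' ht
      rw [hcast] at this
      exact this) k a b ha hb (by
      have : (4 * N : ℤ) ≤ k * B := by exact_mod_cast hkB
      linarith)
  rw [hcast]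
  refine h2.trans ?_
  have h3 : ∑ A ∈ Ico a b, |((U (A + 1) - U A : ℤ) : ℝ)| ≤ V * (N : ℝ) ^ 2 := by
    refine le_trans (sum_le_sum_of_subset_of_nonneg ?_ (fun _ _ _ => abs_nonneg _)) hvar
    intro x hx
    simp only [mem_Ico] at hx ⊢
    omega
  have h4 : (k : ℝ) * (ε / (2 * k) * (N : ℝ) ^ 3) = ε / 2 * (N : ℝ) ^ 3 := by
    field_simp
  rw [h4]
  have h5 : (B : ℝ) * ∑ A ∈ Ico a b, |((U (A + 1) - U A : ℤ) : ℝ)| ≤
      (4 * N / k + 1) * (V * (N : ℝ) ^ 2) := by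
    have : 0 ≤ ∑ A ∈ Ico a b, |((U (A + 1) - U A : ℤ) : ℝ)| := sum_nonneg fun _ _ => abs_nonneg _
    gcongr
  have h6 : 4 * V / k ≤ ε / 4 := by
    rw [div_le_div_iff₀ hk0 (by norm_num)]
    have : 16 * V / ε ≤ k := by linarith
    rw [div_le_iff₀ hε] at this
    linarith
  have h7 : V ≤ ε / 4 * N := by
    rw [div_le_iff₀ hε] at hNN2
    linarith
  have hN0 : (0 : ℝ) ≤ N := Nat.cast_nonneg N
  calc ε / 2 * (N : ℝ) ^ 3 + (B : ℝ) * ∑ A ∈ Ico a b, |((U (A + 1) - U A : ℤ) : ℝ)|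
      ≤ ε / 2 * (N : ℝ) ^ 3 + (4 * N / k + 1) * (V * (N : ℝ) ^ 2) := by linarith
    _ = ε / 2 * (N : ℝ) ^ 3 + (4 * V / k) * (N : ℝ) ^ 3 + V * (N : ℝ) ^ 2 := by ring
    _ ≤ ε / 2 * (N : ℝ) ^ 3 + (ε / 4) * (N : ℝ) ^ 3 + (ε / 4 * N) * (N : ℝ) ^ 2 := by gcongr
    _ = ε * (N : ℝ) ^ 3 := by ring

end Pool.Agent.K1H81.TT
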