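import Pool.Agent.K1H81.TT.Stm

/-!
# Piece HGT of project TT: the naive height of a semistable curve (helper68, after `RN.Hgt`)
-/

set_option autoImplicit false

namespace Pool.Agent.K1H81.TT

namespace HGT

/-- the explicit change of variables -/
lemma short_exists (W : WeierstrassCurve ℤ) (t : ℚ) (ht : t ≠ 0) (A B : ℤ)
    (hA : (A : ℚ) * 48 = -(t ^ 4 * W.c₄)) (hB : (B : ℚ) * 864 = -(t ^ 6 * W.c₆)) :
    ∃ C : WeierstrassCurve.VariableChange ℚ,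
      C • (W.map (Int.castRingHom ℚ)) = (⟨0, 0, 0, (A : ℚ), (B : ℚ)⟩ : WeierstrassCurve ℚ) := by
  have hc4 : ((W.c₄ : ℤ) : ℚ) = ((W.a₁ : ℚ) ^ 2 + 4 * W.a₂) ^ 2 - 24 * (2 * W.a₄ + W.a₁ * W.a₃) := by
    unfold WeierstrassCurve.c₄ WeierstrassCurve.b₂ WeierstrassCurve.b₄
    push_cast; ring
  have hc6 : ((W.c₆ : ℤ) : ℚ) = -((W.a₁ : ℚ) ^ 2 + 4 * W.a₂) ^ 3 +
      36 * ((W.a₁ : ℚ) ^ 2 + 4 * W.a₂) * (2 * W.a₄ + W.a₁ * W.a₃) - 216 * (W.a₃ ^ 2 + 4 * W.a₆) := by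
    unfold WeierstrassCurve.c₆ WeierstrassCurve.b₂ WeierstrassCurve.b₄ WeierstrassCurve.b₆
    push_cast; ring
  have hA' : (A : ℚ) = -(t ^ 4 * W.c₄) / 48 := by linarith
  have hB' : (B : ℚ) = -(t ^ 6 * W.c₆) / 864 := by linarith
  refine ⟨⟨(Units.mk0 t ht)⁻¹, -((W.a₁ : ℚ) ^ 2 + 4 * W.a₂) / 12, -(W.a₁ : ℚ) / 2,
    -(W.a₃ : ℚ) / 2 + (W.a₁ : ℚ) * ((W.a₁ : ℚ) ^ 2 + 4 * W.a₂) / 24⟩, ?_⟩
  rw [hA', hB', hc4, hc6]
  ext
  · rw [WeierstrassCurve.variableChange_a₁]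
    simp only [inv_inv, Units.val_mk0, WeierstrassCurve.map_a₁, Int.coe_castRingHom]
    ring
  · rw [WeierstrassCurve.variableChange_a₂]
    simp only [inv_inv, Units.val_mk0, WeierstrassCurve.map_a₁, WeierstrassCurve.map_a₂,
      Int.coe_castRingHom]
    ring
  · rw [WeierstrassCurve.variableChange_a₃]
    simp only [inv_inv, Units.val_mk0, WeierstrassCurve.map_a₁, WeierstrassCurve.map_a₃,
      Int.coe_castRingHom]
    ring
  · rw [WeierstrassCurve.variableChange_a₄]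
    simp only [inv_inv, Units.val_mk0, WeierstrassCurve.map_a₁, WeierstrassCurve.map_a₂,
      WeierstrassCurve.map_a₃, WeierstrassCurve.map_a₄, Int.coe_castRingHom]
    ring
  · rw [WeierstrassCurve.variableChange_a₆]
    simp only [inv_inv, Units.val_mk0, WeierstrassCurve.map_a₁, WeierstrassCurve.map_a₂,
      WeierstrassCurve.map_a₃, WeierstrassCurve.map_a₄, WeierstrassCurve.map_a₆, Int.coe_castRingHom]
    ring

/-- the invariants of a short equation of the curve -/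
lemma short_inv {W : WeierstrassCurve ℤ} {A B : ℤ} {C : WeierstrassCurve.VariableChange ℚ}
    (h : C • (W.map (Int.castRingHom ℚ)) = (⟨0, 0, 0, (A : ℚ), (B : ℚ)⟩ : WeierstrassCurve ℚ)) :
    ∃ t : ℚ, t ≠ 0 ∧ (A : ℚ) * 48 = -(t ^ 4 * W.c₄) ∧ (B : ℚ) * 864 = -(t ^ 6 * W.c₆) := by
  refine ⟨((C.u⁻¹ : ℚˣ) : ℚ), Units.ne_zero _, ?_, ?_⟩
  · have h1 := congrArg WeierstrassCurve.c₄ h
    rw [WeierstrassCurve.variableChange_c₄, WeierstrassCurve.map_c₄] at h1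
    have h2 : (⟨0, 0, 0, (A : ℚ), (B : ℚ)⟩ : WeierstrassCurve ℚ).c₄ = -48 * A := by
      unfold WeierstrassCurve.c₄ WeierstrassCurve.b₂ WeierstrassCurve.b₄
      simp only
      ring
    rw [h2] at h1
    simp only [Int.coe_castRingHom] at h1
    linarith
  · have h1 := congrArg WeierstrassCurve.c₆ h
    rw [WeierstrassCurve.variableChange_c₆, WeierstrassCurve.map_c₆] at h1
    have h2 : (⟨0, 0, 0, (A : ℚ), (B : ℚ)⟩ : WeierstrassCurve ℚ).c₆ = -864 * B := by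
      unfold WeierstrassCurve.c₆ WeierstrassCurve.b₂ WeierstrassCurve.b₄ WeierstrassCurve.b₆
      simp only
      ring
    rw [h2] at h1
    simp only [Int.coe_castRingHom] at h1
    linarith


/-- any other integral equation is a multiple -/
lemma S_dvd {A0 B0 : ℤ} (h : ∀ q : ℕ, q.Prime → ¬ ((q : ℤ) ^ 4 ∣ A0 ∧ (q : ℤ) ^ 6 ∣ B0))
    {v : ℚ} {A B : ℤ} (hA : (A : ℚ) = v ^ 4 * A0) (hB : (B : ℚ) = v ^ 6 * B0) : v.den = 1 := by
  have hnd : IsCoprime (v.den : ℤ) v.num := by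
    have h1 := v.reduced
    exact Int.isCoprime_iff_gcd_eq_one.2 (by
      rw [Int.gcd_comm]; exact h1 : Int.gcd (v.den : ℤ) v.num = 1)
  have hden : (v.den : ℤ) ^ 4 ∣ A0 ∧ (v.den : ℤ) ^ 6 ∣ B0 := by
    have hq : (v.den : ℚ) ≠ 0 := by exact_mod_cast v.den_nz
    have hue : v = (v.num : ℚ) / (v.den : ℚ) := (Rat.num_div_den v).symm
    constructor
    · have e1 : (A : ℚ) * (v.den : ℚ) ^ 4 = (v.num : ℚ) ^ 4 * A0 := by
        rw [hA]
        nth_rewrite 1 [hue]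
        field_simp
      have e2 : A * (v.den : ℤ) ^ 4 = v.num ^ 4 * A0 := by exact_mod_cast e1
      have e3 : (v.den : ℤ) ^ 4 ∣ v.num ^ 4 * A0 := ⟨A, by rw [← e2]; ring⟩
      exact (IsCoprime.pow hnd).dvd_of_dvd_mul_left e3
    · have e1 : (B : ℚ) * (v.den : ℚ) ^ 6 = (v.num : ℚ) ^ 6 * B0 := by
        rw [hB]
        nth_rewrite 1 [hue]
        field_simp
      have e2 : B * (v.den : ℤ) ^ 6 = v.num ^ 6 * B0 := by exact_mod_cast e1
      have e3 : (v.den : ℤ) ^ 6 ∣ v.num ^ 6 * B0 := ⟨B, by rw [← e2]; ring⟩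
      exact (IsCoprime.pow hnd).dvd_of_dvd_mul_left e3
  by_contra hne
  obtain ⟨q, hq, hqd⟩ := Nat.exists_prime_and_dvd hne
  have hqd' : (q : ℤ) ∣ (v.den : ℤ) := by exact_mod_cast hqd
  exact h q hq ⟨(pow_dvd_pow_of_dvd hqd' 4).trans hden.1, (pow_dvd_pow_of_dvd hqd' 6).trans hden.2⟩

/-- **the height** -/
theorem height_eq {W : WeierstrassCurve ℤ} {A0 B0 : ℤ}
    (h : ∀ q : ℕ, q.Prime → ¬ ((q : ℤ) ^ 4 ∣ A0 ∧ (q : ℤ) ^ 6 ∣ B0)) {t0 : ℚ} (ht0 : t0 ≠ 0)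
    (hA0 : (A0 : ℚ) * 48 = -(t0 ^ 4 * W.c₄)) (hB0 : (B0 : ℚ) * 864 = -(t0 ^ 6 * W.c₆)) :
    height W = max (4 * A0.natAbs ^ 3) (27 * B0.natAbs ^ 2) := by
  unfold height
  apply le_antisymm
  · apply Nat.sInf_le
    exact ⟨A0, B0, short_exists W t0 ht0 _ _ hA0 hB0, rfl⟩
  · refine le_csInf ⟨_, A0, B0, short_exists W t0 ht0 _ _ hA0 hB0, rfl⟩ ?_
    rintro x ⟨A, B, ⟨C, hC⟩, rfl⟩
    obtain ⟨t, ht, hA, hB⟩ := short_inv hC
    obtain ⟨v, hv⟩ : ∃ v : ℚ, v = t / t0 := ⟨_, rfl⟩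
    have hv0 : v ≠ 0 := by rw [hv]; exact div_ne_zero ht ht0
    have htv : t = v * t0 := by rw [hv]; field_simp
    have eA : (A : ℚ) = v ^ 4 * A0 := by
      rw [htv] at hA
      linear_combination (1 / 48) * hA - (v ^ 4 / 48) * hA0
    have eB : (B : ℚ) = v ^ 6 * B0 := by
      rw [htv] at hB
      linear_combination (1 / 864) * hB - (v ^ 6 / 864) * hB0
    have hden := S_dvd h eA eB
    have hvn : v = (v.num : ℚ) := (Rat.den_eq_one_iff v).1 hden |>.symm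
    have hn0 : v.num ≠ 0 := Rat.num_ne_zero.2 hv0
    have eA' : A = v.num ^ 4 * A0 := by
      rw [hvn] at eA
      exact_mod_cast eA
    have eB' : B = v.num ^ 6 * B0 := by
      rw [hvn] at eB
      exact_mod_cast eB
    have hn1 : 1 ≤ v.num.natAbs := Nat.pos_of_ne_zero (Int.natAbs_ne_zero.2 hn0)
    have lA : A0.natAbs ≤ A.natAbs := by
      rw [eA', Int.natAbs_mul, Int.natAbs_pow]
      exact Nat.le_mul_of_pos_left _ (by positivity)
    have lB : B0.natAbs ≤ B.natAbs := by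
      rw [eB', Int.natAbs_mul, Int.natAbs_pow]
      exact Nat.le_mul_of_pos_left _ (by positivity)
    exact max_le_max (Nat.mul_le_mul_left _ (Nat.pow_le_pow_left lA 3))
      (Nat.mul_le_mul_left _ (Nat.pow_le_pow_left lB 2))

/-- primes at least five -/
lemma not_both {W : WeierstrassCurve ℤ} (hW : Semistable W) {q : ℕ} (hq : q.Prime) (hq2 : q ≠ 2)
    (hq3 : q ≠ 3) (h4 : (q : ℤ) ∣ W.c₄) (h6 : (q : ℤ) ∣ W.c₆) : False := by
  have hqi := Nat.prime_iff_prime_int.1 hq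
  have hq3' : ∀ k : ℕ, ¬ (q : ℤ) ∣ 3 ^ k := by
    intro k hk
    have h5 : q ∣ 3 ^ k := by exact_mod_cast hk
    exact hq3 ((Nat.prime_dvd_prime_iff_eq hq Nat.prime_three).1 (hq.dvd_of_dvd_pow h5))
  have hq2' : ∀ k : ℕ, ¬ (q : ℤ) ∣ 2 ^ k := by
    intro k hk
    have h5 : q ∣ 2 ^ k := by exact_mod_cast hk
    exact hq2 ((Nat.prime_dvd_prime_iff_eq hq Nat.prime_two).1 (hq.dvd_of_dvd_pow h5))
  have h7 : (q : ℤ) ∣ 1728 * W.Δ := by
    rw [W.c_relation]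
    exact dvd_sub (dvd_pow h4 (by norm_num)) (dvd_pow h6 (by norm_num))
  have h8 : (q : ℤ) ∣ W.Δ := by
    have e : 1728 * W.Δ = 3 ^ 3 * (2 ^ 6 * W.Δ) := by ring
    rw [e] at h7
    rcases hqi.dvd_or_dvd h7 with h5 | h5
    · exact absurd h5 (hq3' 3)
    · rcases hqi.dvd_or_dvd h5 with h5 | h5
      · exact absurd h5 (hq2' 6)
      · exact h5
  exact hW.2 q hq h8 h4

lemma pr_two {q : ℕ} (hq : q.Prime) (hq2 : q ≠ 2) {k : ℤ} (h : (q : ℤ) ∣ 2 * k) : (q : ℤ) ∣ k := by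
  rcases (Nat.prime_iff_prime_int.1 hq).dvd_or_dvd h with h5 | h5
  · exact absurd ((Nat.prime_dvd_prime_iff_eq hq Nat.prime_two).1 (by exact_mod_cast h5)) hq2
  · exact h5

lemma pr_three {q : ℕ} (hq : q.Prime) (hq3 : q ≠ 3) {k : ℤ} (h : (q : ℤ) ∣ 27 * k) :
    (q : ℤ) ∣ k := by
  rcases (Nat.prime_iff_prime_int.1 hq).dvd_or_dvd h with h5 | h5
  · have h6 : q ∣ 3 ^ 3 := by exact_mod_cast h5
    exact absurd ((Nat.prime_dvd_prime_iff_eq hq Nat.prime_three).1 (hq.dvd_of_dvd_pow h6)) hq3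
  · exact h5

/-- `27 ∣ c₆` if `3 ∣ c₄` -/
lemma c6_27 {W : WeierstrassCurve ℤ} (h : (3 : ℤ) ∣ W.c₄) : (27 : ℤ) ∣ W.c₆ := by
  have h1 : (3 : ℤ) ∣ W.b₂ ^ 2 := by
    have e : W.b₂ ^ 2 = W.c₄ + 3 * (8 * W.b₄) := by
      unfold WeierstrassCurve.c₄; ring
    rw [e]
    exact dvd_add h (dvd_mul_right _ _)
  obtain ⟨k, hk⟩ := Int.prime_three.dvd_of_dvd_pow h1
  refine ⟨-k ^ 3 + 4 * k * W.b₄ - 8 * W.b₆, ?_⟩
  unfold WeierstrassCurve.c₆
  rw [hk]
  ring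

end HGT

open HGT in
theorem t_HGT : S_HGT := by
  intro W hW h2
  constructor
  · intro h3
    obtain ⟨x, hx⟩ := h3
    obtain ⟨y, hy⟩ := c6_27 ⟨x, hx⟩
    have hno : ∀ q : ℕ, q.Prime → ¬ ((q : ℤ) ^ 4 ∣ -x ∧ (q : ℤ) ^ 6 ∣ -(2 * y)) := by
      rintro q hq ⟨h4, h6⟩
      rw [dvd_neg] at h4 h6
      have h4' : (q : ℤ) ∣ W.c₄ := by
        rw [hx]
        exact ((dvd_pow_self _ (by norm_num)).trans h4).mul_left _
      have hq2 : q ≠ 2 := by
        rintro rfl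
        exact h2 (by exact_mod_cast h4')
      by_cases hq3 : q = 3
      · subst hq3
        obtain ⟨x', hx'⟩ := h4
        have h6' : ((3 : ℕ) : ℤ) ^ 6 ∣ y := by
          have hc : IsCoprime (((3 : ℕ) : ℤ) ^ 6) 2 := by
            rw [Int.isCoprime_iff_gcd_eq_one]; decide
          exact hc.dvd_of_dvd_mul_left h6
        obtain ⟨y', hy'⟩ := h6'
        have h7 := W.c_relation
        rw [hx, hy, hx', hy'] at h7
        have h9 : (3 : ℤ) ∣ 64 * W.Δ := by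
          refine ⟨3 ^ 11 * x' ^ 3 - 3 ^ 14 * y' ^ 2, ?_⟩
          push_cast at h7
          have e : 27 * (64 * W.Δ) = 27 * (3 * (3 ^ 11 * x' ^ 3 - 3 ^ 14 * y' ^ 2)) := by
            linear_combination h7
          exact mul_left_cancel₀ (by norm_num) e
        have h10 : (3 : ℤ) ∣ W.Δ := by omega
        exact hW.2 3 Nat.prime_three (by exact_mod_cast h10) h4'
      · refine not_both hW hq hq2 hq3 h4' ?_
        rw [hy]
        exact (pr_two hq hq2 ((dvd_pow_self _ (by norm_num)).trans h6)).mul_left _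
    have h5 := height_eq (W := W) hno (t0 := 2) (by norm_num)
      (by rw [hx]; push_cast; ring) (by rw [hy]; push_cast; ring)
    rw [h5, hx, hy]
    simp only [Int.natAbs_neg, Int.natAbs_mul]
    have e3 : (3 : ℤ).natAbs = 3 := rfl
    have e27 : (27 : ℤ).natAbs = 27 := rfl
    have e2 : (2 : ℤ).natAbs = 2 := rfl
    rw [e3, e27, e2, ← Nat.mul_max_mul_left, ← Nat.mul_max_mul_left]
    congr 1
    · ring
    · ring
  · intro h3
    have hno : ∀ q : ℕ, q.Prime → ¬ ((q : ℤ) ^ 4 ∣ -(27 * W.c₄) ∧ (q : ℤ) ^ 6 ∣ -(54 * W.c₆)) := by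
      rintro q hq ⟨h4, h6⟩
      rw [dvd_neg] at h4 h6
      by_cases hq3 : q = 3
      · subst hq3
        apply h3
        have e : ((3 : ℕ) : ℤ) ^ 4 = 27 * 3 := by norm_num
        rw [e] at h4
        exact Int.dvd_of_mul_dvd_mul_left (by norm_num) h4
      · have h4' : (q : ℤ) ∣ W.c₄ := pr_three hq hq3 ((dvd_pow_self _ (by norm_num)).trans h4)
        have hq2 : q ≠ 2 := by
          rintro rfl
          exact h2 (by exact_mod_cast h4')
        refine not_both hW hq hq2 hq3 h4' ?_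
        have e : 54 * W.c₆ = 2 * (27 * W.c₆) := by ring
        rw [e] at h6
        exact pr_three hq hq3 (pr_two hq hq2 ((dvd_pow_self _ (by norm_num)).trans h6))
    have h5 := height_eq (W := W) hno (t0 := 6) (by norm_num)
      (by push_cast; ring) (by push_cast; ring)
    rw [h5]
    simp only [Int.natAbs_neg, Int.natAbs_mul]
    have e27 : (27 : ℤ).natAbs = 27 := rfl
    have e54 : (54 : ℤ).natAbs = 54 := rfl
    rw [e27, e54, ← Nat.mul_max_mul_left]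
    congr 1
    · ring
    · ring

end Pool.Agent.K1H81.TT

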