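import Pool.Agent.K1H81.TT.Stm

/-!
Project TT, pieces BOX and LOW.
-/

set_option autoImplicit false

namespace Pool.Agent.K1H81.TT

open Finset

namespace LOW

theorem cubic (a x z Y : ℝ) (hY : 0 ≤ Y) (h : a ^ 3 - 3 * a * x - 2 * z = 0)
    (hx : |x| ≤ Y ^ 2) (hz : |z| ≤ Y ^ 3) : |a| ≤ 2 * Y := by
  by_contra hc
  push Not at hc
  have h1 : |a| ^ 3 ≤ 3 * |a| * Y ^ 2 + 2 * Y ^ 3 := by
    have h2 : |a ^ 3| = |3 * a * x + 2 * z| := by
      congr 1; linarith
    rw [← abs_pow, h2]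
    calc |3 * a * x + 2 * z| ≤ |3 * a * x| + |2 * z| := abs_add_le _ _
      _ = 3 * |a| * |x| + 2 * |z| := by
          rw [abs_mul, abs_mul, abs_mul, abs_of_pos (by norm_num : (0 : ℝ) < 3),
            abs_of_pos (by norm_num : (0 : ℝ) < 2)]
      _ ≤ 3 * |a| * Y ^ 2 + 2 * Y ^ 3 := by gcongr
  have h3 : 0 < (|a| - 2 * Y) * (|a| + Y) ^ 2 := by
    have : 0 < |a| - 2 * Y := by linarith
    have : 0 < |a| + Y := by linarith
    positivity
  nlinarith

end LOW

open LOW in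
theorem t_BOX : S_BOX := by
  intro t Y A D hY hReg
  obtain ⟨h4, h6⟩ := hReg
  have hY2 : 0 ≤ Y ^ 2 := sq_nonneg Y
  cases t
  · simp only [F4, F6, Bool.false_eq_true, if_false] at h4 h6
    push_cast at h4 h6
    have h1 := cubic (-2 * (A : ℝ)) _ _ Y hY (by ring) h4 h6
    rw [abs_mul, abs_neg, abs_of_pos (by norm_num : (0 : ℝ) < 2)] at h1
    have h2 : |(A : ℝ)| ≤ Y := by linarith
    refine ⟨by linarith, ?_⟩
    have h3 : (A : ℝ) ^ 2 ≤ Y ^ 2 := by
      rw [← sq_abs]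
      gcongr
    rw [abs_le] at h4 ⊢
    constructor <;> nlinarith [sq_nonneg (A : ℝ)]
  · simp only [F4, F6, if_true] at h4 h6
    push_cast at h4 h6
    have h1 := cubic (A : ℝ) _ _ Y hY (by ring) h4 h6
    refine ⟨h1, ?_⟩
    have h3 : (A : ℝ) ^ 2 ≤ (2 * Y) ^ 2 := by
      rw [← sq_abs]
      gcongr
    rw [abs_le] at h4 ⊢
    constructor <;> nlinarith [sq_nonneg (A : ℝ)]

namespace LOW

theorem card_cls (q m : ℕ) (hq : Nat.Coprime 12 q) (hq0 : 0 < q) :
    ((range m).filter fun a => q ∣ 12 * a + 1).card ≤ m / q + 1 := by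
  rw [← card_range (m / q + 1)]
  refine card_le_card_of_injOn (fun a => a / q) ?_ ?_
  · intro a ha
    simp only [coe_filter, Set.mem_setOf_eq, mem_range] at ha
    simp only [coe_range, Set.mem_Iio]
    have := Nat.div_le_div_right (c := q) ha.1.le
    omega
  · intro a ha b hb hab
    simp only [coe_filter, Set.mem_setOf_eq, mem_range] at ha hb
    simp only at hab
    have h1 : a ≡ b [MOD q] := by
      have h2 : 12 * a ≡ 12 * b [MOD q] := by
        have h3 : 12 * a + 1 ≡ 12 * b + 1 [MOD q] :=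
          ((Nat.modEq_zero_iff_dvd.mpr ha.2)).trans ((Nat.modEq_zero_iff_dvd.mpr hb.2)).symm
        exact Nat.ModEq.add_right_cancel' 1 h3
      exact Nat.ModEq.cancel_left_of_coprime (Nat.coprime_comm.mp hq) h2
    have h4 := Nat.div_add_mod a q
    have h5 := Nat.div_add_mod b q
    have h6 : a % q = b % q := h1
    rw [hab, h6] at h4
    omega

theorem sum_sq (M : ℕ) (hM : 4 ≤ M) : ∑ q ∈ Icc 5 M, ((q : ℝ) ^ 2)⁻¹ ≤ 1 / 4 - 1 / M := by
  induction M, hM using Nat.le_induction with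
  | base => norm_num
  | succ M hM ih =>
    rw [Finset.sum_Icc_succ_top (by omega : 5 ≤ M + 1)]
    have hM0 : (0 : ℝ) < M := by exact_mod_cast (by omega : 0 < M)
    have h1 : (((M + 1 : ℕ) : ℝ) ^ 2)⁻¹ ≤ 1 / M - 1 / ((M + 1 : ℕ) : ℝ) := by
      push_cast
      rw [div_sub_div _ _ hM0.ne' (by positivity), inv_eq_one_div,
        div_le_div_iff₀ (by positivity) (by positivity)]
      nlinarith
    linarith

theorem sum_inv (M : ℕ) : ∑ q ∈ Icc 5 M, ((q : ℝ))⁻¹ ≤ 1 + Real.log M := by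
  have h1 := harmonic_le_one_add_log M
  rw [harmonic_eq_sum_Icc, Rat.cast_sum] at h1
  simp only [Rat.cast_inv, Rat.cast_natCast] at h1
  refine le_trans ?_ h1
  refine sum_le_sum_of_subset_of_nonneg ?_ (fun _ _ _ => by positivity)
  intro q hq
  simp only [mem_Icc] at hq ⊢
  omega

/-- the number of coprime pairs -/
theorem count (m n : ℕ) (hm : 40 ≤ m) :
    (m : ℝ) * n / 2 ≤ (((range m ×ˢ Ioc 0 n).filter
      fun z => Nat.Coprime (12 * z.1 + 1) z.2).card : ℝ) := by
  have h1 := card_filter_add_card_filter_not (s := range m ×ˢ Ioc 0 n)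
    (fun z : ℕ × ℕ => Nat.Coprime (12 * z.1 + 1) z.2)
  rw [card_product, card_range, Nat.card_Ioc, Nat.sub_zero] at h1
  have h2 : ((range m ×ˢ Ioc 0 n).filter fun z => ¬ Nat.Coprime (12 * z.1 + 1) z.2) ⊆
      ((Icc 5 (12 * m)).filter fun q => Nat.Coprime 12 q).biUnion fun q =>
        ((range m).filter fun a => q ∣ 12 * a + 1) ×ˢ ((Ioc 0 n).filter fun D => q ∣ D) := by
    intro z hz
    simp only [mem_filter, mem_product, mem_range, mem_Ioc] at hz
    simp only [mem_biUnion, mem_filter, mem_product, mem_range, mem_Ioc, mem_Icc]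
    obtain ⟨q, hq, hq1, hq2⟩ := Nat.Prime.not_coprime_iff_dvd.mp hz.2
    refine ⟨q, ⟨⟨?_, ?_⟩, ?_⟩, ⟨hz.1.1, hq1⟩, hz.1.2, hq2⟩
    · by_contra hc
      push Not at hc
      interval_cases q
      · exact absurd hq (by decide)
      · exact absurd hq (by decide)
      · omega
      · omega
      · exact absurd hq (by decide)
    · have := Nat.le_of_dvd (by omega) hq1
      omega
    · rw [Nat.coprime_comm, Nat.Prime.coprime_iff_not_dvd hq]
      intro hd
      have h3 : q ∣ 1 := (Nat.dvd_add_right (Dvd.dvd.mul_right hd z.1)).mp hq1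
      exact hq.one_lt.ne' (Nat.dvd_one.mp h3)
  have h3 : (((range m ×ˢ Ioc 0 n).filter
      fun z => ¬ Nat.Coprime (12 * z.1 + 1) z.2).card : ℝ) ≤
      ∑ q ∈ Icc 5 (12 * m), ((m : ℝ) / q + 1) * (n / q) := by
    have h4 := (card_le_card h2).trans card_biUnion_le
    have h5 : (((range m ×ˢ Ioc 0 n).filter
      fun z => ¬ Nat.Coprime (12 * z.1 + 1) z.2).card : ℝ) ≤
      ∑ q ∈ (Icc 5 (12 * m)).filter (fun q => Nat.Coprime 12 q),
        ((((range m).filter fun a => q ∣ 12 * a + 1) ×ˢ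
          ((Ioc 0 n).filter fun D => q ∣ D)).card : ℝ) := by
      exact_mod_cast h4
    refine h5.trans ?_
    refine (sum_le_sum fun q hq => ?_).trans (sum_le_sum_of_subset_of_nonneg (filter_subset _ _)
      (fun q _ _ => by positivity))
    simp only [mem_filter, mem_Icc] at hq
    have hq0 : 0 < q := by omega
    rw [card_product, Nat.cast_mul, Nat.Ioc_filter_dvd_card_eq_div]
    have h6 : (((range m).filter fun a => q ∣ 12 * a + 1).card : ℝ) ≤ (m : ℝ) / q + 1 := by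
      have h7 := card_cls q m hq.2 hq0
      calc (((range m).filter fun a => q ∣ 12 * a + 1).card : ℝ) ≤ ((m / q + 1 : ℕ) : ℝ) := by
            exact_mod_cast h7
        _ ≤ (m : ℝ) / q + 1 := by
            push_cast
            gcongr
            exact Nat.cast_div_le
    have h8 : ((n / q : ℕ) : ℝ) ≤ (n : ℝ) / q := Nat.cast_div_le
    gcongr
  have h4 : ∑ q ∈ Icc 5 (12 * m), ((m : ℝ) / q + 1) * (n / q) ≤ (m : ℝ) * n / 2 := by
    have h5 : ∑ q ∈ Icc 5 (12 * m), ((m : ℝ) / q + 1) * (n / q) =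
        m * n * ∑ q ∈ Icc 5 (12 * m), ((q : ℝ) ^ 2)⁻¹ + n * ∑ q ∈ Icc 5 (12 * m), ((q : ℝ))⁻¹ := by
      rw [mul_sum, mul_sum, ← sum_add_distrib]
      refine sum_congr rfl fun q hq => ?_
      simp only [mem_Icc] at hq
      have hq0 : (q : ℝ) ≠ 0 := by
        have : (0 : ℝ) < q := by exact_mod_cast (by omega : 0 < q)
        exact this.ne'
      field_simp
    rw [h5]
    have h6 := sum_sq (12 * m) (by omega)
    have h7 := sum_inv (12 * m)
    have hm' : (40 : ℝ) ≤ m := by exact_mod_cast hm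
    have h8 : 1 + Real.log ((12 * m : ℕ) : ℝ) ≤ (m : ℝ) / 4 := by
      have h9 : Real.log (((12 * m : ℕ) : ℝ) / 128) ≤ ((12 * m : ℕ) : ℝ) / 128 - 1 :=
        Real.log_le_sub_one_of_pos (by push_cast; positivity)
      rw [Real.log_div (by push_cast; positivity) (by norm_num)] at h9
      have h10 : Real.log 128 ≤ 7 * 0.6931471808 := by
        have : Real.log 128 = 7 * Real.log 2 := by
          rw [show (128 : ℝ) = 2 ^ 7 by norm_num, Real.log_pow]
          norm_num
        rw [this]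
        have := Real.log_two_lt_d9
        linarith
      push_cast at h9 ⊢
      linarith
    have h11 : (0 : ℝ) ≤ m * n := by positivity
    have h12 : (0 : ℝ) ≤ n := by positivity
    have h13 : (0 : ℝ) ≤ 1 / ((12 * m : ℕ) : ℝ) := by positivity
    calc (m : ℝ) * n * ∑ q ∈ Icc 5 (12 * m), ((q : ℝ) ^ 2)⁻¹ +
          n * ∑ q ∈ Icc 5 (12 * m), ((q : ℝ))⁻¹
        ≤ (m : ℝ) * n * (1 / 4) + n * ((m : ℝ) / 4) := by
          gcongr
          · linarith
          · linarith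
      _ = (m : ℝ) * n / 2 := by ring
  have h5 : (((range m ×ˢ Ioc 0 n).filter
      fun z => Nat.Coprime (12 * z.1 + 1) z.2).card : ℝ) +
      (((range m ×ˢ Ioc 0 n).filter
      fun z => ¬ Nat.Coprime (12 * z.1 + 1) z.2).card : ℝ) = (m : ℝ) * n := by
    exact_mod_cast h1
  linarith

end LOW

open LOW in
theorem t_LOW : S_LOW := by
  refine ⟨1 / 20000, by norm_num, 1000, fun Y hY => ?_⟩
  have hY0 : 0 ≤ Y := by linarith
  set m := ⌊Y / 24⌋₊ with hm
  set n := ⌊Y ^ 2 / 100⌋₊ with hn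
  have hm1 : (m : ℝ) ≤ Y / 24 := Nat.floor_le (by positivity)
  have hm2 : Y / 24 < m + 1 := Nat.lt_floor_add_one _
  have hn1 : (n : ℝ) ≤ Y ^ 2 / 100 := Nat.floor_le (by positivity)
  have hn2 : Y ^ 2 / 100 < n + 1 := Nat.lt_floor_add_one _
  have hm40 : 40 ≤ m := by
    have : (39 : ℝ) < m := by linarith
    exact_mod_cast this
  have h1 := count m n hm40
  have h2 : ((range m ×ˢ Ioc 0 n).filter fun z => Nat.Coprime (12 * z.1 + 1) z.2).card ≤
      (FS true False Y).card := by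
    refine card_le_card_of_injOn (fun z => (((12 * z.1 + 1 : ℕ) : ℤ), ((z.2 : ℕ) : ℤ))) ?_ ?_
    · rintro ⟨a, D⟩ hz
      simp only [coe_filter, Set.mem_setOf_eq, mem_product, mem_range, mem_Ioc] at hz
      obtain ⟨⟨ha, hD0, hDn⟩, hco⟩ := hz
      have hA : ((12 * a + 1 : ℕ) : ℝ) ≤ Y / 2 := by
        have : ((12 * a + 1 : ℕ) : ℝ) ≤ ((12 * m : ℕ) : ℝ) := by exact_mod_cast (by omega)
        push_cast at this ⊢
        linarith
      have hA0 : (0 : ℝ) < ((12 * a + 1 : ℕ) : ℝ) := by positivity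
      have hD : (D : ℝ) ≤ Y ^ 2 / 100 := by
        have : (D : ℝ) ≤ n := by exact_mod_cast hDn
        linarith
      have hD0' : (0 : ℝ) < D := by exact_mod_cast hD0
      simp only [FS, coe_filter, Set.mem_setOf_eq, Bx, mem_product, mem_Icc]
      have hceil : Y ≤ (⌈Y⌉₊ : ℝ) := Nat.le_ceil Y
      refine ⟨⟨⟨?_, ?_⟩, ?_, ?_⟩, ⟨?_, ?_, ?_, ?_⟩, ⟨?_, ?_⟩, ?_⟩
      · have : (0 : ℤ) ≤ ((12 * a + 1 : ℕ) : ℤ) := by positivity
        have : (0 : ℤ) ≤ (⌈Y⌉₊ : ℤ) := by positivity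
        omega
      · have : ((12 * a + 1 : ℕ) : ℝ) ≤ 2 * (⌈Y⌉₊ : ℝ) := by linarith
        exact_mod_cast this
      · have : (0 : ℤ) ≤ (⌈Y⌉₊ : ℤ) ^ 2 := by positivity
        have : (0 : ℤ) < (D : ℤ) := by exact_mod_cast hD0
        omega
      · have h3 : Y ^ 2 ≤ (⌈Y⌉₊ : ℝ) ^ 2 := by gcongr
        have : (D : ℝ) ≤ (⌈Y⌉₊ : ℝ) ^ 2 := by nlinarith
        exact_mod_cast this
      · push_cast
        omega
      · exact_mod_cast hD0.ne'
      · unfold EE
        intro h3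
        have h4 : ((12 * a + 1 : ℕ) : ℤ) ^ 2 = 64 * (D : ℤ) := by linarith
        have h5 : (((12 * a + 1 : ℕ) : ℤ) ^ 2) % 2 = 0 := by rw [h4]; omega
        have h6 : ((12 * a + 1 : ℕ) : ℤ) % 2 = 1 := by push_cast; omega
        rw [pow_two, Int.mul_emod, h6] at h5
        norm_num at h5
      · exact Nat.isCoprime_iff_coprime.mpr hco
      · simp only [F4, if_true]
        push_cast
        push_cast at hA hA0
        rw [abs_le]
        constructor <;> nlinarith
      · simp only [F6, if_true]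
        push_cast
        push_cast at hA hA0
        rw [abs_neg, abs_mul, abs_of_pos hA0]
        have h3 : |((12 : ℝ) * a + 1) ^ 2 - 72 * D| ≤ Y ^ 2 := by
          rw [abs_le]
          constructor <;> nlinarith
        calc ((12 : ℝ) * a + 1) * |((12 : ℝ) * a + 1) ^ 2 - 72 * D| ≤ (Y / 2) * Y ^ 2 := by gcongr
          _ ≤ Y ^ 3 := by nlinarith [pow_nonneg hY0 3]
      · simp only [iff_false]
        intro h3
        push_cast at h3
        omega
    · rintro ⟨a, D⟩ _ ⟨b, D'⟩ _ h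
      simp only [Prod.mk.injEq] at h
      obtain ⟨h3, h4⟩ := h
      have h5 : a = b := by
        have : 12 * a + 1 = 12 * b + 1 := by exact_mod_cast h3
        omega
      have h6 : D = D' := by exact_mod_cast h4
      rw [h5, h6]
  have h3 : ((((range m ×ˢ Ioc 0 n).filter fun z => Nat.Coprime (12 * z.1 + 1) z.2).card : ℕ) : ℝ) ≤
      ((FS true False Y).card : ℝ) := by exact_mod_cast h2
  refine le_trans ?_ (h1.trans h3)
  have h4 : Y / 48 ≤ m := by linarith
  have h5 : Y ^ 2 / 200 ≤ n := by nlinarith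
  calc 1 / 20000 * Y ^ 3 ≤ (Y / 48) * (Y ^ 2 / 200) / 2 := by nlinarith [pow_nonneg hY0 3]
    _ ≤ (m : ℝ) * n / 2 := by gcongr

end Pool.Agent.K1H81.TT
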