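import Mathlib

/-!
Interface of project TT (MP_6073f3_nt): the root numbers of the semistable elliptic curves over `ℚ`
with a rational point of order two, ordered by naive height, are equidistributed.
Mathlib only. Every statement `S_xxx` is one piece.
-/

set_option autoImplicit false

namespace Pool.Agent.K1H81.TT

open Finset Filter Topology

/-! ### curves -/

/-- `p + 1 - #W(𝔽_p)` -/
noncomputable def ap (W : WeierstrassCurve ℤ) (p : ℕ) : ℤ :=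
  p - Nat.card {z : ZMod p × ZMod p // z.2 ^ 2 + W.a₁ * z.1 * z.2 + W.a₃ * z.2 =
    z.1 ^ 3 + W.a₂ * z.1 ^ 2 + W.a₄ * z.1 + W.a₆}

/-- semistable at every prime -/
def Semistable (W : WeierstrassCurve ℤ) : Prop :=
  W.Δ ≠ 0 ∧ ∀ p : ℕ, p.Prime → (p : ℤ) ∣ W.Δ → ¬ (p : ℤ) ∣ W.c₄

/-- there is a rational point of order two -/
def TwoTors (W : WeierstrassCurve ℤ) : Prop :=
  ∃ r : ℚ, 4 * r ^ 3 + W.b₂ * r ^ 2 + 2 * W.b₄ * r + W.b₆ = 0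

/-- the root number of a semistable curve -/
noncomputable def rootNumber (W : WeierstrassCurve ℤ) : ℤ :=
  -∏ p ∈ W.Δ.natAbs.primeFactors, (-ap W p)

/-- the naive height -/
noncomputable def height (W : WeierstrassCurve ℤ) : ℕ :=
  sInf {h : ℕ | ∃ A B : ℤ, (∃ C : WeierstrassCurve.VariableChange ℚ,
    C • (W.map (Int.castRingHom ℚ)) = (⟨0, 0, 0, (A : ℚ), (B : ℚ)⟩ : WeierstrassCurve ℚ)) ∧
      h = max (4 * A.natAbs ^ 3) (27 * B.natAbs ^ 2)}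

/-! ### the parametrization: `y² = x(x² + A x + 16 D)` (`t = true`) and its dual (`t = false`) -/

def EE (A D : ℤ) : ℤ := A ^ 2 - 64 * D

def Adm (A D : ℤ) : Prop := A % 4 = 1 ∧ D ≠ 0 ∧ EE A D ≠ 0 ∧ IsCoprime A D

def F4 (t : Bool) (A D : ℤ) : ℤ := if t then A ^ 2 - 48 * D else A ^ 2 + 192 * D

def F6 (t : Bool) (A D : ℤ) : ℤ :=
  if t then -(A * (A ^ 2 - 72 * D)) else -(A * (A ^ 2 - 576 * D))

def DD (t : Bool) (A D : ℤ) : ℤ := if t then D ^ 2 * EE A D else D * EE A D ^ 2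

/-- the quadratic symbol `(n / p)`, `p` a prime not dividing `n` -/
def chi (n : ℤ) (p : ℕ) : ℤ := if p = 2 then (if n % 8 = 1 then 1 else -1) else jacobiSym n p

/-- the root number in terms of `A, D` -/
def w (A D : ℤ) : ℤ :=
  -((∏ p ∈ D.natAbs.primeFactors, (-chi A p)) *
    ∏ p ∈ (EE A D).natAbs.primeFactors, (-jacobiSym (-2 * A) p))

/-- AP: the trace at a node -/
def S_AP : Prop := ∀ (W : WeierstrassCurve ℤ) (p : ℕ), p.Prime → (p : ℤ) ∣ W.Δ →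
  ¬ (p : ℤ) ∣ W.c₄ → ap W p = chi (-W.c₆) p

/-- PAR: the invariants of the semistable curves with a rational point of order two -/
def S_PAR : Prop := ∀ W : WeierstrassCurve ℤ, Semistable W → TwoTors W →
  ∃ (t : Bool) (A D : ℤ), Adm A D ∧ W.c₄ = F4 t A D ∧ W.c₆ = F6 t A D

/-- CONV: conversely -/
def S_CONV : Prop := ∀ (t : Bool) (A D : ℤ), Adm A D →
  ∃ W : WeierstrassCurve ℤ, Semistable W ∧ TwoTors W ∧ W.c₄ = F4 t A D ∧ W.c₆ = F6 t A D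

/-- WRT: the root number in terms of `A, D` (to be deduced from `S_AP`) -/
def S_WRT : Prop := ∀ (W : WeierstrassCurve ℤ) (t : Bool) (A D : ℤ), Semistable W → Adm A D →
  W.c₄ = F4 t A D → W.c₆ = F6 t A D → W.Δ = DD t A D ∧ rootNumber W = w A D

/-- HGT: the naive height of a semistable curve with odd `c₄` -/
def S_HGT : Prop := ∀ W : WeierstrassCurve ℤ, Semistable W → ¬ (2 : ℤ) ∣ W.c₄ →
  ((3 : ℤ) ∣ W.c₄ → 27 * height W = 4 * max (W.c₄.natAbs ^ 3) (W.c₆.natAbs ^ 2)) ∧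
  (¬ (3 : ℤ) ∣ W.c₄ → height W = 78732 * max (W.c₄.natAbs ^ 3) (W.c₆.natAbs ^ 2))

/-- ISO: the isomorphism classes are given by `(c₄, c₆)` -/
def S_ISO : Prop := ∀ W W' : WeierstrassCurve ℤ, Semistable W → Semistable W' →
  ((∃ C : WeierstrassCurve.VariableChange ℚ,
      C • (W.map (Int.castRingHom ℚ)) = W'.map (Int.castRingHom ℚ)) ↔
    (W.c₄ = W'.c₄ ∧ W.c₆ = W'.c₆))

/-- MUL: a pair `(c₄, c₆)` comes from one `(t, A, D)` unless the 2-torsion is full -/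
def S_MUL : Prop := ∀ (t t' : Bool) (A D A' D' : ℤ), Adm A D → Adm A' D' →
  F4 t A D = F4 t' A' D' → F6 t A D = F6 t' A' D' →
  (t = t' ∧ A = A' ∧ D = D') ∨ (t = true ∧ IsSquare (EE A D)) ∨ (t = false ∧ IsSquare D)

/-! ### the region of bounded height -/

def Reg (t : Bool) (Y : ℝ) (A D : ℤ) : Prop :=
  |(F4 t A D : ℝ)| ≤ Y ^ 2 ∧ |(F6 t A D : ℝ)| ≤ Y ^ 3

/-- BOX -/
def S_BOX : Prop := ∀ (t : Bool) (Y : ℝ) (A D : ℤ), 0 ≤ Y → Reg t Y A D →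
  |(A : ℝ)| ≤ 2 * Y ∧ |(D : ℝ)| ≤ Y ^ 2

/-- the box `|A| ≤ 2N`, `|D| ≤ N²` -/
noncomputable def Bx (N : ℕ) : Finset (ℤ × ℤ) := Icc (-(2 * (N : ℤ))) (2 * N) ×ˢ Icc (-(N : ℤ) ^ 2) ((N : ℤ) ^ 2)

open Classical in
/-- the admissible pairs of the region, with `3 ∣ A` or not -/
noncomputable def FS (t : Bool) (three : Prop) (Y : ℝ) : Finset (ℤ × ℤ) :=
  (Bx ⌈Y⌉₊).filter fun z => Adm z.1 z.2 ∧ Reg t Y z.1 z.2 ∧ ((3 : ℤ) ∣ z.1 ↔ three)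

/-- REG: for `|A| ≥ η N` the conditions on `D` (height and signs) define an interval whose end points
have bounded variation -/
def S_REG : Prop := ∀ η : ℝ, 0 < η → ∃ V : ℝ, 0 < V ∧ ∃ N0 : ℕ, ∀ (N : ℕ) (Y : ℝ), N0 ≤ N → 1 ≤ Y → Y ≤ N →
  (N : ℝ) ≤ Y + 1 → ∀ (t : Bool) (sD sE : ℤ), (sD = 1 ∨ sD = -1) → (sE = 1 ∨ sE = -1) →
  ∃ L U : ℤ → ℤ, (∀ A, -(N : ℤ) ^ 2 ≤ L A ∧ L A ≤ U A ∧ U A ≤ (N : ℤ) ^ 2) ∧
    (∑ A ∈ Ico (-(2 * (N : ℤ))) (2 * N), |((L (A + 1) - L A : ℤ) : ℝ)| ≤ V * (N : ℝ) ^ 2) ∧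
    (∑ A ∈ Ico (-(2 * (N : ℤ))) (2 * N), |((U (A + 1) - U A : ℤ) : ℝ)| ≤ V * (N : ℝ) ^ 2) ∧
    ∀ A D : ℤ, η * N ≤ |(A : ℝ)| → |(A : ℝ)| ≤ 2 * N →
      ((Reg t Y A D ∧ 0 < sD * D ∧ 0 < sE * EE A D) ↔ (L A < D ∧ D ≤ U A))

/-- LOW: the number of pairs is at least `c Y³` -/
def S_LOW : Prop := ∃ c : ℝ, 0 < c ∧ ∃ Y0 : ℝ, ∀ Y : ℝ, Y0 ≤ Y →
  c * Y ^ 3 ≤ ((FS true False Y).card : ℝ)

/-! ### exceptional pairs, local constancy -/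

/-- pairs with a large square or a large power in `D` or `A² - 64 D`, or a large common prime -/
def Bad (y K : ℕ) (A D : ℤ) : Prop := ∃ p : ℕ, p.Prime ∧
  ((y < p ∧ ((p : ℤ) ^ 2 ∣ D ∨ (p : ℤ) ^ 2 ∣ EE A D ∨ ((p : ℤ) ∣ A ∧ (p : ℤ) ∣ D))) ∨
    (p ≤ y ∧ ((p : ℤ) ^ K ∣ D ∨ (p : ℤ) ^ K ∣ EE A D)))

open Classical in
/-- BAD: few exceptional pairs -/
def S_BAD : Prop := ∀ ε : ℝ, 0 < ε → ∃ y K : ℕ, 1 ≤ K ∧ ∃ N0 : ℕ, ∀ N : ℕ, N0 ≤ N →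
  ((((Bx N).filter fun z => z.1 % 4 = 1 ∧ z.2 ≠ 0 ∧ EE z.1 z.2 ≠ 0 ∧ Bad y K z.1 z.2).card : ℕ) : ℝ) ≤
    ε * (N : ℝ) ^ 3

/-- REC: reciprocity -/
def S_REC : Prop := ∀ A D : ℤ, Adm A D →
  jacobiSym (D.natAbs : ℤ) A.natAbs * jacobiSym (-2 * A) (EE A D).natAbs =
    if 0 < EE A D then (if 0 < D then (if 0 < A then 1 else -1) else 1) else -1

def QQ (y K : ℕ) : ℕ := (y.factorial) ^ K

def gg (y K : ℕ) (n : ℤ) : ℕ := Nat.gcd n.natAbs (QQ y K)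

/-- the Möbius function of the part of `n` prime to `y!` -/
noncomputable def mm (y K : ℕ) (n : ℤ) : ℤ := ArithmeticFunction.moebius (n.natAbs / gg y K n)

/-- INV: `w` times the two Möbius functions is locally constant (to be deduced from `S_REC`) -/
def S_INV : Prop := ∀ y K : ℕ, 1 ≤ K →
  (∀ A D : ℤ, Adm A D → ¬ Bad y K A D → mm y K D ^ 2 = 1 ∧ mm y K (EE A D) ^ 2 = 1) ∧
  ∀ A D A' D' : ℤ, Adm A D → Adm A' D' → ¬ Bad y K A D → ¬ Bad y K A' D' →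
    A ≡ A' [ZMOD (24 * QQ y K : ℕ)] → D ≡ D' [ZMOD (24 * QQ y K : ℕ)] →
    (0 < A ↔ 0 < A') → (0 < D ↔ 0 < D') → (0 < EE A D ↔ 0 < EE A' D') →
    w A D * mm y K D * mm y K (EE A D) = w A' D' * mm y K D' * mm y K (EE A' D')

/-! ### the correlation sums -/

/-- `e(x) = exp(2πix)` -/
noncomputable def e (x : ℝ) : ℂ := Complex.exp (2 * Real.pi * Complex.I * x)

/-- the summand -/
noncomputable def cor (M g h : ℕ) (α δ A D : ℤ) : ℤ :=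
  if A ≡ α [ZMOD M] ∧ D ≡ δ [ZMOD M] then
    ArithmeticFunction.moebius (D.natAbs / g) * ArithmeticFunction.moebius ((EE A D).natAbs / h)
  else 0

/-- DAV: Davenport's estimate in residue classes and intervals (from
`Pool.Agent.H446R3.SK.dav_eps` or `Pool.Agent.H373R2.T7.sup_mu`) -/
def S_DAV : Prop := ∀ R : ℕ, 0 < R → ∀ ε : ℝ, 0 < ε → ∃ N0 : ℕ, ∀ N : ℕ, N0 ≤ N →
  ∀ (β : ℝ) (ρ s t : ℤ), -(N : ℤ) ≤ s → t ≤ N →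
    ‖∑ u ∈ (Ioc s t).filter (fun u => u ≡ ρ [ZMOD R]),
      ((ArithmeticFunction.moebius u.natAbs : ℤ) : ℂ) * e (u * β)‖ ≤ ε * N

/-- WEYL: the inverse theorem for quadratic Weyl sums in residue classes (from
`Pool.Agent.H373R2.NB.IW_all 2`) -/
def S_WEYL : Prop := ∀ M : ℕ, 0 < M → ∀ η : ℝ, 0 < η → ∃ (q1 : ℕ) (w1 : ℝ), 0 < w1 ∧
  ∀ N : ℕ, 1 ≤ N → ∀ (α a b : ℤ) (θ : ℝ), -(2 * (N : ℤ)) ≤ a → b ≤ 2 * N →
    η * N ≤ ‖∑ A ∈ (Ico a b).filter (fun A => A ≡ α [ZMOD M]), e (θ * (A : ℝ) ^ 2)‖ →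
    ∃ q : ℕ, 1 ≤ q ∧ q ≤ q1 ∧ ∃ k : ℤ, |q * θ - k| ≤ w1 / (N : ℝ) ^ 2

/-- COR1: the correlation sums over boxes (circle method; to be deduced from `S_DAV`, `S_WEYL`) -/
def S_COR1 : Prop := ∀ M g h : ℕ, 0 < M → 0 < g → 0 < h → g ∣ M → h ∣ M → ∀ α δ : ℤ, (g : ℤ) ∣ δ →
  (h : ℤ) ∣ EE α δ → ∀ ε : ℝ, 0 < ε → ∃ N0 : ℕ, ∀ N : ℕ, N0 ≤ N → ∀ a b t : ℤ,
    -(2 * (N : ℤ)) ≤ a → b ≤ 2 * N → t ≤ (N : ℤ) ^ 2 →
    |((∑ A ∈ Ico a b, ∑ D ∈ Ioc (-(N : ℤ) ^ 2) t, cor M g h α δ A D : ℤ) : ℝ)| ≤ ε * (N : ℝ) ^ 3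

/-- COR2: the same below a function of bounded variation (to be deduced from `S_COR1`) -/
def S_COR2 : Prop := ∀ M g h : ℕ, 0 < M → 0 < g → 0 < h → g ∣ M → h ∣ M → ∀ α δ : ℤ, (g : ℤ) ∣ δ →
  (h : ℤ) ∣ EE α δ → ∀ V ε : ℝ, 0 < V → 0 < ε → ∃ N0 : ℕ, ∀ N : ℕ, N0 ≤ N → ∀ a b : ℤ,
    -(2 * (N : ℤ)) ≤ a → b ≤ 2 * N → ∀ U : ℤ → ℤ,
    (∀ A, -(N : ℤ) ^ 2 ≤ U A ∧ U A ≤ (N : ℤ) ^ 2) →
    (∑ A ∈ Ico (-(2 * (N : ℤ))) (2 * N), |((U (A + 1) - U A : ℤ) : ℝ)| ≤ V * (N : ℝ) ^ 2) →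
    |((∑ A ∈ Ico a b, ∑ D ∈ Ioc (-(N : ℤ) ^ 2) (U A), cor M g h α δ A D : ℤ) : ℝ)| ≤ ε * (N : ℝ) ^ 3

/-- ANA: the root numbers cancel (from `S_REG`, `S_BAD`, `S_INV`, `S_COR2`) -/
def S_ANA : Prop := ∀ (t : Bool) (three : Prop) (ε : ℝ), 0 < ε → ∃ Y0 : ℝ, ∀ Y : ℝ, Y0 ≤ Y →
  |((∑ z ∈ FS t three Y, w z.1 z.2 : ℤ) : ℝ)| ≤ ε * Y ^ 3

end Pool.Agent.K1H81.TT
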