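import Mathlib
import Pool.Agent.K1H81.TT.Stm
import Pool.Agent.H373R2.NB.Weyl

set_option autoImplicit false

/-! Piece WEYL of project TT -/

namespace Pool.Agent.K1H81.TT

namespace WEYL

open Finset
open Pool.Agent.Helper602.MK (ee)
open Pool.Agent.Helper602.MK.N_J5b (norm_ee)
open Pool.Agent.H373R2.NB (Ph IW IW_all)

lemma prog (M : ℕ) (hM : 0 < M) (α a b : ℤ) :
    ∃ (A0 : ℤ) (L : ℕ), (Ico a b).filter (fun A => A ≡ α [ZMOD M]) =
      (range L).image (fun n : ℕ => A0 + M * n) := by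
  have hM' : (0 : ℤ) < M := by exact_mod_cast hM
  set k0 : ℤ := -((α - a) / M) with hk0
  set k1 : ℤ := -((α - b) / M) with hk1
  have h0 : ∀ k : ℤ, a ≤ α + M * k ↔ k0 ≤ k := by
    intro k
    rw [hk0, neg_le, Int.le_ediv_iff_mul_le hM']
    constructor <;> intro h <;> linarith [mul_comm (M : ℤ) k]
  have h1 : ∀ k : ℤ, α + M * k < b ↔ k < k1 := by
    intro k
    rw [hk1, lt_neg, Int.ediv_lt_iff_lt_mul hM']
    constructor <;> intro h <;> linarith [mul_comm (M : ℤ) k]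
  refine ⟨α + M * k0, (k1 - k0).toNat, ?_⟩
  ext A
  simp only [mem_filter, mem_Ico, mem_image, mem_range]
  constructor
  · rintro ⟨⟨ha, hb⟩, hc⟩
    obtain ⟨k, hk⟩ := (Int.modEq_iff_dvd.1 hc.symm)
    have hA : A = α + M * k := by linarith
    rw [hA] at ha hb
    have ha' := (h0 k).1 ha
    have hb' := (h1 k).1 hb
    refine ⟨(k - k0).toNat, by omega, ?_⟩
    rw [hA, Int.toNat_of_nonneg (by omega)]
    ring
  · rintro ⟨n, hn, rfl⟩
    have e : α + M * k0 + M * (n : ℤ) = α + M * (k0 + n) := by ring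
    rw [e]
    refine ⟨⟨(h0 _).2 (by omega), (h1 _).2 (by omega)⟩, ?_⟩
    exact (Int.modEq_iff_dvd.2 ⟨k0 + n, by ring⟩).symm

end WEYL

open WEYL Finset in
open Pool.Agent.Helper602.MK (ee) in
open Pool.Agent.Helper602.MK.N_J5b (norm_ee) in
open Pool.Agent.H373R2.NB (Ph IW IW_all) in
theorem t_WEYL : S_WEYL := by
  obtain ⟨c, m, hc, hI⟩ := IW_all 2 (by norm_num)
  intro M hM η hη
  have hM0 : (0 : ℝ) < M := by exact_mod_cast hM
  have hM1 : (M : ℤ) ≠ 0 := by exact_mod_cast hM.ne'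
  have hc0 : (0 : ℝ) < c := by exact_mod_cast hc
  set u : ℝ := 5 / η + 1 with hu
  have hu1 : 1 ≤ u := by
    have : 0 < 5 / η := by positivity
    linarith
  have hu0 : 0 < u := by linarith
  refine ⟨2 * M ^ 2 * ⌊(c : ℝ) * u ^ m⌋₊, c * u ^ m / η ^ 2, by positivity, ?_⟩
  intro N hN α a b θ ha hb hS
  have hN0 : (0 : ℝ) < N := by exact_mod_cast hN
  obtain ⟨A0, L, hL⟩ := prog M hM α a b
  have hinj : Function.Injective (fun n : ℕ => A0 + M * (n : ℤ)) := by
    intro x y hxy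
    simp only [add_right_inj, mul_eq_mul_left_iff] at hxy
    rcases hxy with h | h
    · exact_mod_cast h
    · exact absurd h hM1
  have hcard : L ≤ 4 * N := by
    have h1 : #((Ico a b).filter (fun A => A ≡ α [ZMOD M])) = L := by
      rw [hL, card_image_of_injective _ hinj, card_range]
    have h2 : #((Ico a b).filter (fun A => A ≡ α [ZMOD M])) ≤ (b - a).toNat := by
      rw [← Int.card_Ico]
      exact card_filter_le _ _
    omega
  have hee : ∀ x : ℝ, e x = ee x := by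
    intro x
    unfold e ee
    congr 1
    ring
  have hsum : ∑ A ∈ (Ico a b).filter (fun A => A ≡ α [ZMOD M]), e (θ * (A : ℝ) ^ 2) =
      ∑ n ∈ range L, ee (θ * (((A0 : ℝ) + M * n)) ^ 2) := by
    rw [hL, sum_image (fun x _ y _ h => hinj h)]
    refine sum_congr rfl fun n _ => ?_
    rw [hee]
    push_cast
    rfl
  rw [hsum] at hS
  set T : ℝ := ‖∑ n ∈ range L, ee (θ * (((A0 : ℝ) + M * n)) ^ 2)‖ with hT
  have hT0 : 0 < T := lt_of_lt_of_le (by positivity) hS
  have hTL : T ≤ L := by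
    calc T ≤ ∑ n ∈ range L, ‖ee (θ * (((A0 : ℝ) + M * n)) ^ 2)‖ := norm_sum_le _ _
      _ = L := by simp [norm_ee]
  have hL0 : (0 : ℝ) < L := hT0.trans_le hTL
  have hL1 : 1 ≤ L := by exact_mod_cast hL0
  have hph : Ph 2 (2 * M ^ 2 * θ) (fun n : ℕ => θ * (((A0 : ℝ) + M * n)) ^ 2) := by
    intro h h' n
    simp only
    push_cast
    ring
  have hLu : (L : ℝ) ≤ u * T := by
    have h1 : (L : ℝ) ≤ 4 * N := by exact_mod_cast hcard
    have h2 : (N : ℝ) ≤ T / η := by rw [le_div_iff₀ hη]; linarith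
    have h3 : u * T = 5 * (T / η) + T := by rw [hu]; ring
    have h4 : 0 < T / η := by positivity
    rw [h3]
    linarith
  obtain ⟨q, hq1, hq2, k, hk⟩ := hI L u (2 * M ^ 2 * θ) _ hL1 hu1 hph hLu
  refine ⟨2 * M ^ 2 * q, Nat.mul_pos (by positivity) hq1, Nat.mul_le_mul_left _ (Nat.le_floor hq2), k, ?_⟩
  have e1 : ((2 * M ^ 2 * q : ℕ) : ℝ) * θ = q * (2 * M ^ 2 * θ) := by push_cast; ring
  rw [e1]
  refine hk.trans ?_
  rw [div_div, ← mul_pow]
  apply div_le_div_of_nonneg_left (by positivity) (by positivity)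
  exact pow_le_pow_left₀ (by positivity) (hS.trans hTL) 2

end Pool.Agent.K1H81.TT

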