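import Pool.Agent.K1H81.TT.Stm

/-!
# Piece AP of the project TT: the trace at a node

`count_node`, `two_dec` and `ap_two` are taken from `Pool/Agent/K1H81/RN/Cls.lean`.
-/

set_option autoImplicit false

namespace Pool.Agent.K1H81.TT

open Finset

namespace AP

section count

variable {F : Type*} [Field F] [Fintype F] [DecidableEq F]

/-- points of a nodal cubic -/
lemma count_node (hF : ringChar F ≠ 2) (u α β : F) (hα : α ≠ 0) :
    (Nat.card {z : F × F // z.2 ^ 2 = (z.1 - u) ^ 2 * (α * z.1 + β)} : ℤ) =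
      Fintype.card F - quadraticChar F (α * u + β) := by
  classical
  have h1 : Nat.card {z : F × F // z.2 ^ 2 = (z.1 - u) ^ 2 * (α * z.1 + β)} =
      ∑ x : F, ({y : F | y ^ 2 = (x - u) ^ 2 * (α * x + β)} : Set F).toFinset.card := by
    rw [Nat.card_congr (Equiv.subtypeProdEquivSigmaSubtype
      (fun x y : F => y ^ 2 = (x - u) ^ 2 * (α * x + β))), Nat.card_sigma]
    apply sum_congr rfl
    intro x _
    rw [Nat.card_eq_fintype_card, Set.toFinset_card]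
    rfl
  rw [h1]
  push_cast
  simp only [quadraticChar_card_sqrts hF]
  rw [sum_add_distrib]
  have h3 : ∑ x : F, quadraticChar F ((x - u) ^ 2 * (α * x + β)) =
      ∑ x : F, quadraticChar F (α * x + β) - quadraticChar F (α * u + β) := by
    rw [eq_sub_iff_add_eq, ← add_sum_erase univ _ (mem_univ u),
      ← add_sum_erase univ (fun x => quadraticChar F (α * x + β)) (mem_univ u)]
    have h4 : quadraticChar F ((u - u) ^ 2 * (α * u + β)) = 0 := by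
      rw [sub_self]; simp
    rw [h4, zero_add, add_comm]
    congr 1
    apply sum_congr rfl
    intro x hx
    rw [map_mul, quadraticChar_sq_one' (sub_ne_zero.2 (ne_of_mem_erase hx)), one_mul]
  have h5 : ∑ x : F, quadraticChar F (α * x + β) = 0 := by
    rw [← quadraticChar_sum_zero hF]
    apply Fintype.sum_bijective (fun x => α * x + β)
    · constructor
      · intro x y h
        have : α * x = α * y := add_right_cancel h
        exact mul_left_cancel₀ hα this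
      · intro y
        exact ⟨α⁻¹ * (y - β), by field_simp; ring⟩
    · intro x; rfl
  rw [h3, h5, sum_const, card_univ]
  simp
  ring


lemma node_card (hF : ringChar F ≠ 2) (W : WeierstrassCurve F) (hΔ : W.Δ = 0) (hc : W.c₄ ≠ 0) :
    (Nat.card {z : F × F // z.2 ^ 2 + W.a₁ * z.1 * z.2 + W.a₃ * z.2 =
      z.1 ^ 3 + W.a₂ * z.1 ^ 2 + W.a₄ * z.1 + W.a₆} : ℤ) =
      Fintype.card F - quadraticChar F (-W.c₆) := by
  have h2 : (2 : F) ≠ 0 := Ring.two_ne_zero hF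
  have h4 : (4 : F) ≠ 0 := by
    have : (4 : F) = 2 * 2 := by norm_num
    rw [this]; exact mul_ne_zero h2 h2
  -- completing the square
  have e1 : Nat.card {z : F × F // z.2 ^ 2 + W.a₁ * z.1 * z.2 + W.a₃ * z.2 =
      z.1 ^ 3 + W.a₂ * z.1 ^ 2 + W.a₄ * z.1 + W.a₆} = Nat.card {z : F × F //
        z.2 ^ 2 = 4 * z.1 ^ 3 + W.b₂ * z.1 ^ 2 + 2 * W.b₄ * z.1 + W.b₆} := by
    refine Nat.card_congr (Equiv.subtypeEquiv
      ⟨fun z => (z.1, 2 * z.2 + W.a₁ * z.1 + W.a₃),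
        fun z => (z.1, (z.2 - W.a₁ * z.1 - W.a₃) / 2), ?_, ?_⟩ ?_)
    · intro z
      ext
      · rfl
      · show (2 * z.2 + W.a₁ * z.1 + W.a₃ - W.a₁ * z.1 - W.a₃) / 2 = z.2
        field_simp
        ring
    · intro z
      ext
      · rfl
      · show 2 * ((z.2 - W.a₁ * z.1 - W.a₃) / 2) + W.a₁ * z.1 + W.a₃ = z.2
        field_simp
        ring
    · intro z
      show z.2 ^ 2 + W.a₁ * z.1 * z.2 + W.a₃ * z.2 =
        z.1 ^ 3 + W.a₂ * z.1 ^ 2 + W.a₄ * z.1 + W.a₆ ↔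
        (2 * z.2 + W.a₁ * z.1 + W.a₃) ^ 2 =
          4 * z.1 ^ 3 + W.b₂ * z.1 ^ 2 + 2 * W.b₄ * z.1 + W.b₆
      have hb2 : W.b₂ = W.a₁ ^ 2 + 4 * W.a₂ := rfl
      have hb4 : W.b₄ = 2 * W.a₄ + W.a₁ * W.a₃ := rfl
      have hb6 : W.b₆ = W.a₃ ^ 2 + 4 * W.a₆ := rfl
      rw [hb2, hb4, hb6]
      constructor
      · intro h
        linear_combination 4 * h
      · intro h
        apply mul_left_cancel₀ h4
        linear_combination h
  rw [e1]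
  -- the double root
  have hb8 := W.b_relation
  have hD : W.Δ = -W.b₂ ^ 2 * W.b₈ - 8 * W.b₄ ^ 3 - 27 * W.b₆ ^ 2 + 9 * W.b₂ * W.b₄ * W.b₆ := rfl
  rw [hΔ] at hD
  have hc4 : W.c₄ = W.b₂ ^ 2 - 24 * W.b₄ := rfl
  have hc6 : W.c₆ = -W.b₂ ^ 3 + 36 * W.b₂ * W.b₄ - 216 * W.b₆ := rfl
  obtain ⟨u, hu⟩ : ∃ u : F, u * W.c₄ = 18 * W.b₆ - W.b₂ * W.b₄ :=
    ⟨(18 * W.b₆ - W.b₂ * W.b₄) / W.c₄, div_mul_cancel₀ _ hc⟩
  have r1 : 2 * W.b₄ + 12 * u ^ 2 + 2 * W.b₂ * u = 0 := by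
    have h5 : W.c₄ ^ 2 * (2 * W.b₄ + 12 * u ^ 2 + 2 * W.b₂ * u) = 0 := by
      have h6 : W.c₄ ^ 2 * (2 * W.b₄ + 12 * u ^ 2 + 2 * W.b₂ * u) =
          2 * W.b₄ * W.c₄ ^ 2 + 12 * (u * W.c₄) ^ 2 + 2 * W.b₂ * W.c₄ * (u * W.c₄) := by ring
      rw [h6, hu, hc4]
      linear_combination (144 : F) * hD - 36 * W.b₂ ^ 2 * hb8
    exact (mul_eq_zero.1 h5).resolve_left (pow_ne_zero 2 hc)
  have r2 : W.b₆ - u ^ 2 * (W.b₂ + 8 * u) = 0 := by
    have h5 : W.c₄ ^ 3 * (W.b₆ - u ^ 2 * (W.b₂ + 8 * u)) = 0 := by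
      have h6 : W.c₄ ^ 3 * (W.b₆ - u ^ 2 * (W.b₂ + 8 * u)) =
          W.b₆ * W.c₄ ^ 3 - (u * W.c₄) ^ 2 * (W.b₂ * W.c₄ + 8 * (u * W.c₄)) := by ring
      rw [h6, hu, hc4]
      linear_combination (-(4 : F) * (432 * W.b₆ - W.b₂ ^ 3)) * hD +
        (432 * W.b₆ - W.b₂ ^ 3) * W.b₂ ^ 2 * hb8
    exact (mul_eq_zero.1 h5).resolve_left (pow_ne_zero 3 hc)
  have e2 : Nat.card {z : F × F //
      z.2 ^ 2 = 4 * z.1 ^ 3 + W.b₂ * z.1 ^ 2 + 2 * W.b₄ * z.1 + W.b₆} =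
      Nat.card {z : F × F // z.2 ^ 2 = (z.1 - u) ^ 2 * (4 * z.1 + (W.b₂ + 8 * u))} := by
    apply Nat.card_congr
    refine Equiv.subtypeEquivRight fun z => ?_
    have h7 : 4 * z.1 ^ 3 + W.b₂ * z.1 ^ 2 + 2 * W.b₄ * z.1 + W.b₆ =
        (z.1 - u) ^ 2 * (4 * z.1 + (W.b₂ + 8 * u)) := by
      linear_combination z.1 * r1 + r2
    rw [h7]
  rw [e2, count_node hF u 4 _ h4]
  have h8 : (4 * u + (W.b₂ + 8 * u)) * W.c₄ = -W.c₆ := by
    have h9 : (4 * u + (W.b₂ + 8 * u)) * W.c₄ = 12 * (u * W.c₄) + W.b₂ * W.c₄ := by ring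
    rw [h9, hu, hc4, hc6]
    ring
  have h10 : W.c₄ ^ 3 = W.c₆ ^ 2 := by
    have h11 := W.c_relation
    rw [hΔ, mul_zero] at h11
    exact (sub_eq_zero.1 h11.symm)
  have hc6' : W.c₆ ≠ 0 := by
    intro h
    rw [h, zero_pow two_ne_zero] at h10
    exact hc (pow_eq_zero_iff three_ne_zero |>.1 h10)
  have h12 : quadraticChar F W.c₄ = 1 := by
    have h13 : quadraticChar F (W.c₄ * W.c₄ ^ 2) = quadraticChar F (W.c₆ ^ 2) := by
      rw [← h10]; congr 1; ring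
    rw [map_mul, quadraticChar_sq_one' hc, quadraticChar_sq_one' hc6', mul_one] at h13
    exact h13
  have h14 : quadraticChar F (4 * u + (W.b₂ + 8 * u)) = quadraticChar F (-W.c₆) := by
    rw [← h8, map_mul, h12, mul_one]
  rw [h14]

end count

lemma two_dec : ∀ a₂ a₃ a₄ a₆ : ZMod 2, (⟨1, a₂, a₃, a₄, a₆⟩ : WeierstrassCurve (ZMod 2)).Δ = 0 →
    Fintype.card {z : ZMod 2 × ZMod 2 // z.2 ^ 2 + 1 * z.1 * z.2 + a₃ * z.2 =
      z.1 ^ 3 + a₂ * z.1 ^ 2 + a₄ * z.1 + a₆} = if a₂ + a₃ = 0 then 1 else 3 := by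
  unfold WeierstrassCurve.Δ WeierstrassCurve.b₂ WeierstrassCurve.b₄ WeierstrassCurve.b₆
    WeierstrassCurve.b₈
  decide

lemma ap_two {W : WeierstrassCurve ℤ} (h1 : W.a₁ % 2 = 1) (hΔ : (2 : ℤ) ∣ W.Δ) :
    ap W 2 = if (W.a₂ + W.a₃) % 2 = 0 then 1 else -1 := by
  have e1 : (W.a₁ : ZMod 2) = 1 := by
    have : ((W.a₁ - 1 : ℤ) : ZMod 2) = 0 := (ZMod.intCast_zmod_eq_zero_iff_dvd _ 2).2 (by omega)
    push_cast at this
    exact sub_eq_zero.1 this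
  have e2 : (⟨1, (W.a₂ : ZMod 2), (W.a₃ : ZMod 2), (W.a₄ : ZMod 2), (W.a₆ : ZMod 2)⟩ :
      WeierstrassCurve (ZMod 2)).Δ = 0 := by
    have h3 : (W.map (Int.castRingHom (ZMod 2))).Δ = 0 := by
      rw [WeierstrassCurve.map_Δ]
      exact (ZMod.intCast_zmod_eq_zero_iff_dvd _ 2).2 hΔ
    have h4 : W.map (Int.castRingHom (ZMod 2)) =
        ⟨1, (W.a₂ : ZMod 2), (W.a₃ : ZMod 2), (W.a₄ : ZMod 2), (W.a₆ : ZMod 2)⟩ := by
      ext
      · simpa using e1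
      all_goals simp
    rwa [h4] at h3
  have h5 := two_dec _ _ _ _ e2
  unfold ap
  have h6 : Nat.card {z : ZMod 2 × ZMod 2 // z.2 ^ 2 + (W.a₁ : ZMod 2) * z.1 * z.2 +
      (W.a₃ : ZMod 2) * z.2 = z.1 ^ 3 + (W.a₂ : ZMod 2) * z.1 ^ 2 + (W.a₄ : ZMod 2) * z.1 +
        (W.a₆ : ZMod 2)} = if (W.a₂ : ZMod 2) + (W.a₃ : ZMod 2) = 0 then 1 else 3 := by
    rw [← h5, Nat.card_eq_fintype_card]
    simp only [e1]
  rw [h6]
  have h7 : ((W.a₂ : ZMod 2) + (W.a₃ : ZMod 2) = 0) ↔ (W.a₂ + W.a₃) % 2 = 0 := by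
    have : (W.a₂ : ZMod 2) + (W.a₃ : ZMod 2) = ((W.a₂ + W.a₃ : ℤ) : ZMod 2) := by push_cast; rfl
    rw [this, ZMod.intCast_zmod_eq_zero_iff_dvd]
    push_cast
    exact Int.dvd_iff_emod_eq_zero
  simp only [h7]
  split_ifs <;> norm_num


end AP

open AP in
theorem t_AP : S_AP := by
  classical
  intro W p hp hΔ hc
  unfold chi
  by_cases hp2 : p = 2
  · subst hp2
    rw [if_pos rfl]
    have hc4 : W.c₄ = W.b₂ ^ 2 - 24 * W.b₄ := rfl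
    have hb2 : W.b₂ = W.a₁ ^ 2 + 4 * W.a₂ := rfl
    have ha1 : W.a₁ % 2 = 1 := by
      by_contra h
      apply hc
      obtain ⟨t, ht⟩ : ∃ t, W.a₁ = 2 * t := ⟨W.a₁ / 2, by omega⟩
      refine ⟨(2 * t ^ 2 + 2 * W.a₂) * W.b₂ - 12 * W.b₄, ?_⟩
      rw [hc4, hb2, ht]
      push_cast
      ring
    rw [ap_two ha1 (by exact_mod_cast hΔ)]
    obtain ⟨t, ht⟩ : ∃ t, W.a₁ = 2 * t + 1 := ⟨W.a₁ / 2, by omega⟩
    obtain ⟨s, hs⟩ : ∃ s, t * (t + 1) = 2 * s := by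
      obtain ⟨s, hs⟩ := (Int.even_mul_succ_self t)
      exact ⟨s, by rw [hs]; ring⟩
    have hb2' : W.b₂ = 1 + 4 * (2 * s + W.a₂) := by
      rw [hb2, ht]
      linear_combination 4 * hs
    have hb4 : W.b₄ = W.a₃ + 2 * (W.a₄ + t * W.a₃) := by
      have : W.b₄ = 2 * W.a₄ + W.a₁ * W.a₃ := rfl
      rw [this, ht]; ring
    have hc6 : W.c₆ = -W.b₂ ^ 3 + 36 * W.b₂ * W.b₄ - 216 * W.b₆ := rfl
    obtain ⟨K, hK⟩ : ∃ K, -W.c₆ = 8 * K + 1 + 4 * (W.a₂ + W.a₃) := by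
      refine ⟨3 * s + W.a₂ + 6 * (2 * s + W.a₂) ^ 2 + 8 * (2 * s + W.a₂) ^ 3 - 5 * W.a₃ -
        9 * (W.a₄ + t * W.a₃) - 18 * (2 * s + W.a₂) * (W.a₃ + 2 * (W.a₄ + t * W.a₃)) +
        27 * W.b₆, ?_⟩
      rw [hc6, hb2', hb4]
      ring
    have hiff : (W.a₂ + W.a₃) % 2 = 0 ↔ (-W.c₆) % 8 = 1 := by omega
    simp only [hiff]
  · rw [if_neg hp2]
    have : Fact p.Prime := ⟨hp⟩
    have hchar : ringChar (ZMod p) ≠ 2 := by
      rw [ZMod.ringChar_zmod_n]; exact hp2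
    have h1 : (W.map (Int.castRingHom (ZMod p))).Δ = 0 := by
      rw [WeierstrassCurve.map_Δ]
      exact (ZMod.intCast_zmod_eq_zero_iff_dvd _ p).2 hΔ
    have h2 : (W.map (Int.castRingHom (ZMod p))).c₄ ≠ 0 := by
      rw [WeierstrassCurve.map_c₄]
      exact fun h => hc ((ZMod.intCast_zmod_eq_zero_iff_dvd _ p).1 h)
    have h3 := node_card hchar (W.map (Int.castRingHom (ZMod p))) h1 h2
    rw [WeierstrassCurve.map_c₆, ZMod.card] at h3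
    unfold ap
    have h4 : (Nat.card {z : ZMod p × ZMod p // z.2 ^ 2 + W.a₁ * z.1 * z.2 + W.a₃ * z.2 =
        z.1 ^ 3 + W.a₂ * z.1 ^ 2 + W.a₄ * z.1 + W.a₆} : ℤ) =
        p - quadraticChar (ZMod p) (-(Int.castRingHom (ZMod p) W.c₆)) := h3
    rw [h4, ← jacobiSym.legendreSym.to_jacobiSym]
    unfold legendreSym
    push_cast
    simp

end Pool.Agent.K1H81.TT
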