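import Pool.Agent.K1H81.TT.Stm
import Pool.Agent.H446R3.SK.Mob

set_option autoImplicit false

/-! Project TT, piece DAV: Davenport's estimate in residue classes and intervals. -/

namespace Pool.Agent.K1H81.TT

open Finset Filter Topology

namespace DAV

open Pool.Agent.H446R3.SK (mt norm_mt_le dav_eps)

lemma e_add (x y : ℝ) : e (x + y) = e x * e y := by
  unfold e
  rw [← Complex.exp_add]
  congr 1
  push_cast
  ring

lemma e_zero : e 0 = 1 := by simp [e]

lemma norm_e (x : ℝ) : ‖e x‖ = 1 := by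
  unfold e
  have : (2 * Real.pi * Complex.I * x : ℂ) = ((2 * Real.pi * x : ℝ) : ℂ) * Complex.I := by
    push_cast; ring
  rw [this, Complex.norm_exp_ofReal_mul_I]

lemma e_int (z : ℤ) : e z = 1 := by
  unfold e
  rw [Complex.exp_eq_one_iff]
  exact ⟨z, by push_cast; ring⟩

lemma e_natmul (k : ℕ) (x : ℝ) : e (k * x) = e x ^ k := by
  unfold e
  rw [← Complex.exp_nat_mul]
  congr 1
  push_cast
  ring

/-- orthogonality -/
lemma orth (R : ℕ) (hR : 0 < R) (z : ℤ) :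
    ∑ k ∈ range R, e (k * ((z : ℝ) / R)) = if (R : ℤ) ∣ z then (R : ℂ) else 0 := by
  have hR0 : (R : ℝ) ≠ 0 := by positivity
  simp_rw [e_natmul]
  split_ifs with h
  · obtain ⟨c, rfl⟩ := h
    have h1 : e (((R : ℤ) * c : ℤ) / (R : ℝ)) = 1 := by
      have : (((R : ℤ) * c : ℤ) : ℝ) / (R : ℝ) = (c : ℝ) := by
        push_cast
        field_simp
      rw [this, e_int]
    rw [h1]
    simp
  · have h1 : e ((z : ℝ) / R) ≠ 1 := by
      intro hc
      unfold e at hc
      rw [Complex.exp_eq_one_iff] at hc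
      obtain ⟨n, hn⟩ := hc
      apply h
      have hpi : (2 * Real.pi * Complex.I : ℂ) ≠ 0 := Complex.two_pi_I_ne_zero
      have h2 : ((z : ℝ) / R : ℝ) = (n : ℝ) := by
        have : (((z : ℝ) / R : ℝ) : ℂ) = (n : ℂ) := by
          apply mul_left_cancel₀ hpi
          rw [hn]; ring
        exact_mod_cast this
      rw [div_eq_iff hR0] at h2
      refine ⟨n, ?_⟩
      have h3 : (z : ℝ) = ((R * n : ℤ) : ℝ) := by rw [h2]; push_cast; ring
      exact_mod_cast h3
    have h2 : e ((z : ℝ) / R) ^ R = 1 := by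
      rw [← e_natmul]
      have : (R : ℝ) * ((z : ℝ) / R) = z := by field_simp
      rw [this, e_int]
    have h3 := mul_neg_geom_sum (e ((z : ℝ) / R)) R
    rw [h2, sub_self] at h3
    rcases mul_eq_zero.1 h3 with h4 | h4
    · exact absurd (sub_eq_zero.1 h4).symm h1
    · exact h4

lemma mt_eq (α : ℝ) (n : ℕ) :
    mt α n = ((ArithmeticFunction.moebius n : ℤ) : ℂ) * e (n * α) := by
  unfold Pool.Agent.H446R3.SK.mt e
  congr 2
  push_cast
  ring

/-- initial segments -/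
lemma init (ε : ℝ) (hε : 0 < ε) : ∃ N1 : ℕ, ∀ N ≥ N1, ∀ T ≤ N, ∀ α : ℝ,
    ‖∑ n ∈ range T, mt α n‖ ≤ ε * N := by
  obtain ⟨N0, hN0⟩ := dav_eps ε hε
  refine ⟨⌈(N0 : ℝ) / ε⌉₊, fun N hN T hT α => ?_⟩
  rcases le_or_gt N0 T with h | h
  · refine (hN0 T h α).trans ?_
    have : (T : ℝ) ≤ N := by exact_mod_cast hT
    exact mul_le_mul_of_nonneg_left this hε.le
  · have h1 : ‖∑ n ∈ range T, mt α n‖ ≤ T := by
      refine (norm_sum_le _ _).trans ?_
      refine (Finset.sum_le_sum fun n _ => norm_mt_le α n).trans ?_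
      simp
    have h2 : (T : ℝ) ≤ N0 := by exact_mod_cast h.le
    have h3 : (N0 : ℝ) / ε ≤ N := (Nat.le_ceil _).trans (by exact_mod_cast hN)
    rw [div_le_iff₀ hε] at h3
    linarith

/-- initial segments in a residue class -/
lemma cls (R : ℕ) (hR : 0 < R) (ε : ℝ) (hε : 0 < ε) : ∃ N1 : ℕ, ∀ N ≥ N1, ∀ T ≤ N,
    ∀ (α : ℝ) (ρ : ℤ),
    ‖∑ n ∈ range T, (if (R : ℤ) ∣ (n : ℤ) - ρ then mt α n else 0)‖ ≤ ε * N := by
  obtain ⟨N1, hN1⟩ := init ε hε
  refine ⟨N1, fun N hN T hT α ρ => ?_⟩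
  have hR0 : (R : ℂ) ≠ 0 := by exact_mod_cast hR.ne'
  have hRr : (0 : ℝ) < R := by exact_mod_cast hR
  have h1 : ∑ n ∈ range T, (if (R : ℤ) ∣ (n : ℤ) - ρ then mt α n else 0) =
      (R : ℂ)⁻¹ * ∑ k ∈ range R, e (-(k * ((ρ : ℝ) / R))) *
        ∑ n ∈ range T, mt (α + (k : ℝ) / R) n := by
    have h2 : ∀ n : ℕ, (if (R : ℤ) ∣ (n : ℤ) - ρ then mt α n else 0) =
        (R : ℂ)⁻¹ * ∑ k ∈ range R, e (-(k * ((ρ : ℝ) / R))) * mt (α + (k : ℝ) / R) n := by
      intro n
      have h3 := orth R hR ((n : ℤ) - ρ)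
      have h4 : ∀ k ∈ range R, e (-(k * ((ρ : ℝ) / R))) * mt (α + (k : ℝ) / R) n =
          mt α n * e (k * ((((n : ℤ) - ρ : ℤ) : ℝ) / R)) := by
        intro k _
        rw [mt_eq, mt_eq]
        have h5 : e (-(k * ((ρ : ℝ) / R))) * e (n * (α + (k : ℝ) / R)) =
            e (n * α) * e (k * ((((n : ℤ) - ρ : ℤ) : ℝ) / R)) := by
          rw [← e_add, ← e_add]
          congr 1
          push_cast
          ring
        calc e (-(k * ((ρ : ℝ) / R))) *
              (((ArithmeticFunction.moebius n : ℤ) : ℂ) * e (n * (α + (k : ℝ) / R)))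
            = ((ArithmeticFunction.moebius n : ℤ) : ℂ) *
              (e (-(k * ((ρ : ℝ) / R))) * e (n * (α + (k : ℝ) / R))) := by ring
          _ = _ := by rw [h5]; ring
      rw [Finset.sum_congr rfl h4, ← Finset.mul_sum, h3]
      split_ifs
      · field_simp
      · simp
    rw [Finset.sum_congr rfl fun n _ => h2 n, ← Finset.mul_sum, Finset.sum_comm]
    congr 1
    refine Finset.sum_congr rfl fun k _ => ?_
    rw [Finset.mul_sum]
  rw [h1, norm_mul, norm_inv, Complex.norm_natCast]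
  have h6 : ‖∑ k ∈ range R, e (-(k * ((ρ : ℝ) / R))) *
        ∑ n ∈ range T, mt (α + (k : ℝ) / R) n‖ ≤ R * (ε * N) := by
    refine (norm_sum_le _ _).trans ?_
    refine (Finset.sum_le_sum (g := fun _ => ε * (N : ℝ)) fun k _ => ?_).trans ?_
    · rw [norm_mul, norm_e, one_mul]
      exact hN1 N hN T hT _
    · simp
  calc (R : ℝ)⁻¹ * _ ≤ (R : ℝ)⁻¹ * (R * (ε * N)) := mul_le_mul_of_nonneg_left h6 (by positivity)
    _ = ε * N := by field_simp

/-- primitive of a function on the integers -/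
noncomputable def prim (F : ℤ → ℂ) (t : ℤ) : ℂ :=
  (∑ n ∈ range (t + 1).toNat, F n) - ∑ n ∈ range (-t).toNat, F (-n)

lemma prim_succ (F : ℤ → ℂ) (h0 : F 0 = 0) (t : ℤ) : prim F (t + 1) = prim F t + F (t + 1) := by
  unfold prim
  rcases lt_trichotomy t (-1) with h | h | h
  · have h1 : (t + 1 + 1).toNat = 0 := by omega
    have h2 : (t + 1).toNat = 0 := by omega
    have h3 : (-t).toNat = (-(t + 1)).toNat + 1 := by omega
    rw [h1, h2, h3, Finset.sum_range_succ (n := (-(t + 1)).toNat)]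
    have h4 : (-(((-(t + 1)).toNat : ℕ) : ℤ)) = t + 1 := by omega
    rw [h4]
    ring
  · subst h
    simp [h0]
  · have h1 : (t + 1 + 1).toNat = (t + 1).toNat + 1 := by omega
    have h2 : (-(t + 1)).toNat = 0 := by omega
    have h3 : (-t).toNat = 0 := by omega
    rw [h1, h2, h3, Finset.sum_range_succ]
    have h4 : (((t + 1).toNat : ℕ) : ℤ) = t + 1 := by omega
    rw [h4]
    ring

lemma sum_Ioc (F : ℤ → ℂ) (h0 : F 0 = 0) (s t : ℤ) (hst : s ≤ t) :
    ∑ u ∈ Ioc s t, F u = prim F t - prim F s := by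
  induction t, hst using Int.le_induction with
  | base => simp
  | succ t ht ih =>
    rw [← Finset.insert_Ioc_right_eq_Ioc_add_one (by omega : s ≤ t), Finset.sum_insert (by simp), ih,
      prim_succ F h0]
    ring

end DAV

open DAV in
open Pool.Agent.H446R3.SK (mt) in
/-- **Piece DAV.** -/
theorem t_DAV : S_DAV := by
  intro R hR ε hε
  obtain ⟨N1, hN1⟩ := cls R hR (ε / 8) (by positivity)
  refine ⟨max N1 1, fun N hN β ρ s t hs ht => ?_⟩
  have hNN1 : N1 ≤ N := (le_max_left _ _).trans hN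
  have hN1' : 1 ≤ N := (le_max_right _ _).trans hN
  have hNr : (1 : ℝ) ≤ N := by exact_mod_cast hN1'
  rcases lt_or_ge t s with hts | hst
  · rw [Finset.Ioc_eq_empty (by omega)]
    simp
    positivity
  set F : ℤ → ℂ := fun u => if u ≡ ρ [ZMOD R] then
    ((ArithmeticFunction.moebius u.natAbs : ℤ) : ℂ) * e (u * β) else 0 with hF
  have h0 : F 0 = 0 := by simp [hF]
  rw [Finset.sum_filter]
  have h1 : ∑ u ∈ Ioc s t, (if u ≡ ρ [ZMOD R] then
    ((ArithmeticFunction.moebius u.natAbs : ℤ) : ℂ) * e (u * β) else 0) = prim F t - prim F s :=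
    sum_Ioc F h0 s t hst
  rw [h1]
  have hpos : ∀ T : ℕ, T ≤ N + 1 → ‖∑ n ∈ range T, F n‖ ≤ ε / 8 * (N + 1 : ℕ) := by
    intro T hT
    have h2 := hN1 (N + 1) (by omega) T hT β ρ
    refine le_trans (le_of_eq ?_) h2
    congr 1
    refine Finset.sum_congr rfl fun n _ => ?_
    simp only [hF]
    have h3 : ((n : ℤ) ≡ ρ [ZMOD R]) ↔ (R : ℤ) ∣ (n : ℤ) - ρ := by
      rw [Int.modEq_comm, Int.modEq_iff_dvd]
    simp only [h3, Int.natAbs_natCast, Int.cast_natCast, mt_eq]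
  have hneg : ∀ T : ℕ, T ≤ N + 1 → ‖∑ n ∈ range T, F (-n)‖ ≤ ε / 8 * (N + 1 : ℕ) := by
    intro T hT
    have h2 := hN1 (N + 1) (by omega) T hT (-β) (-ρ)
    refine le_trans (le_of_eq ?_) h2
    congr 1
    refine Finset.sum_congr rfl fun n _ => ?_
    simp only [hF]
    have h3 : ((-(n : ℤ)) ≡ ρ [ZMOD R]) ↔ (R : ℤ) ∣ (n : ℤ) - -ρ := by
      rw [Int.modEq_iff_dvd]
      have : ρ - -(n : ℤ) = (n : ℤ) - -ρ := by ring
      rw [this]
    have h4 : (((-(n : ℤ) : ℤ) : ℝ) * β) = (n : ℝ) * -β := by push_cast; ring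
    simp only [h3, Int.natAbs_neg, Int.natAbs_natCast, h4, mt_eq]
  have hprim : ∀ u : ℤ, -(N : ℤ) ≤ u → u ≤ N → ‖prim F u‖ ≤ 2 * (ε / 8 * (N + 1 : ℕ)) := by
    intro u hu1 hu2
    unfold prim
    refine (norm_sub_le _ _).trans ?_
    have h5 := hpos (u + 1).toNat (by omega)
    have h6 := hneg (-u).toNat (by omega)
    linarith
  have h7 := hprim t (by omega) ht
  have h8 := hprim s hs (by omega)
  have h9 : ((N + 1 : ℕ) : ℝ) ≤ 2 * N := by push_cast; linarith
  calc ‖prim F t - prim F s‖ ≤ ‖prim F t‖ + ‖prim F s‖ := norm_sub_le _ _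
    _ ≤ 4 * (ε / 8 * (N + 1 : ℕ)) := by linarith
    _ ≤ 4 * (ε / 8 * (2 * N)) := by
        have : 0 ≤ ε / 8 := by positivity
        nlinarith [mul_le_mul_of_nonneg_left h9 this]
    _ = ε * N := by ring

end Pool.Agent.K1H81.TT
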