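import Pool.Agent.K1H81.TT.Stm2

/-! # TT-FB: the limit (helper4 for helper81, project TT) -/

set_option autoImplicit false

namespace Pool.Agent.K1H81.TT

open Finset Filter Topology

namespace FB

lemma gcd_one_of_not_dvd {a : ℤ} {p : ℕ} (hp : p.Prime) (h : ¬ (p : ℤ) ∣ a) : a.gcd p = 1 := by
  rw [Int.gcd, Int.natAbs_natCast, Nat.gcd_comm]
  exact (Nat.Prime.coprime_iff_not_dvd hp).2 fun h' => h (Int.natCast_dvd.2 h')

lemma unit_prod (s : Finset ℕ) (f : ℕ → ℤ) (h : ∀ p ∈ s, f p = 1 ∨ f p = -1) :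
    IsUnit (∏ p ∈ s, (-f p)) := by
  refine Finset.prod_induction _ IsUnit (fun _ _ => IsUnit.mul) isUnit_one fun p hp => ?_
  rw [Int.isUnit_iff]
  rcases h p hp with h | h <;> rw [h] <;> norm_num

end FB

theorem w_sign : ∀ A D : ℤ, Adm A D → w A D = 1 ∨ w A D = -1 := by
  intro A D hAD
  obtain ⟨hA, _, _, hco⟩ := hAD
  rw [← Int.isUnit_iff, w, IsUnit.neg_iff]
  have hcop : ∀ p : ℕ, p.Prime → (p : ℤ) ∣ D → ¬ (p : ℤ) ∣ A := by
    intro p hp h1 h2
    have h3 := hco.isUnit_of_dvd' h2 h1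
    rw [Int.isUnit_iff] at h3
    have := hp.two_le
    omega
  refine IsUnit.mul (FB.unit_prod _ _ fun p hp => ?_) (FB.unit_prod _ _ fun p hp => ?_)
  · have hpp := Nat.prime_of_mem_primeFactors hp
    have hd : (p : ℤ) ∣ D := Int.natCast_dvd.2 (Nat.dvd_of_mem_primeFactors hp)
    unfold chi
    split_ifs with h1 h2
    · exact Or.inl rfl
    · exact Or.inr rfl
    · exact jacobiSym.eq_one_or_neg_one (FB.gcd_one_of_not_dvd hpp (hcop p hpp hd))
  · have hpp := Nat.prime_of_mem_primeFactors hp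
    have hd : (p : ℤ) ∣ EE A D := Int.natCast_dvd.2 (Nat.dvd_of_mem_primeFactors hp)
    refine jacobiSym.eq_one_or_neg_one (FB.gcd_one_of_not_dvd hpp fun h => ?_)
    have hpI : Prime (p : ℤ) := Nat.prime_iff_prime_int.1 hpp
    have hAodd : ¬ (2 : ℤ) ∣ A := by omega
    have hp2 : p ≠ 2 := by
      rintro rfl
      unfold EE at hd
      have h1 : (2 : ℤ) ∣ A ^ 2 := by
        have : (2 : ℤ) ∣ 64 * D := ⟨32 * D, by ring⟩
        have h2 := dvd_add (show (2 : ℤ) ∣ A ^ 2 - 64 * D from by exact_mod_cast hd) this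
        simpa using h2
      exact hAodd (Int.prime_two.dvd_of_dvd_pow h1)
    have hp2' : ¬ (p : ℤ) ∣ 2 := by
      intro h2
      have h3 : p ∣ 2 := by exact_mod_cast h2
      exact hp2 ((Nat.prime_dvd_prime_iff_eq hpp Nat.prime_two).1 h3)
    have hpA : (p : ℤ) ∣ A := by
      have h1 : (p : ℤ) ∣ 2 * A := by
        have := (dvd_neg (a := (p : ℤ))).2 h
        simpa using this
      exact (hpI.dvd_or_dvd h1).resolve_left hp2'
    have hpD : (p : ℤ) ∣ D := by
      unfold EE at hd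
      have h1 : (p : ℤ) ∣ 64 * D := by
        have h2 := dvd_sub (dvd_pow hpA two_ne_zero : (p : ℤ) ∣ A ^ 2) hd
        simpa using h2
      refine (hpI.dvd_or_dvd h1).resolve_left fun h2 => hp2' ?_
      rw [show (64 : ℤ) = 2 ^ 6 by norm_num] at h2
      exact hpI.dvd_of_dvd_pow h2
    exact hcop p hpp hpD hpA

namespace FB

/-- the scale -/
noncomputable def X (Z : ℕ) : ℝ := (Z : ℝ) ^ ((1 : ℝ) / 2)

lemma X_tendsto : Tendsto X atTop atTop :=
  (tendsto_rpow_atTop (by norm_num : (0 : ℝ) < 1 / 2)).comp tendsto_natCast_atTop_atTop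

lemma X_nonneg (Z : ℕ) : 0 ≤ X Z := Real.rpow_nonneg (Nat.cast_nonneg _) _

lemma cube (x : ℝ) (hx : 0 ≤ x) : (x ^ ((1 : ℝ) / 6)) ^ 3 = x ^ ((1 : ℝ) / 2) := by
  rw [← Real.rpow_natCast, ← Real.rpow_mul hx]
  norm_num

lemma Yh_cube_le (b : Bool) (Z : ℕ) : (Yh b Z) ^ 3 ≤ 3 * X Z := by
  have hZ : (0 : ℝ) ≤ Z := Nat.cast_nonneg _
  have h3 : 3 * X Z = (9 * (Z : ℝ)) ^ ((1 : ℝ) / 2) := by
    rw [Real.mul_rpow (by norm_num) hZ, X, ← Real.sqrt_eq_rpow 9,
      show (9 : ℝ) = 3 ^ 2 by norm_num, Real.sqrt_sq (by norm_num)]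
  rw [h3]
  cases b
  · simp only [Yh, Bool.false_eq_true, if_false]
    rw [cube _ (by positivity)]
    refine Real.rpow_le_rpow (by positivity) ?_ (by norm_num)
    rw [div_le_iff₀ (by norm_num)]
    linarith
  · simp only [Yh, if_true]
    rw [cube _ (by positivity)]
    refine Real.rpow_le_rpow (by positivity) ?_ (by norm_num)
    linarith

lemma Yh_false_cube (Z : ℕ) : (Yh false Z) ^ 3 = X Z / (78732 : ℝ) ^ ((1 : ℝ) / 2) := by
  have hZ : (0 : ℝ) ≤ Z := Nat.cast_nonneg _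
  simp only [Yh, Bool.false_eq_true, if_false]
  rw [cube _ (by positivity), Real.div_rpow hZ (by norm_num), X]

lemma Yh_tendsto (b : Bool) : Tendsto (Yh b) atTop atTop := by
  cases b
  · show Tendsto (fun Z : ℕ => ((Z : ℝ) / 78732) ^ ((1 : ℝ) / 6)) atTop atTop
    refine (tendsto_rpow_atTop (by norm_num : (0 : ℝ) < 1 / 6)).comp ?_
    exact tendsto_natCast_atTop_atTop.atTop_div_const (by norm_num)
  · show Tendsto (fun Z : ℕ => (27 * (Z : ℝ) / 4) ^ ((1 : ℝ) / 6)) atTop atTop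
    refine (tendsto_rpow_atTop (by norm_num : (0 : ℝ) < 1 / 6)).comp ?_
    exact (tendsto_natCast_atTop_atTop.const_mul_atTop (by norm_num)).atTop_div_const (by norm_num)

lemma small (C ε : ℝ) (hC : 0 < C) (hε : 0 < ε) :
    ∀ᶠ Z : ℕ in atTop, C * (Z : ℝ) ^ ((1 : ℝ) / 3) ≤ ε * X Z := by
  have h := ((tendsto_rpow_neg_atTop (by norm_num : (0 : ℝ) < 1 / 6)).comp
    (tendsto_natCast_atTop_atTop (R := ℝ))).eventually (ge_mem_nhds (show 0 < ε / C by positivity))
  filter_upwards [h, eventually_ge_atTop 1] with Z hZ hZ1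
  have hZ0 : (0 : ℝ) < Z := by exact_mod_cast hZ1
  simp only [Function.comp_apply] at hZ
  have h1 : (Z : ℝ) ^ ((1 : ℝ) / 3) = X Z * (Z : ℝ) ^ (-((1 : ℝ) / 6)) := by
    rw [X, ← Real.rpow_add hZ0]
    norm_num
  rw [h1]
  have h2 := mul_le_mul_of_nonneg_left hZ (mul_nonneg hC.le (X_nonneg Z))
  calc C * (X Z * (Z : ℝ) ^ (-((1 : ℝ) / 6))) = C * X Z * (Z : ℝ) ^ (-((1 : ℝ) / 6)) := by ring
    _ ≤ C * X Z * (ε / C) := h2
    _ = ε * X Z := by field_simp

/-- the sum of the root numbers -/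
noncomputable def W0 (Z : ℕ) : ℤ :=
  ∑ t : Bool, ∑ three : Bool, ∑ z ∈ FS t (three = true) (Yh three Z), w z.1 z.2

lemma mem_adm {t : Bool} {P : Prop} {Y : ℝ} {z : ℤ × ℤ} (h : z ∈ FS t P Y) : Adm z.1 z.2 := by
  classical
  unfold FS at h
  rw [Finset.mem_filter] at h
  exact h.2.1

/-- for a set of signs -/
lemma sign_count (s : Finset (ℤ × ℤ)) (f : ℤ × ℤ → ℤ) (hf : ∀ z ∈ s, f z = 1 ∨ f z = -1) (e : ℤ)
    (he : e = 1 ∨ e = -1) : by classical exact
    2 * (((s.filter fun z => f z = e).card : ℕ) : ℤ) - (s.card : ℤ) = e * ∑ z ∈ s, f z := by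
  classical
  rw [Finset.card_filter, Finset.card_eq_sum_ones, Finset.mul_sum]
  push_cast
  rw [Finset.mul_sum, ← Finset.sum_sub_distrib]
  refine Finset.sum_congr rfl fun z hz => ?_
  rcases hf z hz with h | h <;> rcases he with h' | h' <;> simp [h, h']

lemma II_sign (Z : ℕ) (e : ℤ) (he : e = 1 ∨ e = -1) :
    2 * (II (fun w => w = e) Z : ℤ) - (II (fun _ => True) Z : ℤ) = e * W0 Z := by
  classical
  unfold II W0
  push_cast
  simp only [Finset.mul_sum, ← Finset.sum_sub_distrib]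
  refine Finset.sum_congr rfl fun t _ => Finset.sum_congr rfl fun b _ => ?_
  have h := sign_count (FS t (b = true) (Yh b Z)) (fun z => w z.1 z.2)
    (fun z hz => w_sign _ _ (mem_adm hz)) e he
  simp only [Finset.filter_true, Finset.mul_sum] at h ⊢
  convert h using 3

end FB

theorem t_FB (hF : S_FA) (hA : S_ANA) (hL : S_LOW)
    (_hw : ∀ A D : ℤ, Adm A D → w A D = 1 ∨ w A D = -1) : S_FIN := by
  classical
  obtain ⟨C, hC, hF⟩ := hF
  obtain ⟨c, hc, Y0, hL⟩ := hL
  -- the sum of the root numbers is small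
  have hsum : ∀ ε : ℝ, 0 < ε → ∀ᶠ Z : ℕ in atTop, |(FB.W0 Z : ℝ)| ≤ ε * FB.X Z := by
    intro ε hε
    have h1 : ∀ (t b : Bool), ∀ᶠ Z : ℕ in atTop,
        |((∑ z ∈ FS t (b = true) (Yh b Z), w z.1 z.2 : ℤ) : ℝ)| ≤ ε / 4 * FB.X Z := by
      intro t b
      obtain ⟨Y1, h1⟩ := hA t (b = true) (ε / 12) (by positivity)
      filter_upwards [(FB.Yh_tendsto b).eventually_ge_atTop Y1] with Z hZ
      refine (h1 _ hZ).trans ?_
      have h2 := mul_le_mul_of_nonneg_left (FB.Yh_cube_le b Z) (show 0 ≤ ε / 12 by positivity)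
      linarith
    filter_upwards [h1 true true, h1 true false, h1 false true, h1 false false] with Z a1 a2 a3 a4
    have h3 : FB.W0 Z = ((∑ z ∈ FS true (true = true) (Yh true Z), w z.1 z.2) +
        (∑ z ∈ FS true (false = true) (Yh false Z), w z.1 z.2)) +
        ((∑ z ∈ FS false (true = true) (Yh true Z), w z.1 z.2) +
        (∑ z ∈ FS false (false = true) (Yh false Z), w z.1 z.2)) := by
      unfold FB.W0
      rw [Fintype.sum_bool, Fintype.sum_bool, Fintype.sum_bool]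
    generalize (∑ z ∈ FS true (true = true) (Yh true Z), w z.1 z.2) = s1 at a1 h3
    generalize (∑ z ∈ FS true (false = true) (Yh false Z), w z.1 z.2) = s2 at a2 h3
    generalize (∑ z ∈ FS false (true = true) (Yh true Z), w z.1 z.2) = s3 at a3 h3
    generalize (∑ z ∈ FS false (false = true) (Yh false Z), w z.1 z.2) = s4 at a4 h3
    rw [h3]
    rw [Int.cast_add, Int.cast_add, Int.cast_add]
    refine (abs_add_le _ _).trans ?_
    have h4 := abs_add_le (s1 : ℝ) (s2 : ℝ)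
    have h5 := abs_add_le (s3 : ℝ) (s4 : ℝ)
    linarith
  -- lower bound
  set c1 : ℝ := c / (78732 : ℝ) ^ ((1 : ℝ) / 2) with hc1
  have hc1p : 0 < c1 := by positivity
  have hlow : ∀ᶠ Z : ℕ in atTop, c1 * FB.X Z ≤ (II (fun _ => True) Z : ℝ) := by
    filter_upwards [(FB.Yh_tendsto false).eventually_ge_atTop Y0] with Z hZ
    have h1 := hL _ hZ
    rw [FB.Yh_false_cube] at h1
    have h2 : (FS true False (Yh false Z)).card ≤ II (fun _ => True) Z := by
      unfold II
      rw [Fintype.sum_bool, Fintype.sum_bool]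
      simp only [Finset.filter_true]
      have h3 : FS true (false = true) (Yh false Z) = FS true False (Yh false Z) := by
        congr 1
        simp
      rw [h3]
      omega
    have h3 : ((FS true False (Yh false Z)).card : ℝ) ≤ (II (fun _ => True) Z : ℝ) := by
      exact_mod_cast h2
    refine le_trans (le_of_eq ?_) (h1.trans h3)
    rw [hc1]
    ring
  have hlow2 : ∀ᶠ Z : ℕ in atTop, c1 / 2 * FB.X Z ≤ ((Fam (fun _ => True) Z).ncard : ℝ) := by
    filter_upwards [hlow, FB.small C (c1 / 2) hC (by positivity), eventually_ge_atTop 1]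
      with Z h1 h2 h3
    have h4 := (hF Z h3 (fun _ => True)).2.2
    linarith
  refine ⟨fun Z => ?_, ?_, fun e he => ?_⟩
  · rcases Nat.eq_zero_or_pos Z with h | h
    · subst h
      refine (hF 1 le_rfl (fun _ => True)).1.subset ?_
      rintro z ⟨W, h1, h2, h3, h4, h5⟩
      exact ⟨W, h1, h2, h3.trans (by norm_num), h4, h5⟩
    · exact (hF Z h (fun _ => True)).1
  · have h1 : Tendsto (fun Z : ℕ => ((Fam (fun _ => True) Z).ncard : ℝ)) atTop atTop :=
      tendsto_atTop_mono' _ hlow2 (FB.X_tendsto.const_mul_atTop (by positivity))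
    exact tendsto_natCast_atTop_iff.1 h1
  · rw [Metric.tendsto_nhds]
    intro ε hε
    filter_upwards [hsum (ε * c1 / 4) (by positivity), FB.small (3 * C) (ε * c1 / 4) (by positivity)
      (by positivity), hlow2, eventually_ge_atTop 1] with Z h1 h2 h3 h4
    obtain ⟨_, t1, t2⟩ := hF Z h4 (fun _ => True)
    obtain ⟨_, p1, p2⟩ := hF Z h4 (fun w => w = e)
    have hs := FB.II_sign Z e he
    have hs' : 2 * (II (fun w => w = e) Z : ℝ) - (II (fun _ => True) Z : ℝ) = e * (FB.W0 Z : ℝ) := by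
      exact_mod_cast hs
    have t1' : ((Fam (fun _ => True) Z).ncard : ℝ) ≤ II (fun _ => True) Z := by exact_mod_cast t1
    have p1' : ((Fam (fun w => w = e) Z).ncard : ℝ) ≤ II (fun w => w = e) Z := by exact_mod_cast p1
    have hab : |(e : ℝ) * (FB.W0 Z : ℝ)| ≤ ε * c1 / 4 * FB.X Z := by
      rw [abs_mul]
      rcases he with h | h <;> subst h <;> simpa using h1
    rw [abs_le] at hab
    have hX : 0 < FB.X Z := Real.rpow_pos_of_pos (by exact_mod_cast h4) _
    have hT : 0 < ((Fam (fun _ => True) Z).ncard : ℝ) :=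
      lt_of_lt_of_le (by positivity) h3
    generalize ((Fam (fun _ => True) Z).ncard : ℝ) = T at *
    generalize ((Fam (fun w => w = e) Z).ncard : ℝ) = P at *
    generalize (II (fun _ => True) Z : ℝ) = I1 at *
    generalize (II (fun w => w = e) Z : ℝ) = I2 at *
    rw [Real.dist_eq, show P / T - 1 / 2 = (2 * P - T) / (2 * T) by field_simp, abs_div,
      abs_of_pos (show 0 < 2 * T by positivity), div_lt_iff₀ (by positivity)]
    have hb : |2 * P - T| ≤ ε * c1 / 2 * FB.X Z := by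
      rw [abs_le]
      constructor <;> nlinarith [hab.1, hab.2]
    refine hb.trans_lt ?_
    have : ε * (c1 * FB.X Z) ≤ ε * (2 * T) := mul_le_mul_of_nonneg_left (by linarith) hε.le
    have h5 : 0 < ε * (c1 * FB.X Z) := by positivity
    linarith

end Pool.Agent.K1H81.TT
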