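import Pool.Agent.K1H81.TT.Stm

set_option autoImplicit false

/-! Project TT, pieces ISO and MUL (helper85) -/

namespace Pool.Agent.K1H81.TT

namespace ISO

/-- the short equation -/
lemma short_exists (W : WeierstrassCurve ℤ) :
    ∃ C : WeierstrassCurve.VariableChange ℚ,
      C • (W.map (Int.castRingHom ℚ)) =
        (⟨0, 0, 0, -(W.c₄ : ℚ) / 48, -(W.c₆ : ℚ) / 864⟩ : WeierstrassCurve ℚ) := by
  have hc4 : ((W.c₄ : ℤ) : ℚ) = ((W.a₁ : ℚ) ^ 2 + 4 * W.a₂) ^ 2 - 24 * (2 * W.a₄ + W.a₁ * W.a₃) := by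
    unfold WeierstrassCurve.c₄ WeierstrassCurve.b₂ WeierstrassCurve.b₄
    push_cast; ring
  have hc6 : ((W.c₆ : ℤ) : ℚ) = -((W.a₁ : ℚ) ^ 2 + 4 * W.a₂) ^ 3 +
      36 * ((W.a₁ : ℚ) ^ 2 + 4 * W.a₂) * (2 * W.a₄ + W.a₁ * W.a₃) - 216 * (W.a₃ ^ 2 + 4 * W.a₆) := by
    unfold WeierstrassCurve.c₆ WeierstrassCurve.b₂ WeierstrassCurve.b₄ WeierstrassCurve.b₆
    push_cast; ring
  refine ⟨⟨1, -((W.a₁ : ℚ) ^ 2 + 4 * W.a₂) / 12, -(W.a₁ : ℚ) / 2,
    -(W.a₃ : ℚ) / 2 + (W.a₁ : ℚ) * ((W.a₁ : ℚ) ^ 2 + 4 * W.a₂) / 24⟩, ?_⟩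
  rw [hc4, hc6]
  ext
  · rw [WeierstrassCurve.variableChange_a₁]
    simp only [inv_one, Units.val_one, WeierstrassCurve.map_a₁, Int.coe_castRingHom]
    ring
  · rw [WeierstrassCurve.variableChange_a₂]
    simp only [inv_one, Units.val_one, WeierstrassCurve.map_a₁, WeierstrassCurve.map_a₂,
      Int.coe_castRingHom]
    ring
  · rw [WeierstrassCurve.variableChange_a₃]
    simp only [inv_one, Units.val_one, WeierstrassCurve.map_a₁, WeierstrassCurve.map_a₃,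
      Int.coe_castRingHom]
    ring
  · rw [WeierstrassCurve.variableChange_a₄]
    simp only [inv_one, Units.val_one, WeierstrassCurve.map_a₁, WeierstrassCurve.map_a₂,
      WeierstrassCurve.map_a₃, WeierstrassCurve.map_a₄, Int.coe_castRingHom]
    ring
  · rw [WeierstrassCurve.variableChange_a₆]
    simp only [inv_one, Units.val_one, WeierstrassCurve.map_a₁, WeierstrassCurve.map_a₂,
      WeierstrassCurve.map_a₃, WeierstrassCurve.map_a₄, WeierstrassCurve.map_a₆,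
      Int.coe_castRingHom]
    ring

/-- a unit scale -/
lemma unit_scale {c c' d d' : ℤ} (h : ∀ p : ℕ, p.Prime → (p : ℤ) ∣ d → ¬ (p : ℤ) ∣ c)
    (h' : ∀ p : ℕ, p.Prime → (p : ℤ) ∣ d' → ¬ (p : ℤ) ∣ c') (v : ℚ)
    (h4 : (c' : ℚ) = v ^ 4 * c) (h12 : (d' : ℚ) = v ^ 12 * d) : v ^ 2 = 1 := by
  have hn : (v.den : ℚ) ≠ 0 := by exact_mod_cast v.den_nz
  have hv : v * (v.den : ℚ) = (v.num : ℚ) := Rat.mul_den_eq_num v
  have e4 : c' * (v.den : ℤ) ^ 4 = v.num ^ 4 * c := by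
    have : (c' : ℚ) * (v.den : ℚ) ^ 4 = (v.num : ℚ) ^ 4 * c := by
      rw [h4, ← hv]; ring
    exact_mod_cast this
  have e12 : d' * (v.den : ℤ) ^ 12 = v.num ^ 12 * d := by
    have : (d' : ℚ) * (v.den : ℚ) ^ 12 = (v.num : ℚ) ^ 12 * d := by
      rw [h12, ← hv]; ring
    exact_mod_cast this
  have hcop : IsCoprime v.num (v.den : ℤ) := Int.isCoprime_iff_nat_coprime.mpr (by
    simpa using v.reduced)
  have h1 : v.den = 1 := by
    by_contra hne
    obtain ⟨q, hq, hqd⟩ := Nat.exists_prime_and_dvd hne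
    have hqi := Nat.prime_iff_prime_int.1 hq
    have hqd' : (q : ℤ) ∣ (v.den : ℤ) := Int.natCast_dvd_natCast.mpr hqd
    have hnot : ¬ (q : ℤ) ∣ v.num := fun hm => hqi.not_isUnit (hcop.isUnit_of_dvd' hm hqd')
    refine h q hq ?_ ?_
    · have : (q : ℤ) ∣ v.num ^ 12 * d := e12 ▸ Dvd.dvd.mul_left (dvd_pow hqd' (by norm_num)) _
      rcases hqi.dvd_or_dvd this with h | h
      · exact absurd (hqi.dvd_of_dvd_pow h) hnot
      · exact h
    · have : (q : ℤ) ∣ v.num ^ 4 * c := e4 ▸ Dvd.dvd.mul_left (dvd_pow hqd' (by norm_num)) _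
      rcases hqi.dvd_or_dvd this with h | h
      · exact absurd (hqi.dvd_of_dvd_pow h) hnot
      · exact h
  have h2 : v.num.natAbs = 1 := by
    by_contra hne
    obtain ⟨q, hq, hqd⟩ := Nat.exists_prime_and_dvd hne
    have hqd' : (q : ℤ) ∣ v.num := Int.natCast_dvd.mpr hqd
    rw [h1] at e4 e12
    refine h' q hq ?_ ?_
    · have : (q : ℤ) ∣ v.num ^ 12 * d := Dvd.dvd.mul_right (dvd_pow hqd' (by norm_num)) _
      rw [← e12] at this
      simpa using this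
    · have : (q : ℤ) ∣ v.num ^ 4 * c := Dvd.dvd.mul_right (dvd_pow hqd' (by norm_num)) _
      rw [← e4] at this
      simpa using this
  have h3 : v = v.num := by
    rw [h1] at hv
    simpa using hv
  have h4 : v.num ^ 2 = 1 := by
    rcases Int.natAbs_eq_iff.mp h2 with h | h <;> rw [h] <;> norm_num
  rw [h3]
  exact_mod_cast h4

lemma cubic (t : Bool) (A D : ℤ) :
    (if t then A else -2 * A) ^ 3 - 3 * F4 t A D * (if t then A else -2 * A) - 2 * F6 t A D = 0 := by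
  cases t
  · simp only [F4, F6, Bool.false_eq_true, if_false]
    ring
  · simp only [F4, F6, if_true]
    ring

end ISO

theorem t_ISO : S_ISO := by
  intro W W' hW hW'
  constructor
  · rintro ⟨C, hC⟩
    have k4 := congrArg WeierstrassCurve.c₄ hC
    have k6 := congrArg WeierstrassCurve.c₆ hC
    have kD := congrArg WeierstrassCurve.Δ hC
    rw [WeierstrassCurve.variableChange_c₄, WeierstrassCurve.map_c₄, WeierstrassCurve.map_c₄] at k4
    rw [WeierstrassCurve.variableChange_c₆, WeierstrassCurve.map_c₆, WeierstrassCurve.map_c₆] at k6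
    rw [WeierstrassCurve.variableChange_Δ, WeierstrassCurve.map_Δ, WeierstrassCurve.map_Δ] at kD
    simp only [Int.coe_castRingHom] at k4 k6 kD
    have h1 := ISO.unit_scale hW.2 hW'.2 ((C.u⁻¹ : ℚˣ) : ℚ) k4.symm kD.symm
    have h4 : (((C.u⁻¹ : ℚˣ) : ℚ)) ^ 4 = 1 := by
      have : (((C.u⁻¹ : ℚˣ) : ℚ)) ^ 4 = ((((C.u⁻¹ : ℚˣ) : ℚ)) ^ 2) ^ 2 := by ring
      rw [this, h1, one_pow]
    have h6 : (((C.u⁻¹ : ℚˣ) : ℚ)) ^ 6 = 1 := by
      have : (((C.u⁻¹ : ℚˣ) : ℚ)) ^ 6 = ((((C.u⁻¹ : ℚˣ) : ℚ)) ^ 2) ^ 3 := by ring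
      rw [this, h1, one_pow]
    rw [h4, one_mul] at k4
    rw [h6, one_mul] at k6
    exact ⟨by exact_mod_cast k4, by exact_mod_cast k6⟩
  · rintro ⟨g4, g6⟩
    obtain ⟨C₁, hC₁⟩ := ISO.short_exists W
    obtain ⟨C₂, hC₂⟩ := ISO.short_exists W'
    refine ⟨C₂⁻¹ * C₁, ?_⟩
    rw [mul_smul, hC₁, g4, g6, ← hC₂, inv_smul_smul]

theorem t_MUL : S_MUL := by
  intro t t' A D A' D' hA hA' h4 h6
  have c1 := ISO.cubic t A D
  have c2 := ISO.cubic t' A' D'
  rw [← h4, ← h6] at c2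
  obtain ⟨a, ha⟩ : ∃ a : ℤ, a = if t then A else -2 * A := ⟨_, rfl⟩
  obtain ⟨a', ha'⟩ : ∃ a' : ℤ, a' = if t' then A' else -2 * A' := ⟨_, rfl⟩
  rw [← ha] at c1
  rw [← ha'] at c2
  by_cases haa : a = a'
  · left
    have h1 := hA.1
    have h2 := hA'.1
    cases t <;> cases t' <;> simp only [F4, Bool.false_eq_true, if_false, if_true] at ha ha' h4
    · have e1 : A = A' := by omega
      subst e1
      exact ⟨rfl, rfl, by linarith⟩
    · omega
    · omega
    · have e1 : A = A' := by omega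
      subst e1
      exact ⟨rfl, rfl, by linarith⟩
  · right
    have h1 : (a - a') * (a ^ 2 + a * a' + a' ^ 2 - 3 * F4 t A D) = 0 := by
      linear_combination c1 - c2
    have h2 : a ^ 2 + a * a' + a' ^ 2 - 3 * F4 t A D = 0 := by
      rcases mul_eq_zero.mp h1 with h | h
      · exact absurd (sub_eq_zero.mp h) haa
      · exact h
    cases t
    · right
      refine ⟨rfl, ?_⟩
      simp only [F4, Bool.false_eq_true, if_false] at ha h2
      have h3 : (2 * a' + a) ^ 2 = 48 ^ 2 * D := by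
        rw [ha] at h2 ⊢
        linear_combination 4 * h2
      have h5 : (48 : ℤ) ∣ 2 * a' + a := by
        rw [← Int.pow_dvd_pow_iff two_ne_zero, h3]
        exact dvd_mul_right _ _
      obtain ⟨k, hk⟩ := h5
      refine ⟨k, ?_⟩
      rw [hk] at h3
      nlinarith
    · left
      refine ⟨rfl, ?_⟩
      simp only [F4, if_true] at ha h2
      have h3 : (2 * a' + a) ^ 2 = 3 ^ 2 * EE A D := by
        unfold EE
        rw [ha] at h2 ⊢
        linear_combination 4 * h2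
      have h5 : (3 : ℤ) ∣ 2 * a' + a := by
        rw [← Int.pow_dvd_pow_iff two_ne_zero, h3]
        exact dvd_mul_right _ _
      obtain ⟨k, hk⟩ := h5
      refine ⟨k, ?_⟩
      rw [hk] at h3
      nlinarith

end Pool.Agent.K1H81.TT
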