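import Pool.Agent.K1H81.TT.Stm

/-!
# PAR and CONV: parametrization of the semistable curves with a rational point of order two
-/

set_option autoImplicit false

namespace Pool.Agent.K1H81.TT

namespace PAR

/-- from `Pool.Agent.K1H81.RN.Cls` -/
theorem int_root (b c d : ℤ) (r : ℚ) (h : r ^ 3 + b * r ^ 2 + c * r + d = 0) :
    ∃ z : ℤ, (z : ℚ) = r := by
  have hm : (Polynomial.X ^ 3 + Polynomial.C b * Polynomial.X ^ 2 + Polynomial.C c * Polynomial.X
      + Polynomial.C d : Polynomial ℤ).Monic := by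
    monicity!
  have := isInteger_of_is_root_of_monic hm (r := r) (by simpa using h)
  obtain ⟨z, hz⟩ := this
  exact ⟨z, by simpa using hz⟩

theorem adm_of (W : WeierstrassCurve ℤ) (hs : Semistable W) (t : Bool) (A D : ℤ)
    (hA : A % 4 = 1) (h4 : W.c₄ = F4 t A D) (hd : W.Δ = DD t A D) : Adm A D := by
  have hne := hs.1
  refine ⟨hA, ?_, ?_, ?_⟩
  · rintro rfl
    apply hne
    rw [hd]
    cases t <;> simp [DD]
  · intro h
    apply hne
    rw [hd]
    cases t <;> simp [DD, h]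
  · rw [Int.isCoprime_iff_gcd_eq_one]
    by_contra hg
    obtain ⟨p, hp, hpg⟩ := Nat.exists_prime_and_dvd hg
    have hpA : (p : ℤ) ∣ A := (Int.natCast_dvd_natCast.2 hpg).trans (Int.gcd_dvd_left ..)
    have hpD : (p : ℤ) ∣ D := (Int.natCast_dvd_natCast.2 hpg).trans (Int.gcd_dvd_right ..)
    refine hs.2 p hp ?_ ?_
    · rw [hd]
      cases t
      · exact (hpD.mul_right _)
      · exact ((hpD.pow (by norm_num)).mul_right _)
    · rw [h4]
      cases t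
      · exact dvd_add (hpA.pow (by norm_num)) (hpD.mul_left _)
      · exact dvd_sub (hpA.pow (by norm_num)) (hpD.mul_left _)

/-- the invariants in terms of a root -/
theorem inv (W : WeierstrassCurve ℤ) (X : ℤ)
    (hX : X ^ 3 + W.b₂ * X ^ 2 + 8 * W.b₄ * X + 16 * W.b₆ = 0) :
    W.c₄ = (3 * X + W.b₂) ^ 2 - 3 * (3 * X ^ 2 + 2 * W.b₂ * X + 8 * W.b₄) ∧
    2 * W.c₆ = (3 * X + W.b₂) * (9 * (3 * X ^ 2 + 2 * W.b₂ * X + 8 * W.b₄) -
      2 * (3 * X + W.b₂) ^ 2) ∧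
    256 * W.Δ = (3 * X ^ 2 + 2 * W.b₂ * X + 8 * W.b₄) ^ 2 *
      ((3 * X + W.b₂) ^ 2 - 4 * (3 * X ^ 2 + 2 * W.b₂ * X + 8 * W.b₄)) := by
  refine ⟨?_, ?_, ?_⟩
  · unfold WeierstrassCurve.c₄
    ring
  · unfold WeierstrassCurve.c₆
    linear_combination (-27) * hX
  · have h8 := W.b_relation
    have hd : W.Δ = -W.b₂ ^ 2 * W.b₈ - 8 * W.b₄ ^ 3 - 27 * W.b₆ ^ 2 + 9 * W.b₂ * W.b₄ * W.b₆ := rfl
    have e1 : 16 * W.b₆ = -(X ^ 3 + W.b₂ * X ^ 2 + 8 * W.b₄ * X) := by linear_combination hX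
    have e : 256 * W.Δ = -W.b₂ ^ 2 * (4 * W.b₂ * (16 * W.b₆) - 64 * W.b₄ ^ 2) -
        4 * (8 * W.b₄) ^ 3 - 27 * (16 * W.b₆) ^ 2 + 18 * W.b₂ * (8 * W.b₄) * (16 * W.b₆) := by
      rw [hd]
      linear_combination (-64 * W.b₂ ^ 2) * h8
    rw [e, e1]
    ring

theorem b2_mod (W : WeierstrassCurve ℤ) (h : W.a₁ % 2 = 1) : W.b₂ % 4 = 1 := by
  obtain ⟨k, hk⟩ : ∃ k, W.a₁ = 2 * k + 1 := ⟨W.a₁ / 2, by omega⟩
  have h1 : W.b₂ = 4 * (k ^ 2 + k + W.a₂) + 1 := by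
    unfold WeierstrassCurve.b₂
    rw [hk]; ring
  omega

end PAR

open PAR

theorem t_PAR : S_PAR := by
  rintro W hs ⟨r, hr⟩
  obtain ⟨X, hXr⟩ := int_root W.b₂ (8 * W.b₄) (16 * W.b₆) (4 * r) (by
    push_cast
    linear_combination 16 * hr)
  have hX : X ^ 3 + W.b₂ * X ^ 2 + 8 * W.b₄ * X + 16 * W.b₆ = 0 := by
    have h : (X : ℚ) ^ 3 + W.b₂ * (X : ℚ) ^ 2 + 8 * W.b₄ * (X : ℚ) + 16 * W.b₆ = 0 := by
      rw [hXr]
      linear_combination 16 * hr
    exact_mod_cast h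
  obtain ⟨hc4, hc6, hD⟩ := inv W X hX
  have h8 := W.b_relation
  rcases Int.emod_two_eq_zero_or_one W.a₁ with ha | ha
  · -- `a₁` even
    exfalso
    obtain ⟨k, hk⟩ : ∃ k, W.a₁ = 2 * k := ⟨W.a₁ / 2, by omega⟩
    obtain ⟨b', hb'⟩ : ∃ b', W.b₂ = 4 * b' := ⟨k ^ 2 + W.a₂, by
      unfold WeierstrassCurve.b₂
      rw [hk]; ring⟩
    have hce : ((2 : ℕ) : ℤ) ∣ W.c₄ := ⟨8 * b' ^ 2 - 12 * W.b₄, by
      unfold WeierstrassCurve.c₄
      rw [hb']; push_cast; ring⟩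
    have hDo : ¬ ((2 : ℕ) : ℤ) ∣ W.Δ := fun h => hs.2 2 Nat.prime_two h hce
    apply hDo
    obtain ⟨x1, hx1⟩ : ∃ x1, X = 2 * x1 := by
      have h1 : (2 : ℤ) ∣ X ^ 3 := ⟨-(2 * b' * X ^ 2 + 4 * W.b₄ * X + 8 * W.b₆), by
        rw [hb'] at hX; linear_combination hX⟩
      exact Int.prime_two.dvd_of_dvd_pow h1
    obtain ⟨x2, hx2⟩ : ∃ x2, x1 = 2 * x2 := by
      have h1 : (2 : ℤ) ∣ x1 ^ 3 := ⟨-(b' * x1 ^ 2 + W.b₄ * x1 + W.b₆), by
        rw [hb', hx1] at hX; linarith⟩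
      exact Int.prime_two.dvd_of_dvd_pow h1
    have h6 : W.b₆ = 2 * -(2 * x2 ^ 3 + 2 * b' * x2 ^ 2 + W.b₄ * x2) := by
      rw [hb', hx1, hx2] at hX; linarith
    have hd : W.Δ = -W.b₂ ^ 2 * W.b₈ - 8 * W.b₄ ^ 3 - 27 * W.b₆ ^ 2 + 9 * W.b₂ * W.b₄ * W.b₆ := rfl
    refine ⟨-8 * b' ^ 2 * W.b₈ - 4 * W.b₄ ^ 3 -
      27 * W.b₆ * -(2 * x2 ^ 3 + 2 * b' * x2 ^ 2 + W.b₄ * x2) + 18 * b' * W.b₄ * W.b₆, ?_⟩
    rw [hd, hb']
    push_cast
    linear_combination (-27 * W.b₆) * h6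
  · have hb2 := b2_mod W ha
    rcases Int.emod_two_eq_zero_or_one X with hXe | hXo
    · -- `X` even
      obtain ⟨x1, hx1⟩ : ∃ x1, X = 2 * x1 := ⟨X / 2, by omega⟩
      have h1 : 2 * x1 ^ 3 + W.b₂ * x1 ^ 2 + 4 * W.b₄ * x1 + 4 * W.b₆ = 0 := by
        rw [hx1] at hX; linarith
      obtain ⟨x2, hx2⟩ : ∃ x2, x1 = 2 * x2 := by
        have h2 : (2 : ℤ) ∣ W.b₂ * x1 ^ 2 := ⟨-(x1 ^ 3 + 2 * W.b₄ * x1 + 2 * W.b₆), by linarith⟩
        rcases Int.prime_two.dvd_or_dvd h2 with h3 | h3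
        · exfalso; omega
        · exact Int.prime_two.dvd_of_dvd_pow h3
      have h2 : 4 * x2 ^ 3 + W.b₂ * x2 ^ 2 + 2 * W.b₄ * x2 + W.b₆ = 0 := by
        rw [hx2] at h1; linarith
      have h3 : (2 : ℤ) ∣ W.b₂ * x2 + W.b₄ := by
        have h4 : (2 : ℤ) ∣ (W.b₂ * x2 + W.b₄) ^ 2 := ⟨-2 * (W.b₂ * x2 ^ 3 + W.b₈), by
          linear_combination W.b₂ * h2 + h8⟩
        exact Int.prime_two.dvd_of_dvd_pow h4
      obtain ⟨m, hm⟩ := h3
      have hb : 3 * X ^ 2 + 2 * W.b₂ * X + 8 * W.b₄ = 16 * (3 * x2 ^ 2 + m) := by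
        rw [hx1, hx2]; linear_combination 8 * hm
      rw [hb] at hc4 hc6 hD
      have e4 : W.c₄ = F4 true (3 * X + W.b₂) (3 * x2 ^ 2 + m) := by
        rw [hc4]; simp only [F4, if_true]; ring
      have e6 : W.c₆ = F6 true (3 * X + W.b₂) (3 * x2 ^ 2 + m) := by
        have : 2 * W.c₆ = 2 * F6 true (3 * X + W.b₂) (3 * x2 ^ 2 + m) := by
          rw [hc6]; simp only [F6, if_true]; ring
        linarith
      have eD : W.Δ = DD true (3 * X + W.b₂) (3 * x2 ^ 2 + m) := by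
        have : 256 * W.Δ = 256 * DD true (3 * X + W.b₂) (3 * x2 ^ 2 + m) := by
          rw [hD]; simp only [DD, EE, if_true]; ring
        linarith
      exact ⟨true, 3 * X + W.b₂, 3 * x2 ^ 2 + m,
        adm_of W hs true _ _ (by omega) e4 eD, e4, e6⟩
    · -- `X` odd
      have hcop : IsCoprime (16 : ℤ) X := by
        have h2 : IsCoprime (2 : ℤ) X := by
          have : ¬ (2 : ℤ) ∣ X := by omega
          exact Int.prime_two.coprime_iff_not_dvd.2 this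
        have h3 : IsCoprime ((2 : ℤ) ^ 4) X := h2.pow_left
        norm_num at h3
        exact h3
      have h1 : (16 : ℤ) ∣ X * (X + W.b₂) + 8 * W.b₄ := by
        have h2 : (16 : ℤ) ∣ X * (X * (X + W.b₂) + 8 * W.b₄) := ⟨-W.b₆, by linear_combination hX⟩
        exact hcop.dvd_of_dvd_mul_left h2
      have hcop8 : IsCoprime (8 : ℤ) X := IsCoprime.of_isCoprime_of_dvd_left hcop ⟨2, by norm_num⟩
      have h3 : (8 : ℤ) ∣ X + W.b₂ := by
        have h4 : (8 : ℤ) ∣ X * (X + W.b₂) := by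
          obtain ⟨q, hq⟩ := h1
          exact ⟨2 * q - W.b₄, by linear_combination hq⟩
        exact hcop8.dvd_of_dvd_mul_left h4
      obtain ⟨s, hs8⟩ := h3
      obtain ⟨q, hq⟩ := h1
      have hb2e : W.b₂ = 8 * s - X := by linarith
      obtain ⟨m, hm⟩ : ∃ m, s * X + W.b₄ = 2 * m := ⟨q, by
        rw [hs8] at hq; linarith⟩
      have h6 : W.b₆ = -(X * m) := by
        rw [hb2e] at hX
        have : 16 * W.b₆ = 16 * -(X * m) := by
          linear_combination hX - 8 * X * hm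
        linarith
      have h4b : W.b₄ = 2 * m - s * X := by linarith
      have h5 : (4 : ℤ) ∣ X ^ 2 * (s ^ 2 - m) := by
        refine ⟨-(W.b₈ + m ^ 2 - m * s * X + 2 * s * X * m), ?_⟩
        rw [hb2e, h6, h4b] at h8
        linear_combination h8
      have hcop4 : IsCoprime (4 : ℤ) (X ^ 2) :=
        (IsCoprime.of_isCoprime_of_dvd_left hcop ⟨4, by norm_num⟩).pow_right
      obtain ⟨D, hDm⟩ := hcop4.dvd_of_dvd_mul_left h5
      -- `A = -(X + 4 s)`, `D = (s² - m)/4`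
      have ha' : 3 * X + W.b₂ = -2 * -(X + 4 * s) := by rw [hb2e]; ring
      have hb : 3 * X ^ 2 + 2 * W.b₂ * X + 8 * W.b₄ = (-(X + 4 * s)) ^ 2 - 64 * D := by
        rw [hb2e, h4b]; linear_combination (-16) * hDm
      rw [hb, ha'] at hc4 hc6 hD
      have e4 : W.c₄ = F4 false (-(X + 4 * s)) D := by
        rw [hc4]; simp only [F4, Bool.false_eq_true, if_false]; ring
      have e6 : W.c₆ = F6 false (-(X + 4 * s)) D := by
        have : 2 * W.c₆ = 2 * F6 false (-(X + 4 * s)) D := by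
          rw [hc6]; simp only [F6, Bool.false_eq_true, if_false]; ring
        linarith
      have eD : W.Δ = DD false (-(X + 4 * s)) D := by
        have : 256 * W.Δ = 256 * DD false (-(X + 4 * s)) D := by
          rw [hD]; simp only [DD, EE, Bool.false_eq_true, if_false]; ring
        linarith
      exact ⟨false, -(X + 4 * s), D, adm_of W hs false _ _ (by omega) e4 eD, e4, e6⟩

namespace CONV

theorem semi (W : WeierstrassCurve ℤ) (t : Bool) (A D : ℤ) (h : Adm A D)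
    (h4 : W.c₄ = F4 t A D) (hd : W.Δ = DD t A D) : Semistable W := by
  obtain ⟨hA, hD, hE, hc⟩ := h
  refine ⟨?_, ?_⟩
  · rw [hd]
    cases t
    · exact mul_ne_zero hD (pow_ne_zero _ hE)
    · exact mul_ne_zero (pow_ne_zero _ hD) hE
  · intro p hp hpd hpc
    have hpp : Prime (p : ℤ) := Nat.prime_iff_prime_int.1 hp
    have hDE : (p : ℤ) ∣ D ∨ (p : ℤ) ∣ EE A D := by
      rw [hd] at hpd
      cases t
      · exact (hpp.dvd_or_dvd hpd).imp id hpp.dvd_of_dvd_pow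
      · exact (hpp.dvd_or_dvd hpd).imp hpp.dvd_of_dvd_pow id
    have key : (p : ℤ) ∣ D → False := by
      intro hpD
      have hA2 : (p : ℤ) ∣ A ^ 2 := by
        rw [h4] at hpc
        cases t
        · have h1 : (p : ℤ) ∣ A ^ 2 + 192 * D := hpc
          exact (dvd_add_left (hpD.mul_left _)).1 h1
        · have h1 : (p : ℤ) ∣ A ^ 2 - 48 * D := hpc
          exact (dvd_sub_left (hpD.mul_left _)).1 h1
      exact hpp.not_isUnit (hc.isUnit_of_dvd' (hpp.dvd_of_dvd_pow hA2) hpD)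
    rcases hDE with hpD | hpE
    · exact key hpD
    · have hp2 : ¬ (p : ℤ) ∣ 2 := by
        intro h2
        have h3 : p = 2 := by
          have := Int.natCast_dvd_natCast.1 (by exact_mod_cast h2 : (p : ℤ) ∣ ((2 : ℕ) : ℤ))
          exact (Nat.prime_dvd_prime_iff_eq hp Nat.prime_two).1 this
        subst h3
        have hA2 : (2 : ℤ) ∣ A ^ 2 := by
          have h5 : ((2 : ℕ) : ℤ) ∣ A ^ 2 - 64 * D := hpE
          have h6 : (2 : ℤ) ∣ A ^ 2 - 64 * D := by exact_mod_cast h5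
          exact (dvd_sub_left ⟨32 * D, by ring⟩).1 h6
        have := Int.prime_two.dvd_of_dvd_pow hA2
        omega
      have h16 : ∀ j : ℕ, (p : ℤ) ∣ 2 ^ j * D → False := fun j hj =>
        (hpp.dvd_or_dvd hj).elim (fun h5 => hp2 (hpp.dvd_of_dvd_pow h5)) key
      rw [h4] at hpc
      cases t
      · have h1 : (p : ℤ) ∣ A ^ 2 + 192 * D := hpc
        have h2 : (p : ℤ) ∣ A ^ 2 - 64 * D := hpE
        apply h16 8
        have h3 := dvd_sub h1 h2
        have h5 : A ^ 2 + 192 * D - (A ^ 2 - 64 * D) = 2 ^ 8 * D := by ring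
        rwa [h5] at h3
      · have h1 : (p : ℤ) ∣ A ^ 2 - 48 * D := hpc
        have h2 : (p : ℤ) ∣ A ^ 2 - 64 * D := hpE
        apply h16 4
        have h3 := dvd_sub h1 h2
        have h5 : A ^ 2 - 48 * D - (A ^ 2 - 64 * D) = 2 ^ 4 * D := by ring
        rwa [h5] at h3

end CONV

open CONV

theorem t_CONV : S_CONV := by
  intro t A D h
  obtain ⟨k, hk⟩ : ∃ k, A = 4 * k + 1 := ⟨A / 4, by have := h.1; omega⟩
  cases t
  · have e4 : (⟨1, -2 * k, k, k ^ 2 - k - 4 * D, -D⟩ : WeierstrassCurve ℤ).c₄ = F4 false A D := by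
      simp only [F4, WeierstrassCurve.c₄, WeierstrassCurve.b₂, WeierstrassCurve.b₄,
        Bool.false_eq_true, if_false, hk]
      ring
    have eD : (⟨1, -2 * k, k, k ^ 2 - k - 4 * D, -D⟩ : WeierstrassCurve ℤ).Δ = DD false A D := by
      simp only [DD, EE, WeierstrassCurve.Δ, WeierstrassCurve.b₂, WeierstrassCurve.b₄,
        WeierstrassCurve.b₆, WeierstrassCurve.b₈, Bool.false_eq_true, if_false, hk]
      ring
    refine ⟨_, semi _ false A D h e4 eD, ⟨-1 / 4, ?_⟩, e4, ?_⟩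
    · simp only [WeierstrassCurve.b₂, WeierstrassCurve.b₄, WeierstrassCurve.b₆]
      push_cast
      ring
    · simp only [F6, WeierstrassCurve.c₆, WeierstrassCurve.b₂, WeierstrassCurve.b₄,
        WeierstrassCurve.b₆, Bool.false_eq_true, if_false, hk]
      ring
  · have e4 : (⟨1, k, 0, D, 0⟩ : WeierstrassCurve ℤ).c₄ = F4 true A D := by
      simp only [F4, WeierstrassCurve.c₄, WeierstrassCurve.b₂, WeierstrassCurve.b₄, if_true, hk]
      ring
    have eD : (⟨1, k, 0, D, 0⟩ : WeierstrassCurve ℤ).Δ = DD true A D := by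
      simp only [DD, EE, WeierstrassCurve.Δ, WeierstrassCurve.b₂, WeierstrassCurve.b₄,
        WeierstrassCurve.b₆, WeierstrassCurve.b₈, if_true, hk]
      ring
    refine ⟨_, semi _ true A D h e4 eD, ⟨0, ?_⟩, e4, ?_⟩
    · simp only [WeierstrassCurve.b₂, WeierstrassCurve.b₄, WeierstrassCurve.b₆]
      push_cast
      ring
    · simp only [F6, WeierstrassCurve.c₆, WeierstrassCurve.b₂, WeierstrassCurve.b₄,
        WeierstrassCurve.b₆, if_true, hk]
      ring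

end Pool.Agent.K1H81.TT
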