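import Pool.Agent.K1H81.TT.Stm

/-!
Project TT, piece REC: reciprocity.
-/

set_option autoImplicit false

namespace Pool.Agent.K1H81.TT

namespace REC

open ZMod

/-- reciprocity for `A = 1 mod 4` of any sign -/
theorem rec1 (A : ℤ) (hA : A % 4 = 1) (n : ℕ) (hn : Odd n) :
    jacobiSym A n = jacobiSym (n : ℤ) A.natAbs := by
  rcases le_or_gt 0 A with h0 | h0
  · have h1 : ((A.natAbs : ℕ) : ℤ) = A := Int.natAbs_of_nonneg h0
    have h2 : A.natAbs % 4 = 1 := by omega
    conv_lhs => rw [← h1]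
    exact jacobiSym.quadratic_reciprocity_one_mod_four h2 hn
  · have h1 : A = -((A.natAbs : ℕ) : ℤ) := by omega
    have h2 : A.natAbs % 4 = 3 := by omega
    have h3 : Odd A.natAbs := Nat.odd_iff.mpr (by omega)
    conv_lhs => rw [h1]
    rw [jacobiSym.neg _ hn]
    have hn2 := Nat.odd_iff.mp hn
    rcases (by omega : n % 4 = 1 ∨ n % 4 = 3) with h4 | h4
    · rw [χ₄_nat_one_mod_four h4, one_mul]
      exact jacobiSym.quadratic_reciprocity_one_mod_four' h3 h4
    · rw [χ₄_nat_three_mod_four h4, jacobiSym.quadratic_reciprocity_three_mod_four h2 h4]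
      ring

theorem natAbs_sign (x : ℤ) (hx : 0 < x) : ((x.natAbs : ℕ) : ℤ) = x :=
  Int.natAbs_of_nonneg hx.le

theorem natAbs_sign' (x : ℤ) (hx : x < 0) : ((x.natAbs : ℕ) : ℤ) = -x := by omega

theorem sq_mod8 (A : ℤ) (hA : A % 4 = 1) : A ^ 2 % 8 = 1 := by
  have h : A % 8 = 1 ∨ A % 8 = 5 := by omega
  rcases h with h | h <;> simp [pow_two, Int.mul_emod, h]

/-- the product with the sign `s` -/
theorem prod_sym (A D s : ℤ) (hA : A % 4 = 1) (hco : IsCoprime A D)
    (hs : ((D.natAbs : ℕ) : ℤ) * (((EE A D).natAbs : ℕ) : ℤ) = s * (D * EE A D)) :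
    jacobiSym (D.natAbs : ℤ) A.natAbs * jacobiSym ((EE A D).natAbs : ℤ) A.natAbs =
      jacobiSym (-s) A.natAbs := by
  rw [← jacobiSym.mul_left, hs]
  have h1 : (s * (D * EE A D)) ≡ ((-s) * (8 * D) ^ 2) [ZMOD (A.natAbs : ℤ)] := by
    rw [Int.modEq_iff_dvd, Int.natAbs_dvd]
    refine ⟨-(s * D * A), ?_⟩
    unfold EE
    ring
  rw [jacobiSym.mod_left' h1, jacobiSym.mul_left]
  have h2 : (8 * D).gcd (A.natAbs : ℤ) = 1 := by
    rw [← Int.isCoprime_iff_gcd_eq_one]
    have h8 : IsCoprime (8 : ℤ) A := by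
      have : IsCoprime (2 : ℤ) A := by
        rw [Int.isCoprime_iff_gcd_eq_one]
        have hodd : ¬ (2 : ℤ) ∣ A := by omega
        have := (Int.prime_two.coprime_iff_not_dvd).mpr hodd
        exact Int.isCoprime_iff_gcd_eq_one.mp this
      have h3 := this.pow_left (m := 3)
      norm_num at h3
      exact h3
    have h4 : IsCoprime (8 * D) A := h8.mul_left hco.symm
    have h5 : IsCoprime (8 * D) (A.natAbs : ℤ) := by
      rcases Int.natAbs_eq A with h | h
      · rw [← h]; exact h4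
      · have : ((A.natAbs : ℕ) : ℤ) = -A := by omega
        rw [this]; exact h4.neg_right
    exact h5
  rw [jacobiSym.sq_one' h2, mul_one]

end REC

open REC ZMod in
theorem t_REC : S_REC := by
  intro A D hAdm
  obtain ⟨hA, hD, hE, hco⟩ := hAdm
  have hE8 : EE A D % 8 = 1 := by
    have := sq_mod8 A hA
    unfold EE
    omega
  have hnodd : Odd (EE A D).natAbs := Nat.odd_iff.mpr (by omega)
  have haodd : Odd A.natAbs := Nat.odd_iff.mpr (by omega)
  rw [jacobiSym.mul_left (-2) A, jacobiSym.at_neg_two hnodd, rec1 A hA _ hnodd,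
    χ₈'_nat_eq_if_mod_eight]
  rcases lt_or_gt_of_ne hE with hE0 | hE0
  · -- E < 0
    have hn : (EE A D).natAbs % 8 = 7 := by omega
    have hD0 : 0 < D := by
      have : 0 ≤ A ^ 2 := sq_nonneg A
      unfold EE at hE0
      omega
    rw [if_neg (by omega), if_neg (by omega), if_neg (by omega)]
    have h1 := prod_sym A D (-1) hA hco (by
      rw [natAbs_sign D hD0, natAbs_sign' _ hE0]; ring)
    rw [neg_neg, jacobiSym.one_left] at h1
    linear_combination (-1 : ℤ) * h1
  · have hn : (EE A D).natAbs % 8 = 1 := by omega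
    rw [if_neg (by omega), if_pos (by omega), if_pos hE0, one_mul]
    rcases lt_or_gt_of_ne hD with hD0 | hD0
    · rw [if_neg (by omega)]
      have h1 := prod_sym A D (-1) hA hco (by
        rw [natAbs_sign' D hD0, natAbs_sign _ hE0]; ring)
      rw [neg_neg, jacobiSym.one_left] at h1
      exact h1
    · rw [if_pos hD0]
      have h1 := prod_sym A D 1 hA hco (by
        rw [natAbs_sign D hD0, natAbs_sign _ hE0]; ring)
      rw [h1, jacobiSym.at_neg_one haodd]
      by_cases hA0 : 0 < A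
      · rw [if_pos hA0, χ₄_nat_one_mod_four (by omega)]
      · rw [if_neg hA0, χ₄_nat_three_mod_four (by omega)]

end Pool.Agent.K1H81.TT
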