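import Pool.Agent.K1H81.TT.Stm

/-!
# Project TT, piece REG: the region of bounded height is an interval in `D` whose end points have
bounded variation
-/

set_option autoImplicit false

namespace Pool.Agent.K1H81.TT

open Finset

namespace REG

/-- interval condition -/
def IC (N : ℕ) (η K : ℝ) (P : ℤ → ℤ → Prop) : Prop :=
  ∃ l u : ℤ → ℤ, (∀ A, |(l (A + 1) : ℝ) - (l A : ℝ)| ≤ K) ∧
    (∀ A, |(u (A + 1) : ℝ) - (u A : ℝ)| ≤ K) ∧
    ∀ A D : ℤ, η * N ≤ |(A : ℝ)| → |(A : ℝ)| ≤ 2 * N → -(N : ℤ) ^ 2 < D → D ≤ (N : ℤ) ^ 2 →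
      (P A D ↔ (l A < D ∧ D ≤ u A))

theorem max_lip {a b c d K : ℝ} (h1 : |a - c| ≤ K) (h2 : |b - d| ≤ K) :
    |max a b - max c d| ≤ K :=
  (abs_max_sub_max_le_max a b c d).trans (max_le h1 h2)

theorem min_lip {a b c d K : ℝ} (h1 : |a - c| ≤ K) (h2 : |b - d| ≤ K) :
    |min a b - min c d| ≤ K :=
  (abs_min_sub_min_le_max a b c d).trans (max_le h1 h2)

theorem floor_lip {x y K : ℝ} (h : |x - y| ≤ K - 1) : |(⌊x⌋ : ℝ) - (⌊y⌋ : ℝ)| ≤ K := by
  have h1 := Int.floor_le x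
  have h2 := Int.lt_floor_add_one x
  have h3 := Int.floor_le y
  have h4 := Int.lt_floor_add_one y
  rw [abs_le] at h ⊢
  constructor <;> linarith [h.1, h.2]

theorem ceil_lip {x y K : ℝ} (h : |x - y| ≤ K - 1) :
    |((⌈x⌉ - 1 : ℤ) : ℝ) - ((⌈y⌉ - 1 : ℤ) : ℝ)| ≤ K := by
  have h1 := Int.le_ceil x
  have h2 := Int.ceil_lt_add_one x
  have h3 := Int.le_ceil y
  have h4 := Int.ceil_lt_add_one y
  push_cast
  rw [abs_le] at h ⊢
  constructor <;> linarith [h.1, h.2]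

variable {N : ℕ} {η K : ℝ}

theorem IC.and {P Q : ℤ → ℤ → Prop} (hP : IC N η K P) (hQ : IC N η K Q) :
    IC N η K (fun A D => P A D ∧ Q A D) := by
  obtain ⟨l, u, h1, h2, h3⟩ := hP
  obtain ⟨l', u', h1', h2', h3'⟩ := hQ
  refine ⟨fun A => max (l A) (l' A), fun A => min (u A) (u' A), ?_, ?_, ?_⟩
  · intro A
    push_cast
    exact max_lip (h1 A) (h1' A)
  · intro A
    push_cast
    exact min_lip (h2 A) (h2' A)
  · intro A D hA hA' hD hD'
    beta_reduce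
    rw [h3 A D hA hA' hD hD', h3' A D hA hA' hD hD', max_lt_iff, le_min_iff]
    tauto

theorem IC.congr {P Q : ℤ → ℤ → Prop} (hP : IC N η K P)
    (h : ∀ A D : ℤ, η * N ≤ |(A : ℝ)| → |(A : ℝ)| ≤ 2 * N → (Q A D ↔ P A D)) : IC N η K Q := by
  obtain ⟨l, u, h1, h2, h3⟩ := hP
  refine ⟨l, u, h1, h2, ?_⟩
  intro A D hA hA' hD hD'
  rw [h A D hA hA', h3 A D hA hA' hD hD']

theorem IC.ge (hK : 0 ≤ K) (x : ℤ → ℝ) (hx : ∀ A, |x (A + 1) - x A| ≤ K - 1) :
    IC N η K (fun A D => x A ≤ D) := by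
  refine ⟨fun A => ⌈x A⌉ - 1, fun _ => (N : ℤ) ^ 2, fun A => ceil_lip (hx A), ?_, ?_⟩
  · intro A; simpa using hK
  · intro A D _ _ _ hD'
    beta_reduce
    rw [← Int.ceil_le, Int.sub_one_lt_iff]
    exact ⟨fun h => ⟨h, hD'⟩, fun h => h.1⟩

theorem IC.le (hK : 0 ≤ K) (x : ℤ → ℝ) (hx : ∀ A, |x (A + 1) - x A| ≤ K - 1) :
    IC N η K (fun A D => (D : ℝ) ≤ x A) := by
  refine ⟨fun _ => -(N : ℤ) ^ 2, fun A => ⌊x A⌋, ?_, fun A => floor_lip (hx A), ?_⟩
  · intro A; simpa using hK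
  · intro A D _ _ hD _
    beta_reduce
    rw [← Int.le_floor]
    exact ⟨fun h => ⟨hD, h⟩, fun h => h.2⟩

theorem IC.gt (hK : 0 ≤ K) (x : ℤ → ℝ) (hx : ∀ A, |x (A + 1) - x A| ≤ K - 1) :
    IC N η K (fun A D => x A < D) := by
  refine ⟨fun A => ⌊x A⌋, fun _ => (N : ℤ) ^ 2, fun A => floor_lip (hx A), ?_, ?_⟩
  · intro A; simpa using hK
  · intro A D _ _ _ hD'
    beta_reduce
    rw [← Int.floor_lt]
    exact ⟨fun h => ⟨h, hD'⟩, fun h => h.1⟩

theorem IC.lt (hK : 0 ≤ K) (x : ℤ → ℝ) (hx : ∀ A, |x (A + 1) - x A| ≤ K - 1) :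
    IC N η K (fun A D => (D : ℝ) < x A) := by
  refine ⟨fun _ => -(N : ℤ) ^ 2, fun A => ⌈x A⌉ - 1, ?_, fun A => ceil_lip (hx A), ?_⟩
  · intro A; simpa using hK
  · intro A D _ _ hD _
    beta_reduce
    rw [← Int.lt_ceil, Int.le_sub_one_iff]
    exact ⟨fun h => ⟨hD, h⟩, fun h => h.2⟩

/-- the clipped absolute value -/
noncomputable def cl (N : ℕ) (η : ℝ) (A : ℤ) : ℝ := max (η * N) (min (2 * N) |(A : ℝ)|)

theorem cl_eq {A : ℤ} (h1 : η * N ≤ |(A : ℝ)|) (h2 : |(A : ℝ)| ≤ 2 * N) :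
    cl N η A = |(A : ℝ)| := by
  unfold cl
  rw [min_eq_right h2, max_eq_right h1]

theorem cl_lip (A : ℤ) : |cl N η (A + 1) - cl N η A| ≤ 1 := by
  unfold cl
  apply max_lip
  · simp
  · apply min_lip
    · simp
    · refine (abs_abs_sub_abs_le _ _).trans ?_
      push_cast
      simp

theorem cl_low (A : ℤ) : η * N ≤ cl N η A := le_max_left _ _

theorem cl_up (hη : 0 < η) (A : ℤ) : cl N η A ≤ (2 + η) * N := by
  unfold cl
  have hN : (0 : ℝ) ≤ N := Nat.cast_nonneg N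
  apply max_le
  · nlinarith
  · refine (min_le_left _ _).trans ?_
    nlinarith

/-- the thresholds -/
noncomputable def th (N : ℕ) (η Y α β γ : ℝ) (A : ℤ) : ℝ :=
  α * cl N η A ^ 2 + β * (Y ^ 3 / cl N η A) + γ

theorem th_lip (hη : 0 < η) (hN : 1 ≤ N) {Y : ℝ} (hY : 0 ≤ Y) (hYN : Y ≤ N) {α β γ : ℝ}
    (hα : |α| ≤ 1) (hβ : |β| ≤ 1) (A : ℤ) :
    |th N η Y α β γ (A + 1) - th N η Y α β γ A| ≤ (2 * (2 + η) + 1 / η ^ 2) * N := by
  have hN1 : (1 : ℝ) ≤ N := by exact_mod_cast hN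
  have hN0 : (0 : ℝ) < N := by linarith
  have hl := cl_lip (N := N) (η := η) A
  have ha := cl_low (N := N) (η := η) A
  have ha' := cl_low (N := N) (η := η) (A + 1)
  have hb := cl_up (N := N) hη A
  have hb' := cl_up (N := N) hη (A + 1)
  unfold th
  set a := cl N η A with hadef
  set b := cl N η (A + 1) with hbdef
  have hηN : 0 < η * N := by positivity
  have ha0 : 0 < a := by linarith
  have hb0 : 0 < b := by linarith
  have h1 : |b ^ 2 - a ^ 2| ≤ 2 * (2 + η) * N := by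
    have e : b ^ 2 - a ^ 2 = (b - a) * (b + a) := by ring
    rw [e, abs_mul, abs_of_pos (add_pos hb0 ha0)]
    calc |b - a| * (b + a) ≤ 1 * (b + a) := mul_le_mul_of_nonneg_right hl (by linarith)
      _ ≤ 2 * (2 + η) * N := by linarith
  have h2 : |Y ^ 3 / b - Y ^ 3 / a| ≤ 1 / η ^ 2 * N := by
    have e : Y ^ 3 / b - Y ^ 3 / a = Y ^ 3 * ((a - b) / (b * a)) := by
      field_simp
    have h3 : |(a - b) / (b * a)| ≤ 1 / (η * N) ^ 2 := by
      rw [abs_div, abs_of_pos (mul_pos hb0 ha0)]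
      apply div_le_div₀ (by norm_num) (by rw [abs_sub_comm]; exact hl) (by positivity)
      rw [pow_two]
      exact mul_le_mul ha' ha hηN.le hb0.le
    have h4 : Y ^ 3 ≤ (N : ℝ) ^ 3 := pow_le_pow_left₀ hY hYN 3
    rw [e, abs_mul, abs_of_nonneg (pow_nonneg hY 3)]
    calc Y ^ 3 * |(a - b) / (b * a)| ≤ (N : ℝ) ^ 3 * (1 / (η * N) ^ 2) :=
          mul_le_mul h4 h3 (abs_nonneg _) (by positivity)
      _ = 1 / η ^ 2 * N := by field_simp
  have e : α * b ^ 2 + β * (Y ^ 3 / b) + γ - (α * a ^ 2 + β * (Y ^ 3 / a) + γ) =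
      α * (b ^ 2 - a ^ 2) + β * (Y ^ 3 / b - Y ^ 3 / a) := by ring
  rw [e]
  refine (abs_add_le _ _).trans ?_
  rw [abs_mul, abs_mul]
  have h5 : |α| * |b ^ 2 - a ^ 2| ≤ 1 * (2 * (2 + η) * N) :=
    mul_le_mul hα h1 (abs_nonneg _) (by norm_num)
  have h6 : |β| * |Y ^ 3 / b - Y ^ 3 / a| ≤ 1 * (1 / η ^ 2 * N) :=
    mul_le_mul hβ h2 (abs_nonneg _) (by norm_num)
  calc _ ≤ 1 * (2 * (2 + η) * N) + 1 * (1 / η ^ 2 * N) := add_le_add h5 h6
    _ = _ := by ring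

theorem th_eq {Y α β γ : ℝ} {A : ℤ} (h1 : η * N ≤ |(A : ℝ)|) (h2 : |(A : ℝ)| ≤ 2 * N) :
    th N η Y α β γ A = α * (A : ℝ) ^ 2 + β * (Y ^ 3 / |(A : ℝ)|) + γ := by
  unfold th
  rw [cl_eq h1 h2, sq_abs]

end REG

open REG in
theorem t_REG : S_REG := by
  intro η hη
  refine ⟨4 * ((2 * (2 + η) + 1 / η ^ 2) + 1), by positivity, 1, ?_⟩
  intro N Y hN hY1 hYN hNY t sD sE hsD hsE
  have hN1 : (1 : ℝ) ≤ N := by exact_mod_cast hN
  have hY0 : 0 ≤ Y := by linarith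
  obtain ⟨c, hc⟩ : ∃ c : ℝ, c = 2 * (2 + η) + 1 / η ^ 2 := ⟨_, rfl⟩
  have hc0 : 0 < c := by rw [hc]; positivity
  obtain ⟨K, hK⟩ : ∃ K : ℝ, K = c * N + 1 := ⟨_, rfl⟩
  have hK0 : 0 ≤ K := by rw [hK]; positivity
  have hθ : ∀ α β γ : ℝ, |α| ≤ 1 → |β| ≤ 1 → ∀ A : ℤ,
      |th N η Y α β γ (A + 1) - th N η Y α β γ A| ≤ K - 1 := by
    intro α β γ hα hβ A
    have h := th_lip (γ := γ) hη hN hY0 hYN hα hβ A
    rw [hK, hc]
    linarith
  have h48 : |(1 / 48 : ℝ)| ≤ 1 := by rw [abs_le]; norm_num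
  have h72 : |(1 / 72 : ℝ)| ≤ 1 := by rw [abs_le]; norm_num
  have h72' : |(-1 / 72 : ℝ)| ≤ 1 := by rw [abs_le]; norm_num
  have h192 : |(-1 / 192 : ℝ)| ≤ 1 := by rw [abs_le]; norm_num
  have h576 : |(1 / 576 : ℝ)| ≤ 1 := by rw [abs_le]; norm_num
  have h576' : |(-1 / 576 : ℝ)| ≤ 1 := by rw [abs_le]; norm_num
  have h64 : |(1 / 64 : ℝ)| ≤ 1 := by rw [abs_le]; norm_num
  have h0 : |(0 : ℝ)| ≤ 1 := by simp
  have hApos : ∀ A : ℤ, η * N ≤ |(A : ℝ)| → 0 < |(A : ℝ)| := fun A hA =>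
    lt_of_lt_of_le (by positivity) hA
  -- the condition of `F4`
  have hF4 : IC N η K (fun A D => |(F4 t A D : ℝ)| ≤ Y ^ 2) := by
    cases t
    · refine ((IC.ge hK0 _ (hθ (-1 / 192) 0 (-Y ^ 2 / 192) h192 h0)).and
        (IC.le hK0 _ (hθ (-1 / 192) 0 (Y ^ 2 / 192) h192 h0))).congr ?_
      intro A D hA hA'
      rw [th_eq hA hA', th_eq hA hA', abs_le]
      simp only [F4, Bool.false_eq_true, if_false]
      push_cast
      constructor
      · rintro ⟨h1, h2⟩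
        constructor <;> linarith
      · rintro ⟨h1, h2⟩
        constructor <;> linarith
    · refine ((IC.ge hK0 _ (hθ (1 / 48) 0 (-Y ^ 2 / 48) h48 h0)).and
        (IC.le hK0 _ (hθ (1 / 48) 0 (Y ^ 2 / 48) h48 h0))).congr ?_
      intro A D hA hA'
      rw [th_eq hA hA', th_eq hA hA', abs_le]
      simp only [F4, if_true]
      push_cast
      constructor
      · rintro ⟨h1, h2⟩
        constructor <;> linarith
      · rintro ⟨h1, h2⟩
        constructor <;> linarith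
  -- the condition of `F6`
  have hF6 : IC N η K (fun A D => |(F6 t A D : ℝ)| ≤ Y ^ 3) := by
    cases t
    · refine ((IC.ge hK0 _ (hθ (1 / 576) (-1 / 576) 0 h576 h576')).and
        (IC.le hK0 _ (hθ (1 / 576) (1 / 576) 0 h576 h576))).congr ?_
      intro A D hA hA'
      have hp := hApos A hA
      rw [th_eq hA hA', th_eq hA hA']
      simp only [F6, Bool.false_eq_true, if_false]
      push_cast
      rw [abs_neg, abs_mul, ← le_div_iff₀' hp, abs_le]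
      constructor
      · rintro ⟨h1, h2⟩
        constructor <;> linarith
      · rintro ⟨h1, h2⟩
        constructor <;> linarith
    · refine ((IC.ge hK0 _ (hθ (1 / 72) (-1 / 72) 0 h72 h72')).and
        (IC.le hK0 _ (hθ (1 / 72) (1 / 72) 0 h72 h72))).congr ?_
      intro A D hA hA'
      have hp := hApos A hA
      rw [th_eq hA hA', th_eq hA hA']
      simp only [F6, if_true]
      push_cast
      rw [abs_neg, abs_mul, ← le_div_iff₀' hp, abs_le]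
      constructor
      · rintro ⟨h1, h2⟩
        constructor <;> linarith
      · rintro ⟨h1, h2⟩
        constructor <;> linarith
  -- the sign of `D`
  have hD : IC N η K (fun _ D => 0 < sD * D) := by
    rcases hsD with rfl | rfl
    · refine (IC.gt hK0 _ (hθ 0 0 0 h0 h0)).congr ?_
      intro A D hA hA'
      rw [th_eq hA hA']
      simp
    · refine (IC.lt hK0 _ (hθ 0 0 0 h0 h0)).congr ?_
      intro A D hA hA'
      rw [th_eq hA hA']
      simp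
  -- the sign of `EE`
  have hE : IC N η K (fun A D => 0 < sE * EE A D) := by
    rcases hsE with rfl | rfl
    · refine (IC.lt hK0 _ (hθ (1 / 64) 0 0 h64 h0)).congr ?_
      intro A D hA hA'
      rw [th_eq hA hA']
      have e : (0 < 1 * EE A D) ↔ (0 : ℝ) < (A : ℝ) ^ 2 - 64 * D := by
        rw [one_mul]
        unfold EE
        constructor
        · intro h; exact_mod_cast h
        · intro h; exact_mod_cast h
      rw [e]
      constructor <;> intro h <;> linarith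
    · refine (IC.gt hK0 _ (hθ (1 / 64) 0 0 h64 h0)).congr ?_
      intro A D hA hA'
      rw [th_eq hA hA']
      have e : (0 < -1 * EE A D) ↔ (A : ℝ) ^ 2 - 64 * D < 0 := by
        rw [neg_one_mul, neg_pos]
        unfold EE
        constructor
        · intro h; exact_mod_cast h
        · intro h; exact_mod_cast h
      rw [e]
      constructor <;> intro h <;> linarith
  obtain ⟨l, u, hl, hu, hlu⟩ := (hF4.and hF6).and (hD.and hE)
  -- the region is small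
  have hsmall : ∀ A D : ℤ, |(A : ℝ)| ≤ 2 * N → |(F4 t A D : ℝ)| ≤ Y ^ 2 →
      -(N : ℤ) ^ 2 < D ∧ D ≤ (N : ℤ) ^ 2 := by
    intro A D hA h
    have hA2 : (A : ℝ) ^ 2 ≤ 4 * (N : ℝ) ^ 2 := by
      rw [← sq_abs]
      calc |(A : ℝ)| ^ 2 ≤ (2 * (N : ℝ)) ^ 2 := pow_le_pow_left₀ (abs_nonneg _) hA 2
        _ = _ := by ring
    have hY2 : Y ^ 2 ≤ (N : ℝ) ^ 2 := pow_le_pow_left₀ hY0 hYN 2
    have hA0 : (0 : ℝ) ≤ (A : ℝ) ^ 2 := sq_nonneg _
    have hN2 : (1 : ℝ) ≤ (N : ℝ) ^ 2 := one_le_pow₀ hN1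
    rw [abs_le] at h
    have h1 : -(N : ℝ) ^ 2 < D ∧ (D : ℝ) ≤ (N : ℝ) ^ 2 := by
      cases t
      · simp only [F4, Bool.false_eq_true, if_false] at h
        push_cast at h
        constructor <;> linarith [h.1, h.2]
      · simp only [F4, if_true] at h
        push_cast at h
        constructor <;> linarith [h.1, h.2]
    constructor
    · exact_mod_cast h1.1
    · exact_mod_cast h1.2
  have hNN : -(N : ℤ) ^ 2 ≤ (N : ℤ) ^ 2 := by nlinarith [sq_nonneg (N : ℤ)]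
  -- the functions
  obtain ⟨L, hL⟩ : ∃ L : ℤ → ℤ, ∀ A, L A = max (-(N : ℤ) ^ 2) (min ((N : ℤ) ^ 2) (l A)) :=
    ⟨_, fun _ => rfl⟩
  obtain ⟨U, hU⟩ : ∃ U : ℤ → ℤ, ∀ A, U A = max (L A) (min ((N : ℤ) ^ 2) (u A)) :=
    ⟨_, fun _ => rfl⟩
  have hLlip : ∀ A, |(L (A + 1) : ℝ) - (L A : ℝ)| ≤ K := by
    intro A
    rw [hL, hL]
    push_cast
    refine max_lip ?_ (min_lip ?_ (hl A))
    · simpa using hK0
    · simpa using hK0
  have hUlip : ∀ A, |(U (A + 1) : ℝ) - (U A : ℝ)| ≤ K := by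
    intro A
    have h1 := hLlip A
    rw [hU, hU, Int.cast_max, Int.cast_max, Int.cast_min, Int.cast_min]
    refine max_lip h1 (min_lip ?_ (hu A))
    simpa using hK0
  have hsum : ∀ f : ℤ → ℤ, (∀ A, |(f (A + 1) : ℝ) - (f A : ℝ)| ≤ K) →
      ∑ A ∈ Ico (-(2 * (N : ℤ))) (2 * N), |((f (A + 1) - f A : ℤ) : ℝ)| ≤
        4 * ((2 * (2 + η) + 1 / η ^ 2) + 1) * (N : ℝ) ^ 2 := by
    intro f hf
    have h1 : ∑ A ∈ Ico (-(2 * (N : ℤ))) (2 * N), |((f (A + 1) - f A : ℤ) : ℝ)| ≤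
        ∑ _A ∈ Ico (-(2 * (N : ℤ))) (2 * N), K := by
      refine Finset.sum_le_sum fun A _ => ?_
      rw [Int.cast_sub]
      exact hf A
    refine h1.trans ?_
    rw [Finset.sum_const, nsmul_eq_mul, Int.card_Ico]
    have h2 : ((2 * (N : ℤ) - -(2 * (N : ℤ))).toNat : ℝ) = 4 * N := by
      have : (2 * (N : ℤ) - -(2 * (N : ℤ))).toNat = 4 * N := by omega
      rw [this]
      push_cast
      ring
    rw [h2, hK, ← hc]
    nlinarith
  refine ⟨L, U, ?_, hsum L hLlip, hsum U hUlip, ?_⟩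
  · intro A
    rw [hU, hL]
    refine ⟨le_max_left _ _, le_max_left _ _, ?_⟩
    exact max_le (max_le hNN (min_le_left _ _)) (min_le_left _ _)
  · intro A D hA hA'
    rw [hU, hL]
    constructor
    · rintro ⟨⟨h1, h2⟩, h3, h4⟩
      obtain ⟨hD1, hD2⟩ := hsmall A D hA' h1
      obtain ⟨h5, h6⟩ := (hlu A D hA hA' hD1 hD2).1 ⟨⟨h1, h2⟩, h3, h4⟩
      refine ⟨max_lt hD1 (lt_of_le_of_lt (min_le_right _ _) h5), ?_⟩
      exact (le_min hD2 h6).trans (le_max_right _ _)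
    · rintro ⟨h1, h2⟩
      have h3 : -(N : ℤ) ^ 2 < D := lt_of_le_of_lt (le_max_left _ _) h1
      have h4 : D ≤ min ((N : ℤ) ^ 2) (u A) := by
        rcases le_max_iff.1 h2 with h | h
        · exact absurd h1 (not_lt.2 h)
        · exact h
      have h5 : D ≤ (N : ℤ) ^ 2 := h4.trans (min_le_left _ _)
      have h6 : D ≤ u A := h4.trans (min_le_right _ _)
      have h7 : l A < D := by
        have h8 : min ((N : ℤ) ^ 2) (l A) < D := lt_of_le_of_lt (le_max_right _ _) h1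
        rcases min_lt_iff.1 h8 with h | h
        · exact absurd h5 (not_le.2 h)
        · exact h
      obtain ⟨⟨h9, h10⟩, h11, h12⟩ := (hlu A D hA hA' h3 h5).2 ⟨h7, h6⟩
      exact ⟨⟨h9, h10⟩, h11, h12⟩

end Pool.Agent.K1H81.TT
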