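import Pool.Agent.K1H81.TT.Stm

set_option autoImplicit false

namespace Pool.Agent.K1H81.TT

open Finset Filter Topology

/-- the classes `(c₄, c₆)` of the semistable curves with a rational point of order two, height at most
`Z`, and root number satisfying `P` -/
def Fam (P : ℤ → Prop) (Z : ℕ) : Set (ℤ × ℤ) :=
  {z | ∃ W : WeierstrassCurve ℤ, Semistable W ∧ TwoTors W ∧ height W ≤ Z ∧ P (rootNumber W) ∧
    z = (W.c₄, W.c₆)}

/-- the scale of the region: `height ≤ Z` iff `max (|c₄|³, c₆²) ≤ (Yh three Z)⁶` -/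
noncomputable def Yh (three : Bool) (Z : ℕ) : ℝ :=
  if three then (27 * (Z : ℝ) / 4) ^ ((1 : ℝ) / 6) else ((Z : ℝ) / 78732) ^ ((1 : ℝ) / 6)

open Classical in
/-- the number of triples `(t, A, D)` -/
noncomputable def II (P : ℤ → Prop) (Z : ℕ) : ℕ :=
  ∑ t : Bool, ∑ three : Bool, ((FS t (three = true) (Yh three Z)).filter fun z => P (w z.1 z.2)).card

/-- FA: from classes to triples -/
def S_FA : Prop := ∃ C : ℝ, 0 < C ∧ ∀ (Z : ℕ), 1 ≤ Z → ∀ P : ℤ → Prop, (Fam P Z).Finite ∧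
  (Fam P Z).ncard ≤ II P Z ∧ (II P Z : ℝ) ≤ (Fam P Z).ncard + C * (Z : ℝ) ^ ((1 : ℝ) / 3)

/-- FB: the final statement -/
def S_FIN : Prop :=
  (∀ Z, (Fam (fun _ => True) Z).Finite) ∧
  Tendsto (fun Z => (Fam (fun _ => True) Z).ncard) atTop atTop ∧
  ∀ e : ℤ, e = 1 ∨ e = -1 →
    Tendsto (fun Z => ((Fam (fun w => w = e) Z).ncard : ℝ) / ((Fam (fun _ => True) Z).ncard : ℝ))
      atTop (𝓝 (1 / 2))

end Pool.Agent.K1H81.TT
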